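import Pool.Agent.W737.Sub.Tuple

/-! Modules of fields: smooth coefficients. -/

set_option autoImplicit false

open scoped ContDiff Topology BigOperators
open Finset Filter DAng

namespace Pool.Agent.W737.Sub

/-! ### extraction of smooth coefficients -/

lemma exists_dual {d k : ℕ} {v : Fin k → Fin d → ℂ} (hv : LinearIndependent ℂ v) :
    ∃ R : Fin k → Fin d → ℂ, ∀ t u, ∑ i, R t i * v u i = if t = u then 1 else 0 := by
  classical
  have hker : LinearMap.ker (Fintype.linearCombination ℂ v) = ⊥ := by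
    rw [LinearMap.ker_eq_bot']
    intro c hc
    rw [Fintype.linearCombination_apply] at hc
    funext i
    exact Fintype.linearIndependent_iff.1 hv c hc i
  obtain ⟨g, hg⟩ := LinearMap.exists_leftInverse_of_injective _ hker
  refine ⟨fun t i => g (Pi.single i 1) t, fun t u => ?_⟩
  have h1 : g (v u) = Pi.single u 1 := by
    have h2 := LinearMap.congr_fun hg (Pi.single u 1)
    simp only [LinearMap.comp_apply, LinearMap.id_apply, Fintype.linearCombination_apply] at h2
    rw [Finset.sum_eq_single u] at h2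
    · simpa using h2
    · intro b _ hb; simp [hb]
    · intro h; exact absurd (Finset.mem_univ _) h
  have h2 : g (v u) = ∑ i, v u i • g (Pi.single i 1) := by
    conv_lhs => rw [show v u = ∑ i, v u i • (Pi.single i (1 : ℂ) : Fin d → ℂ) from by
      funext k
      simp [Finset.sum_apply, Pi.single_apply]]
    rw [map_sum]
    simp only [map_smul]
  have h3 := congrFun h2 t
  rw [h1, Finset.sum_apply] at h3
  simp only [Pi.smul_apply, smul_eq_mul, Pi.single_apply] at h3
  rw [h3]
  exact Finset.sum_congr rfl fun i _ => mul_comm _ _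

lemma exists_coef {d s : ℕ} {p : E d} {K : Fin s → CVF d} (hK : ∀ j, Sm p (K j))
    (hind : LinearIndependent ℂ (fun j => K j p)) {Y : CVF d} (hY : Sm p Y)
    (hs : ∀ᶠ x in 𝓝 p, Y x ∈ Submodule.span ℂ (Set.range fun j => K j x)) :
    ∃ c : Fin s → CF d, (∀ j, Sm p (c j)) ∧ Y =ᶠ[𝓝 p] fun x i => ∑ j, c j x * K j x i := by
  classical
  obtain ⟨R, hR⟩ := exists_dual hind
  let M : E d → Matrix (Fin s) (Fin s) ℂ := fun x t u => ∑ i, R t i * K u x i
  have hM : ∀ t u, Sm p (fun x => M x t u) := fun t u =>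
    Sm.sum fun i _ => (Sm.const _).mul ((hK u).comp_apply i)
  have hMp : M p = 1 := by
    ext t u
    rw [Matrix.one_apply]
    exact hR t u
  have hdet : (M p).det ≠ 0 := by rw [hMp]; simp
  have hdn : ∀ᶠ x in 𝓝 p, (M x).det ≠ 0 := (EmbAux.ea_sm_det M hM).continuousAt.eventually_ne hdet
  refine ⟨fun j x => ∑ u, (M x)⁻¹ j u * ∑ i, R u i * Y x i, fun j => Sm.sum fun u _ =>
    (EmbAux.ea_sm_inv M hM hdet j u).mul (Sm.sum fun i _ => (Sm.const _).mul (hY.comp_apply i)), ?_⟩
  filter_upwards [hs, hdn] with x h1 h2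
  obtain ⟨c, hc⟩ := (Submodule.mem_span_range_iff_exists_fun ℂ).1 h1
  have h3 : ∀ i, Y x i = ∑ j, c j * K j x i := by
    intro i
    rw [← hc, Finset.sum_apply]
    rfl
  have h4 : ∀ u, ∑ i, R u i * Y x i = (M x).mulVec c u := by
    intro u
    simp only [Matrix.mulVec, dotProduct, M, h3, Finset.mul_sum, Finset.sum_mul]
    rw [Finset.sum_comm]
    exact Finset.sum_congr rfl fun j _ => Finset.sum_congr rfl fun i _ => by ring
  have h5 : ∀ j, ∑ u, (M x)⁻¹ j u * ∑ i, R u i * Y x i = c j := by
    intro j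
    simp only [h4]
    have h6 : (M x)⁻¹.mulVec ((M x).mulVec c) = c := by
      rw [Matrix.mulVec_mulVec, Matrix.nonsing_inv_mul _ (isUnit_iff_ne_zero.2 h2), Matrix.one_mulVec]
    exact congrFun h6 j
  funext i
  simp only [h5]
  exact h3 i

/-! ### modules of fields -/

section
variable {d s : ℕ}

/-- germs of smooth combinations of the brackets of length at most `N` -/
inductive MB (p : E d) (K : Fin s → CVF d) (N : ℕ) : CVF d → Prop
  | zero : MB p K N (fun _ _ => 0)
  | mono (f : CF d) (w : List (Lt s)) (hf : Sm p f) (hw : w ≠ []) (h : w.length ≤ N) :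
      MB p K N (fun x i => f x * brK K w x i)
  | add {U V : CVF d} : MB p K N U → MB p K N V → MB p K N (fun x i => U x i + V x i)
  | congr {U V : CVF d} : MB p K N U → V =ᶠ[𝓝 p] U → MB p K N V

/-- germs of smooth combinations of derivatives of length at most `N` of functions in `G` -/
inductive MF (p : E d) (K : Fin s → CVF d) (G : Set (CF d)) (N : ℕ) : CF d → Prop
  | zero : MF p K G N (fun _ => 0)
  | mono (f : CF d) (w : List (Lt s)) (g : CF d) (hf : Sm p f) (hg : g ∈ G) (h : w.length ≤ N) :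
      MF p K G N (fun x => f x * opK K w g x)
  | add {U V : CF d} : MF p K G N U → MF p K G N V → MF p K G N (fun x => U x + V x)
  | congr {U V : CF d} : MF p K G N U → V =ᶠ[𝓝 p] U → MF p K G N V

variable {p : E d} {K : Fin s → CVF d} {N : ℕ} {G : Set (CF d)}

lemma MB.sm (hK : ∀ j, Sm p (K j)) {U : CVF d} (h : MB p K N U) : Sm p U := by
  induction h with
  | zero => exact Sm.const (p := p) (0 : Fin d → ℂ)
  | mono f w hf hw h => exact Sm.of_apply fun i => hf.mul ((sm_brK hK w).comp_apply i)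
  | add _ _ h1 h2 => exact Sm.of_apply fun i => (h1.comp_apply i).add (h2.comp_apply i)
  | congr _ h1 h2 => exact Sm.congr h2 h1

lemma MF.sm (hK : ∀ j, Sm p (K j)) (hG : ∀ g ∈ G, Sm p g) {U : CF d} (h : MF p K G N U) : Sm p U := by
  induction h with
  | zero => exact Sm.const (p := p) (0 : ℂ)
  | mono f w g hf hg h => exact hf.mul (sm_opK hK w (hG g hg))
  | add _ _ h1 h2 => exact h1.add h2
  | congr _ h1 h2 => exact Sm.congr h2 h1

lemma MB.sum {ι : Type*} (t : Finset ι) {U : ι → CVF d} (h : ∀ a ∈ t, MB p K N (U a)) :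
    MB p K N (fun x i => ∑ a ∈ t, U a x i) := by
  classical
  induction t using Finset.induction_on with
  | empty => simpa using MB.zero
  | insert a t ha ih =>
    simp only [Finset.sum_insert ha]
    exact MB.add (h a (Finset.mem_insert_self _ _)) (ih fun b hb => h b (Finset.mem_insert_of_mem hb))

lemma MF.sum {ι : Type*} (t : Finset ι) {U : ι → CF d} (h : ∀ a ∈ t, MF p K G N (U a)) :
    MF p K G N (fun x => ∑ a ∈ t, U a x) := by
  classical
  induction t using Finset.induction_on with
  | empty => simpa using MF.zero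
  | insert a t ha ih =>
    simp only [Finset.sum_insert ha]
    exact MF.add (h a (Finset.mem_insert_self _ _)) (ih fun b hb => h b (Finset.mem_insert_of_mem hb))

lemma lieBr_fmul {X Y : CVF d} {f g : CF d} (hX : Sm p X) (hY : Sm p Y) (hf : Sm p f) (hg : Sm p g) :
    lieBr (fun x i => f x * X x i) (fun x i => g x * Y x i) =ᶠ[𝓝 p]
      fun x i => ((f x * g x) * lieBr X Y x i + (f x * act X g x) * Y x i) +
        (-(g x * act Y f x)) * X x i := by
  have dX := eventually_all.2 fun i => (hX.comp_apply i).differentiableAt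
  have dY := eventually_all.2 fun i => (hY.comp_apply i).differentiableAt
  filter_upwards [dX, dY, hf.differentiableAt, hg.differentiableAt] with x dX dY df dg
  funext i
  simp only [lieBr]
  rw [act_fmul_field, act_fmul_field, act_mul dg (dY i), act_mul df (dX i)]
  ring

/-- the bracket with a letter times a function -/
lemma MB.step (hK : ∀ j, Sm p (K j)) (f : CF d) (κ : Lt s) (hf : Sm p f) {U : CVF d}
    (h : MB p K N U) : MB p K (N + 1) (lieBr (fun x i => f x * KL K κ x i) U) := by
  induction h with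
  | zero => rw [lieBr_zero_right]; exact MB.zero
  | mono g w hg hw h =>
    refine MB.congr (MB.add (MB.add (MB.mono (fun x => f x * g x) (κ :: w) (hf.mul hg) (by simp)
      (by simp; omega)) (MB.mono (fun x => f x * act (KL K κ) g x) w (hf.mul ((sm_KL hK κ).act hg)) hw
        (by omega))) (MB.mono (fun x => -(g x * act (brK K w) f x)) [κ]
          (hg.mul ((sm_brK hK w).act hf)).neg (by simp) (by simp)))
      ((lieBr_fmul (sm_KL hK κ) (sm_brK hK w) hf hg).trans (Eventually.of_forall fun x => ?_))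
    funext i
    simp only [brK_cons hw]
    rfl
  | add h1 h2 ih1 ih2 => exact (MB.add ih1 ih2).congr (lieBr_add_right (h1.sm hK) (h2.sm hK))
  | congr _ h1 ih => exact ih.congr (lieBr_congr EventuallyEq.rfl h1)

lemma MB.br (hK : ∀ j, Sm p (K j)) {Y U : CVF d} (hY : MB p K 1 Y) (h : MB p K N U) :
    MB p K (N + 1) (lieBr Y U) := by
  induction hY with
  | zero =>
    rw [lieBr_antisymm, lieBr_zero_right]
    simpa using MB.zero
  | mono f w hf hw hl =>
    have h1 : ∃ κ, w = [κ] := by
      cases w with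
      | nil => exact absurd rfl hw
      | cons κ w =>
        cases w with
        | nil => exact ⟨κ, rfl⟩
        | cons _ _ => simp at hl
    obtain ⟨κ, rfl⟩ := h1
    exact MB.step hK f κ hf h
  | add h1 h2 ih1 ih2 => exact (MB.add ih1 ih2).congr (lieBr_add_left (h1.sm hK) (h2.sm hK))
  | congr _ h1 ih => exact ih.congr (lieBr_congr h1 EventuallyEq.rfl)

lemma MF.step (hK : ∀ j, Sm p (K j)) (hG : ∀ g ∈ G, Sm p g) {Y : CVF d} {U : CF d}
    (hY : MB p K 1 Y) (h : MF p K G N U) : MF p K G (N + 1) (act Y U) := by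
  have hU := h.sm hK hG
  induction hY with
  | zero =>
    have : act (fun _ _ => (0 : ℂ)) U = fun _ => 0 := by
      funext x; simp [act]
    rw [this]; exact MF.zero
  | mono f w hf hw hl =>
    have h1 : ∃ κ, w = [κ] := by
      cases w with
      | nil => exact absurd rfl hw
      | cons κ w =>
        cases w with
        | nil => exact ⟨κ, rfl⟩
        | cons _ _ => simp at hl
    obtain ⟨κ, rfl⟩ := h1
    have e1 : act (fun x i => f x * brK K [κ] x i) U = fun x => f x * act (KL K κ) U x := by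
      funext x
      rw [act_fmul_field]
      rfl
    rw [e1]
    clear e1
    induction h with
    | zero =>
      have : (fun x => f x * act (KL K κ) (fun _ => (0 : ℂ)) x) = fun _ => 0 := by
        funext x; rw [act_const, mul_zero]
      rw [this]; exact MF.zero
    | mono g w v hg hv h =>
      refine MF.congr (MF.add (MF.mono (fun x => f x * act (KL K κ) g x) w v
        (hf.mul ((sm_KL hK κ).act hg)) hv (by omega))
        (MF.mono (fun x => f x * g x) (w ++ [κ]) v (hf.mul hg) hv (by simp; omega))) ?_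
      filter_upwards [hg.differentiableAt, (sm_opK hK w (hG v hv)).differentiableAt] with x h1 h2
      rw [act_mul h1 h2, opK_append]
      ring
    | add h1 h2 ih1 ih2 =>
      refine (MF.add (ih1 (h1.sm hK hG)) (ih2 (h2.sm hK hG))).congr ?_
      filter_upwards [act_fun_add (X := KL K κ) (h1.sm hK hG) (h2.sm hK hG)] with x hx
      rw [hx]
      ring
    | congr h1 h2 ih =>
      refine (ih (h1.sm hK hG)).congr ?_
      filter_upwards [act_congr (X := KL K κ) EventuallyEq.rfl h2] with x hx
      rw [hx]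
  | add h1 h2 ih1 ih2 =>
    refine (MF.add ih1 ih2).congr (Eventually.of_forall fun x => ?_)
    rw [act_add_field']
  | congr _ h1 ih => exact ih.congr (act_congr h1 EventuallyEq.rfl)

/-- iterated bracket of a list of fields, the head is outermost -/
noncomputable def brL : List (CVF d) → CVF d
  | [] => 0
  | [Y] => Y
  | Y :: Y' :: l => lieBr Y (brL (Y' :: l))

/-- iterated derivative, the head is outermost -/
noncomputable def opL : List (CVF d) → CF d → CF d
  | [], f => f
  | Y :: l, f => act Y (opL l f)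

lemma MB.brL (hK : ∀ j, Sm p (K j)) : ∀ (l : List (CVF d)), l ≠ [] → (∀ Y ∈ l, MB p K 1 Y) →
    MB p K l.length (brL l)
  | [], h, _ => absurd rfl h
  | [Y], _, h => h Y (by simp)
  | Y :: Y' :: l, _, h =>
    MB.br hK (h Y (by simp)) (MB.brL hK (Y' :: l) (by simp) fun Z hZ => h Z (List.mem_cons_of_mem _ hZ))

lemma MF.opL (hK : ∀ j, Sm p (K j)) (hG : ∀ g ∈ G, Sm p g) : ∀ (l : List (CVF d)),
    (∀ Y ∈ l, MB p K 1 Y) → ∀ {U : CF d}, MF p K G N U → MF p K G (N + l.length) (opL l U)
  | [], _, _, hU => hU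
  | Y :: l, h, _, hU => MF.step hK hG (h Y (by simp))
    (MF.opL hK hG l (fun Z hZ => h Z (List.mem_cons_of_mem _ hZ)) hU)

lemma MB.pair_zero (η : E d → Fin d → ℝ) {U : CVF d} (h : MB p K N U)
    (h0 : ∀ w : List (Lt s), w ≠ [] → w.length ≤ N → pair η (brK K w) p = 0) : pair η U p = 0 := by
  induction h with
  | zero => simp [pair]
  | mono f w hf hw h =>
    have : pair η (fun x i => f x * brK K w x i) p = f p * pair η (brK K w) p := by
      simp only [pair, Finset.mul_sum]
      exact Finset.sum_congr rfl fun i _ => by ring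
    rw [this, h0 w hw h, mul_zero]
  | add _ _ h1 h2 => rw [pair_add, h1, h2, add_zero]
  | congr _ h1 h2 => rw [pair_congr_at _ h1.self_of_nhds]; exact h2

lemma MF.zero_at {U : CF d} (h : MF p K G N U)
    (h0 : ∀ w : List (Lt s), w.length ≤ N → ∀ g ∈ G, opK K w g p = 0) : U p = 0 := by
  induction h with
  | zero => rfl
  | mono f w g hf hg h =>
    show f p * _ = 0
    rw [h0 w h g hg, mul_zero]
  | add _ _ h1 h2 =>
    show _ + _ = _
    rw [h1, h2, add_zero]
  | congr _ h1 h2 => rw [h1.self_of_nhds]; exact h2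

/-- sections of the span, up to germs -/
def SecB (p : E d) (K : Fin s → CVF d) (Y : CVF d) : Prop :=
  ∃ c : Fin s → CF d, (∀ j, Sm p (c j)) ∧ Y =ᶠ[𝓝 p] fun x i => ∑ j, c j x * K j x i

lemma SecB.mb {Y : CVF d} (h : SecB p K Y) : MB p K 1 Y := by
  obtain ⟨c, hc, hY⟩ := h
  refine MB.congr (MB.sum Finset.univ fun j _ => MB.mono (c j) [(j, true)] (hc j) (by simp) (by simp)) hY

lemma SecB.mb_conj {Y : CVF d} (h : SecB p K Y) : MB p K 1 (cjVF Y) := by
  obtain ⟨c, hc, hY⟩ := h
  refine MB.congr (MB.sum Finset.univ fun j _ =>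
    MB.mono (fun x => (starRingEnd ℂ) (c j x)) [(j, false)] (hc j).conj (by simp) (by simp)) ?_
  filter_upwards [hY] with x hx
  funext i
  show (starRingEnd ℂ) (Y x i) = _
  rw [hx]
  simp only [map_sum, map_mul]
  rfl

lemma lieBr_sum_left {ι : Type*} (t : Finset ι) {X : CVF d} {U : ι → CVF d} (hU : ∀ a, Sm p (U a)) :
    lieBr (fun y i => ∑ a ∈ t, U a y i) X =ᶠ[𝓝 p] fun y i => ∑ a ∈ t, lieBr (U a) X y i := by
  have h1 := lieBr_sum_right t (X := X) hU
  filter_upwards [h1] with y hy
  funext i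
  rw [lieBr_antisymm]
  simp only [hy, Finset.mul_sum]
  refine Finset.sum_congr rfl fun a _ => ?_
  rw [lieBr_antisymm (U a) X]

lemma SecB.levi (hK : ∀ j, Sm p (K j)) {η : E d → Fin d → ℝ}
    (hann : ∀ j, ∀ᶠ x in 𝓝 p, pair η (K j) x = 0) {Y : CVF d} (h : SecB p K Y) :
    MF p K (GG η K) 0 (pair η (lieBr Y (cjVF Y))) := by
  obtain ⟨c, hc, hY⟩ := h
  have hcY : cjVF Y =ᶠ[𝓝 p] fun x i => ∑ j, (starRingEnd ℂ) (c j x) * cjVF (K j) x i := by
    filter_upwards [hY] with x hx
    funext i
    show (starRingEnd ℂ) (Y x i) = _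
    rw [hx]
    simp only [map_sum, map_mul]
    rfl
  have h1 := lieBr_congr hY hcY
  have hs1 : ∀ j, Sm p (fun x i => c j x * K j x i) := fun j =>
    Sm.of_apply fun i => (hc j).mul ((hK j).comp_apply i)
  have hs2 : ∀ j, Sm p (fun x i => (starRingEnd ℂ) (c j x) * cjVF (K j) x i) := fun j =>
    Sm.of_apply fun i => (hc j).conj.mul ((hK j).cjVF.comp_apply i)
  have h2 := lieBr_sum_left (p := p) Finset.univ
    (X := fun x i => ∑ j, (starRingEnd ℂ) (c j x) * cjVF (K j) x i)
    (U := fun j x i => c j x * K j x i) hs1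
  have h3 : ∀ a : Fin s, lieBr (fun x i => c a x * K a x i)
      (fun x i => ∑ j, (starRingEnd ℂ) (c j x) * cjVF (K j) x i) =ᶠ[𝓝 p]
      fun y i => ∑ b, lieBr (fun x i => c a x * K a x i)
        (fun x i => (starRingEnd ℂ) (c b x) * cjVF (K b) x i) y i := fun a =>
    lieBr_sum_right Finset.univ hs2
  have h4 : ∀ a b : Fin s, lieBr (fun x i => c a x * K a x i)
      (fun x i => (starRingEnd ℂ) (c b x) * cjVF (K b) x i) =ᶠ[𝓝 p] _ := fun a b =>
    lieBr_fmul (hK a) (hK b).cjVF (hc a) (hc b).conj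
  have hann2 : ∀ᶠ x in 𝓝 p, ∀ j, pair η (cjVF (K j)) x = 0 := by
    filter_upwards [eventually_all.2 hann] with x hx j
    rw [pair_cj, hx j, map_zero]
  refine MF.congr (MF.sum Finset.univ fun a _ => MF.sum Finset.univ fun b _ =>
    MF.mono (fun x => c a x * (starRingEnd ℂ) (c b x)) [] (lam η K a b)
      ((hc a).mul (hc b).conj) ⟨(a, b), rfl⟩ (by simp)) ?_
  filter_upwards [h1, h2, eventually_all.2 h3, eventually_all.2 fun a => eventually_all.2 fun b => h4 a b,
    eventually_all.2 hann, hann2] with x e1 e2 e3 e4 e5 e6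
  have e7 : pair η (lieBr Y (cjVF Y)) x = pair η (fun y i => ∑ a : Fin s, ∑ b : Fin s,
      lieBr (fun x i => c a x * K a x i)
        (fun x i => (starRingEnd ℂ) (c b x) * cjVF (K b) x i) y i) x := by
    refine pair_congr_at _ ?_
    rw [e1, e2]
    funext i
    exact Finset.sum_congr rfl fun a _ => by rw [e3 a]
  rw [e7, pair_sum]
  refine Finset.sum_congr rfl fun a _ => ?_
  rw [pair_sum]
  refine Finset.sum_congr rfl fun b _ => ?_
  refine (pair_congr_at η (V := fun x i => ((c a x * (starRingEnd ℂ) (c b x)) *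
      lieBr (K a) (cjVF (K b)) x i +
      (c a x * act (K a) (fun x => (starRingEnd ℂ) (c b x)) x) * cjVF (K b) x i) +
      (-((starRingEnd ℂ) (c b x) * act (cjVF (K b)) (c a) x)) * K a x i) (e4 a b)).trans ?_
  have e8 : pair η (fun x i => ((c a x * (starRingEnd ℂ) (c b x)) * lieBr (K a) (cjVF (K b)) x i +
      (c a x * act (K a) (fun x => (starRingEnd ℂ) (c b x)) x) * cjVF (K b) x i) +
      (-((starRingEnd ℂ) (c b x) * act (cjVF (K b)) (c a) x)) * K a x i) x =
      (c a x * (starRingEnd ℂ) (c b x)) * pair η (lieBr (K a) (cjVF (K b))) x +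
      (c a x * act (K a) (fun x => (starRingEnd ℂ) (c b x)) x) * pair η (cjVF (K b)) x +
      (-((starRingEnd ℂ) (c b x) * act (cjVF (K b)) (c a) x)) * pair η (K a) x := by
    simp only [pair, Finset.mul_sum, ← Finset.sum_add_distrib]
    exact Finset.sum_congr rfl fun i _ => by ring
  rw [e8, e5 a, e6 b]
  simp only [mul_zero, add_zero]
  rfl

end

/-! ### chart versions of the two implications -/

variable {n s : ℕ} {p : E (2 * n + 1)}

theorem chart_TC (C : LCR n p) {K : Fin s → CVF (2 * n + 1)} (hK : ∀ j, Sm p (K j))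
    (hspan : ∀ j, ∀ᶠ x in 𝓝 p, K j x ∈ Submodule.span ℂ (Set.range fun l => C.K l x)) {m : ℕ}
    (h : ∀ (r : ℕ) (A : Fin r → Fin s → ℂ), TV C.η p (KA K A) m)
    {l : List (CVF (2 * n + 1))} (hl : ∀ Y ∈ l, MB p K 1 Y) (hlen : l.length + 2 ≤ m)
    {L : CVF (2 * n + 1)} (hL : SecB p K L) : opL l (pair C.η (lieBr L (cjVF L))) p = 0 := by
  have hCV := CV_of_TV C hK hspan h
  have h1 := hL.levi hK (ann_of_span C hspan)
  have h2 := MF.opL hK (sm_GG hK C.smη) l hl h1
  refine h2.zero_at ?_
  rintro w hw _ ⟨⟨i, j⟩, rfl⟩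
  exact hCV w (by omega) i j

theorem chart_CT (C : LCR n p) {K : Fin s → CVF (2 * n + 1)} (hK : ∀ j, Sm p (K j))
    (hspan : ∀ j, ∀ᶠ x in 𝓝 p, K j x ∈ Submodule.span ℂ (Set.range fun l => C.K l x)) {m : ℕ}
    (h : ∀ w : List (Lt s), w.length + 2 ≤ m → ∀ a : Fin s → ℂ, a ≠ 0 → opK K w (lvi C.η K a) p = 0)
    {l : List (CVF (2 * n + 1))} (hne : l ≠ []) (hl : ∀ Y ∈ l, MB p K 1 Y) (hlen : l.length ≤ m) :
    pair C.η (brL l) p = 0 := by
  have hCV : CV C.η p K m := by
    intro w hw i j
    exact polar (q := fun i j => opK K w (lam C.η K i j) p)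
      (fun a ha => by rw [← opK_lvi hK C.smη w a]; exact h w hw a ha) i j
  have hTV := TV_of_CV C hK hspan hCV
  exact (MB.brL hK l hne hl).pair_zero C.η fun w hw hwl => hTV w hw (hwl.trans hlen)

end Pool.Agent.W737.Sub
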