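import Pool.Agent.W737.Sub.HDef
import Pool.Agent.W737.Sub.Modu

/-! Related fields in a chart. -/

set_option autoImplicit false

open scoped ContDiff Topology BigOperators
open Finset Filter DAng

namespace Pool.Agent.W737.Sub.FT

variable {n d : ℕ}

/-- smooth near `p` -/
def SmA {n : ℕ} {F : Type*} [NormedAddCommGroup F] [NormedSpace ℝ F] (p : Cn n) (f : Cn n → F) : Prop :=
  ∀ᶠ z in 𝓝 p, ContDiffAt ℝ ∞ f z

/-- complex linear extension of a real linear map, evaluated at `(a, b)` -/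
noncomputable def cx (a b : Cn n) (ℓ : Cn n →L[ℝ] ℂ) : ℂ :=
  ∑ j, (a j * ((ℓ (Pi.single j 1) - Complex.I * ℓ (Pi.single j Complex.I)) / 2) +
    b j * ((ℓ (Pi.single j 1) + Complex.I * ℓ (Pi.single j Complex.I)) / 2))

lemma act_eq_cx (X : VF n) (f : Cn n → ℂ) (z : Cn n) : X.act f z = cx (X.a z) (X.b z) (fderiv ℝ f z) :=
  rfl

lemma cx_add (a b : Cn n) (ℓ ℓ' : Cn n →L[ℝ] ℂ) : cx a b (ℓ + ℓ') = cx a b ℓ + cx a b ℓ' := by
  simp only [cx, ← Finset.sum_add_distrib]
  refine Finset.sum_congr rfl fun j _ => ?_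
  simp only [ContinuousLinearMap.add_apply]
  ring

lemma cx_smul (a b : Cn n) (c : ℂ) (ℓ : Cn n →L[ℝ] ℂ) : cx a b (c • ℓ) = c * cx a b ℓ := by
  simp only [cx, Finset.mul_sum]
  refine Finset.sum_congr rfl fun j _ => ?_
  simp only [ContinuousLinearMap.smul_apply, smul_eq_mul]
  ring

lemma cx_sum (a b : Cn n) {ι : Type*} (s : Finset ι) (ℓ : ι → (Cn n →L[ℝ] ℂ)) :
    cx a b (∑ i ∈ s, ℓ i) = ∑ i ∈ s, cx a b (ℓ i) := by
  classical
  induction s using Finset.induction_on with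
  | empty => simp [cx]
  | insert i s hi ih => rw [Finset.sum_insert hi, cx_add, ih, Finset.sum_insert hi]

/-- real vector: `ℓ v = ∑ (∂_j ℓ v_j + ∂̄_j ℓ v̄_j)` -/
lemma clm_eq_cx (ℓ : Cn n →L[ℝ] ℂ) (v : Cn n) : ℓ v = cx v (fun j => (starRingEnd ℂ) (v j)) ℓ := by
  have h1 : v = ∑ j, ((v j).re • (Pi.single j (1 : ℂ) : Cn n) +
      (v j).im • (Pi.single j Complex.I : Cn n)) := by
    funext k
    rw [Finset.sum_apply, Finset.sum_eq_single k]
    · simp only [Pi.add_apply, Pi.smul_apply, Pi.single_eq_same, Complex.real_smul]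
      rw [mul_one]
      exact (Complex.re_add_im (v k)).symm
    · intro b _ hb
      simp [Pi.single_eq_of_ne (Ne.symm hb)]
    · intro h; exact absurd (Finset.mem_univ _) h
  conv_lhs => rw [h1, map_sum]
  simp only [cx]
  refine Finset.sum_congr rfl fun j _ => ?_
  rw [map_add, map_smul, map_smul, Complex.real_smul, Complex.real_smul]
  have e1 : (v j) = (v j).re + (v j).im * Complex.I := (Complex.re_add_im (v j)).symm
  have e2 : (starRingEnd ℂ) (v j) = (v j).re - (v j).im * Complex.I := by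
    conv_lhs => rw [e1]
    simp only [map_add, map_mul, Complex.conj_ofReal, Complex.conj_I]
    ring
  have key : ∀ (x y A B : ℂ), x * A + y * B = (x + y * Complex.I) * ((A - Complex.I * B) / 2) +
      (x - y * Complex.I) * ((A + Complex.I * B) / 2) := by
    intro x y A B
    have hI := Complex.I_mul_I
    linear_combination (y * B) * hI
  rw [e2, key, ← e1]

lemma cx_lin_a (a a' b : Cn n) (ℓ : Cn n →L[ℝ] ℂ) (b' : Cn n) :
    cx (fun j => a j + a' j) (fun j => b j + b' j) ℓ = cx a b ℓ + cx a' b' ℓ := by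
  simp only [cx, ← Finset.sum_add_distrib]
  exact Finset.sum_congr rfl fun j _ => by ring

/-! ### chain rule -/

variable {Φ : E d → Cn n} {x0 : E d}

lemma pd_comp {f : Cn n → ℂ} {x : E d} (hf : DifferentiableAt ℝ f (Φ x))
    (hΦ : DifferentiableAt ℝ Φ x) (i : Fin d) :
    pd i (fun y => f (Φ y)) x =
      cx (fun j => pd i (fun y => Φ y j) x) (fun j => pd i (fun y => (starRingEnd ℂ) (Φ y j)) x)
        (fderiv ℝ f (Φ x)) := by
  have h1 : HasFDerivAt (fun y => f (Φ y)) ((fderiv ℝ f (Φ x)).comp (fderiv ℝ Φ x)) x :=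
    hf.hasFDerivAt.comp x hΦ.hasFDerivAt
  have h2 : ∀ j, pd i (fun y => Φ y j) x = fderiv ℝ Φ x (Pi.single i 1) j := by
    intro j
    have : HasFDerivAt (fun y => Φ y j) ((ContinuousLinearMap.proj j).comp (fderiv ℝ Φ x)) x :=
      (hasFDerivAt_pi'.1 hΦ.hasFDerivAt) j
    simp only [pd]
    rw [this.fderiv]
    rfl
  have h3 : ∀ j, pd i (fun y => (starRingEnd ℂ) (Φ y j)) x =
      (starRingEnd ℂ) (fderiv ℝ Φ x (Pi.single i 1) j) := by
    intro j
    have h4 : DifferentiableAt ℝ (fun y => Φ y j) x := by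
      exact ((hasFDerivAt_pi'.1 hΦ.hasFDerivAt) j).differentiableAt
    rw [pd_conj h4, h2]
  simp only [h2, h3]
  rw [← clm_eq_cx]
  show fderiv ℝ (fun y => f (Φ y)) x _ = _
  rw [h1.fderiv]
  rfl

/-- `X` and `X'` are `Φ`-related near `x0` -/
def Frel (Φ : E d → Cn n) (x0 : E d) (X : VF n) (X' : CVF d) : Prop :=
  ∀ᶠ x in 𝓝 x0, (∀ j, X.a (Φ x) j = act X' (fun y => Φ y j) x) ∧
    ∀ j, X.b (Φ x) j = act X' (fun y => (starRingEnd ℂ) (Φ y j)) x

lemma Frel.at_act {X : VF n} {X' : CVF d} {x : E d}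
    (h : (∀ j, X.a (Φ x) j = act X' (fun y => Φ y j) x) ∧
      ∀ j, X.b (Φ x) j = act X' (fun y => (starRingEnd ℂ) (Φ y j)) x)
    {f : Cn n → ℂ} (hf : DifferentiableAt ℝ f (Φ x)) (hΦ : DifferentiableAt ℝ Φ x) :
    X.act f (Φ x) = act X' (fun y => f (Φ y)) x := by
  rw [act_eq_cx]
  simp only [DAng.act, pd_comp hf hΦ]
  simp only [cx, h.1, h.2, DAng.act, Finset.mul_sum, Finset.sum_mul, ← Finset.sum_add_distrib]
  rw [Finset.sum_comm]
  exact Finset.sum_congr rfl fun j _ => Finset.sum_congr rfl fun i _ => by ring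

lemma smA_comp {F : Type*} [NormedAddCommGroup F] [NormedSpace ℝ F] (hΦ : Sm x0 Φ) {f : Cn n → F}
    (hf : SmA (Φ x0) f) : Sm x0 (fun x => f (Φ x)) := by
  have h1 := hΦ.continuousAt.eventually hf
  filter_upwards [h1, hΦ] with x h1 h2
  exact h1.comp x h2

lemma SmA.differentiableAt {p : Cn n} {F : Type*} [NormedAddCommGroup F] [NormedSpace ℝ F]
    {f : Cn n → F} (hf : SmA p f) : ∀ᶠ z in 𝓝 p, DifferentiableAt ℝ f z := by
  filter_upwards [hf] with z hz
  exact hz.differentiableAt (by simp)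

lemma Frel.act {X : VF n} {X' : CVF d} (h : Frel Φ x0 X X') (hΦ : Sm x0 Φ) {f : Cn n → ℂ}
    (hf : SmA (Φ x0) f) :
    (fun x => X.act f (Φ x)) =ᶠ[𝓝 x0] DAng.act X' (fun y => f (Φ y)) := by
  filter_upwards [h, hΦ.differentiableAt, hΦ.continuousAt.eventually hf.differentiableAt]
    with x h1 h2 h3
  exact Frel.at_act h1 h3 h2

lemma smA_comp_apply {p : Cn n} {L : Cn n → Cn n} (h : SmA p L) (j : Fin n) : SmA p (fun z => L z j) := by
  filter_upwards [h] with z hz
  exact (contDiffAt_pi.1 hz) j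

lemma smA_of_apply {p : Cn n} {L : Cn n → Cn n} (h : ∀ j, SmA p (fun z => L z j)) : SmA p L := by
  filter_upwards [eventually_all.2 h] with z hz
  exact contDiffAt_pi.2 hz

/-- smooth ambient fields -/
def VF.Smo (p : Cn n) (X : VF n) : Prop := SmA p X.a ∧ SmA p X.b

lemma smA_fderiv_apply {p : Cn n} {f : Cn n → ℂ} (hf : SmA p f) (v : Cn n) :
    SmA p (fun z => fderiv ℝ f z v) := by
  filter_upwards [hf] with z hz
  have h2 : ContDiffAt ℝ ∞ (fderiv ℝ f) z := hz.fderiv_right (by simp)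
  exact h2.clm_apply contDiffAt_const

lemma SmA.add {p : Cn n} {f g : Cn n → ℂ} (hf : SmA p f) (hg : SmA p g) :
    SmA p (fun z => f z + g z) := by
  filter_upwards [hf, hg] with z h1 h2 using h1.add h2

lemma SmA.sub {p : Cn n} {f g : Cn n → ℂ} (hf : SmA p f) (hg : SmA p g) :
    SmA p (fun z => f z - g z) := by
  filter_upwards [hf, hg] with z h1 h2 using h1.sub h2

lemma SmA.mul {p : Cn n} {f g : Cn n → ℂ} (hf : SmA p f) (hg : SmA p g) :
    SmA p (fun z => f z * g z) := by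
  filter_upwards [hf, hg] with z h1 h2 using h1.mul h2

lemma SmA.neg {p : Cn n} {f : Cn n → ℂ} (hf : SmA p f) : SmA p (fun z => - f z) := by
  filter_upwards [hf] with z h1 using h1.neg

lemma SmA.const {p : Cn n} {F : Type*} [NormedAddCommGroup F] [NormedSpace ℝ F] (c : F) :
    SmA p (fun _ : Cn n => c) := Eventually.of_forall fun _ => contDiffAt_const

lemma SmA.sum {p : Cn n} {ι : Type*} {s : Finset ι} {f : ι → Cn n → ℂ} (h : ∀ i ∈ s, SmA p (f i)) :
    SmA p (fun z => ∑ i ∈ s, f i z) := by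
  classical
  induction s using Finset.induction_on with
  | empty => simpa using SmA.const (p := p) (0 : ℂ)
  | insert a s ha ih =>
    simp only [Finset.sum_insert ha]
    exact (h a (Finset.mem_insert_self _ _)).add (ih fun b hb => h b (Finset.mem_insert_of_mem hb))

lemma SmA.conj {p : Cn n} {f : Cn n → ℂ} (hf : SmA p f) : SmA p (fun z => (starRingEnd ℂ) (f z)) := by
  filter_upwards [hf] with z h1
  exact (Complex.conjCLE.contDiff.contDiffAt).comp z h1

lemma SmA.inv {p : Cn n} {f : Cn n → ℂ} (hf : SmA p f) (h0 : f p ≠ 0) : SmA p (fun z => (f z)⁻¹) := by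
  have h1 : ContinuousAt f p := hf.self_of_nhds.continuousAt
  filter_upwards [hf, h1.eventually_ne h0] with z h1 h2 using h1.inv h2

lemma SmA.wdz {p : Cn n} {f : Cn n → ℂ} (hf : SmA p f) (j : Fin n) : SmA p (dz j f) := by
  have h1 : dz j f = fun z => (fderiv ℝ f z (Pi.single j 1) -
      Complex.I * fderiv ℝ f z (Pi.single j Complex.I)) * (1 / 2) := by
    funext z; simp only [FT.dz]; ring
  rw [h1]
  exact ((smA_fderiv_apply hf _).sub ((SmA.const _).mul (smA_fderiv_apply hf _))).mul (SmA.const _)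

lemma SmA.wdzb {p : Cn n} {f : Cn n → ℂ} (hf : SmA p f) (j : Fin n) : SmA p (dzb j f) := by
  have h1 : dzb j f = fun z => (fderiv ℝ f z (Pi.single j 1) +
      Complex.I * fderiv ℝ f z (Pi.single j Complex.I)) * (1 / 2) := by
    funext z; simp only [FT.dzb]; ring
  rw [h1]
  exact ((smA_fderiv_apply hf _).add ((SmA.const _).mul (smA_fderiv_apply hf _))).mul (SmA.const _)

lemma SmA.vact {p : Cn n} {X : VF n} (hX : X.Smo p) {f : Cn n → ℂ} (hf : SmA p f) : SmA p (X.act f) :=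
  SmA.sum fun j _ => ((smA_comp_apply hX.1 j).mul (hf.wdz j)).add
    ((smA_comp_apply hX.2 j).mul (hf.wdzb j))

lemma VF.Smo.br {p : Cn n} {X Y : VF n} (hX : X.Smo p) (hY : Y.Smo p) : (X.br Y).Smo p :=
  ⟨smA_of_apply fun j => (SmA.vact hX (smA_comp_apply hY.1 j)).sub (SmA.vact hY (smA_comp_apply hX.1 j)),
    smA_of_apply fun j => (SmA.vact hX (smA_comp_apply hY.2 j)).sub
      (SmA.vact hY (smA_comp_apply hX.2 j))⟩

lemma smΦ_apply (hΦ : Sm x0 Φ) (j : Fin n) : Sm x0 (fun y => Φ y j) := by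
  filter_upwards [hΦ] with x hx
  exact (contDiffAt_pi.1 hx) j

lemma Frel.br {X Y : VF n} {X' Y' : CVF d} (hX : Frel Φ x0 X X') (hY : Frel Φ x0 Y Y') (hΦ : Sm x0 Φ)
    (sX : X.Smo (Φ x0)) (sY : Y.Smo (Φ x0)) (sX' : Sm x0 X') (sY' : Sm x0 Y') :
    Frel Φ x0 (X.br Y) (lieBr X' Y') := by
  have dX := eventually_all.2 fun i => (sX'.comp_apply i).differentiableAt
  have dY := eventually_all.2 fun i => (sY'.comp_apply i).differentiableAt
  have c1 : ∀ j, (fun x => X.act (fun w => Y.a w j) (Φ x)) =ᶠ[𝓝 x0]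
      DAng.act X' (DAng.act Y' (fun y => Φ y j)) := fun j =>
    (hX.act hΦ (smA_comp_apply sY.1 j)).trans (act_congr EventuallyEq.rfl (by
      filter_upwards [hY] with x hx using hx.1 j))
  have c2 : ∀ j, (fun x => Y.act (fun w => X.a w j) (Φ x)) =ᶠ[𝓝 x0]
      DAng.act Y' (DAng.act X' (fun y => Φ y j)) := fun j =>
    (hY.act hΦ (smA_comp_apply sX.1 j)).trans (act_congr EventuallyEq.rfl (by
      filter_upwards [hX] with x hx using hx.1 j))
  have c3 : ∀ j, (fun x => X.act (fun w => Y.b w j) (Φ x)) =ᶠ[𝓝 x0]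
      DAng.act X' (DAng.act Y' (fun y => (starRingEnd ℂ) (Φ y j))) := fun j =>
    (hX.act hΦ (smA_comp_apply sY.2 j)).trans (act_congr EventuallyEq.rfl (by
      filter_upwards [hY] with x hx using hx.2 j))
  have c4 : ∀ j, (fun x => Y.act (fun w => X.b w j) (Φ x)) =ᶠ[𝓝 x0]
      DAng.act Y' (DAng.act X' (fun y => (starRingEnd ℂ) (Φ y j))) := fun j =>
    (hY.act hΦ (smA_comp_apply sX.2 j)).trans (act_congr EventuallyEq.rfl (by
      filter_upwards [hX] with x hx using hx.2 j))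
  filter_upwards [dX, dY, hΦ, eventually_all.2 c1, eventually_all.2 c2, eventually_all.2 c3,
    eventually_all.2 c4] with x h1 h2 h3 h4 h5 h6 h7
  refine ⟨fun j => ?_, fun j => ?_⟩
  · have h8 : ContDiffAt ℝ ∞ (fun y => Φ y j) x := (contDiffAt_pi.1 h3) j
    rw [act_lieBr h1 h2 h8]
    show X.act (fun w => Y.a w j) (Φ x) - Y.act (fun w => X.a w j) (Φ x) = _
    rw [h4, h5]
  · have h8 : ContDiffAt ℝ ∞ (fun y => (starRingEnd ℂ) (Φ y j)) x :=
      (Complex.conjCLE.contDiff.contDiffAt).comp x ((contDiffAt_pi.1 h3) j)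
    rw [act_lieBr h1 h2 h8]
    show X.act (fun w => Y.b w j) (Φ x) - Y.act (fun w => X.b w j) (Φ x) = _
    rw [h6, h7]

/-- the conjugate field -/
noncomputable def VF.cj (X : VF n) : VF n :=
  ⟨fun z j => (starRingEnd ℂ) (X.b z j), fun z j => (starRingEnd ℂ) (X.a z j)⟩

lemma Frel.cj {X : VF n} {X' : CVF d} (h : Frel Φ x0 X X') (hΦ : Sm x0 Φ) :
    Frel Φ x0 X.cj (cjVF X') := by
  filter_upwards [h, eventually_all.2 fun j => (smΦ_apply hΦ j).differentiableAt,
    eventually_all.2 fun j => (smΦ_apply hΦ j).conj.differentiableAt] with x hx hd hd2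
  refine ⟨fun j => ?_, fun j => ?_⟩
  · show (starRingEnd ℂ) (X.b (Φ x) j) = _
    rw [hx.2 j]
    have h1 := act_conj (X := cjVF X') (hd2 j)
    simp only [EmbAux.ea_cj_cj, Complex.conj_conj] at h1
    rw [h1]
  · show (starRingEnd ℂ) (X.a (Φ x) j) = _
    rw [hx.1 j]
    have h1 := act_conj (X := cjVF X') (hd j)
    simp only [EmbAux.ea_cj_cj] at h1
    rw [h1]

end Pool.Agent.W737.Sub.FT
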