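import Pool.Agent.W737.Sub.Amb1

/-! Existence of a parametrisation of the hypersurface. -/

set_option autoImplicit false

open scoped ContDiff Topology BigOperators
open Finset Filter DAng

namespace Pool.Agent.W737.Sub.FT

/-- a parametrisation of `{ρ = 0}` near `Φ x0`, inverse to the linear map `π` -/
structure IsChart {n d : ℕ} (ρ : Cn n → ℝ) (π : Cn n →L[ℝ] E d) (Φ : E d → Cn n) (x0 : E d) :
    Prop where
  sm : Sm x0 Φ
  zero : ∀ᶠ x in 𝓝 x0, ρ (Φ x) = 0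
  inv : ∀ᶠ x in 𝓝 x0, π (Φ x) = x
  dec : ∀ᶠ x in 𝓝 x0, ∃ w : Cn n, ∀ v, v = fderiv ℝ Φ x (π v) + (fderiv ℝ ρ (Φ x) v) • w

lemma exists_decomp {k : ℕ} {ℓ : Cn (k + 1) →L[ℝ] ℝ} (hℓ : ℓ ≠ 0) :
    ∃ (π : Cn (k + 1) →L[ℝ] E (2 * k + 1)) (e : Cn (k + 1) ≃L[ℝ] (E (2 * k + 1) × ℝ)),
      ∀ v, e v = (π v, ℓ v) := by
  classical
  obtain ⟨u, hu⟩ : ∃ u, ℓ u = 1 := by
    obtain ⟨u0, hu0⟩ : ∃ u0, ℓ u0 ≠ 0 := by
      by_contra h
      push Not at h
      exact hℓ (ContinuousLinearMap.ext h)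
    exact ⟨(ℓ u0)⁻¹ • u0, by rw [map_smul, smul_eq_mul, inv_mul_cancel₀ hu0]⟩
  let ℓl : Cn (k + 1) →ₗ[ℝ] ℝ := ℓ
  have hsurj : LinearMap.range ℓl = ⊤ := by
    rw [LinearMap.range_eq_top]
    intro t
    exact ⟨t • u, by show ℓ (t • u) = t; rw [map_smul, hu, smul_eq_mul, mul_one]⟩
  have hrank : Module.finrank ℝ (LinearMap.ker ℓl) = 2 * k + 1 := by
    have h1 := LinearMap.finrank_range_add_finrank_ker ℓl
    rw [hsurj, finrank_top] at h1
    have h2 : Module.finrank ℝ (Cn (k + 1)) = 2 * (k + 1) := by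
      rw [Module.finrank_pi_fintype]
      simp [Complex.finrank_real_complex]
      ring
    have h3 : Module.finrank ℝ ℝ = 1 := Module.finrank_self ℝ
    omega
  have hrank' : Module.finrank ℝ (LinearMap.ker ℓl) = Module.finrank ℝ (E (2 * k + 1)) := by
    rw [hrank]; simp
  let g : LinearMap.ker ℓl ≃ₗ[ℝ] E (2 * k + 1) := LinearEquiv.ofFinrankEq _ _ hrank'
  have hmem : ∀ v : Cn (k + 1), v - ℓ v • u ∈ LinearMap.ker ℓl := by
    intro v
    rw [LinearMap.mem_ker]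
    show ℓ (v - ℓ v • u) = 0
    rw [map_sub, map_smul, hu, smul_eq_mul, mul_one, sub_self]
  let P : Cn (k + 1) →ₗ[ℝ] LinearMap.ker ℓl :=
    LinearMap.codRestrict (LinearMap.ker ℓl) (LinearMap.id - ℓl.smulRight u) hmem
  have hP : ∀ v, ((P v : LinearMap.ker ℓl) : Cn (k + 1)) = v - ℓ v • u := fun v => rfl
  let πl : Cn (k + 1) →ₗ[ℝ] E (2 * k + 1) := g.toLinearMap.comp P
  let inv : (E (2 * k + 1) × ℝ) → Cn (k + 1) := fun q => ((g.symm q.1 : LinearMap.ker ℓl) : Cn (k + 1)) + q.2 • u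
  have hker : ∀ q : LinearMap.ker ℓl, ℓ (q : Cn (k + 1)) = 0 := fun q => q.2
  let e : Cn (k + 1) ≃ₗ[ℝ] (E (2 * k + 1) × ℝ) :=
    { toFun := fun v => (πl v, ℓ v)
      map_add' := by intro v w; simp [map_add]
      map_smul' := by intro c v; simp [map_smul]
      invFun := inv
      left_inv := by
        intro v
        show ((g.symm (g (P v)) : LinearMap.ker ℓl) : Cn (k + 1)) + ℓ v • u = v
        rw [g.symm_apply_apply, hP]
        abel
      right_inv := by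
        rintro ⟨y, t⟩
        have h1 : ℓ (inv (y, t)) = t := by
          show ℓ (((g.symm y : LinearMap.ker ℓl) : Cn (k + 1)) + t • u) = t
          rw [map_add, hker, map_smul, hu, smul_eq_mul, mul_one, zero_add]
        have h2 : P (inv (y, t)) = g.symm y := by
          apply Subtype.ext
          rw [hP, h1]
          show ((g.symm y : LinearMap.ker ℓl) : Cn (k + 1)) + t • u - t • u = _
          abel
        show (g (P (inv (y, t))), ℓ (inv (y, t))) = (y, t)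
        rw [h1, h2, g.apply_symm_apply] }
  exact ⟨LinearMap.toContinuousLinearMap πl, e.toContinuousLinearEquiv, fun v => rfl⟩

theorem exists_chart {k : ℕ} {ρ : Cn (k + 1) → ℝ} {p : Cn (k + 1)} (hρ : SmA p ρ) (h0 : ρ p = 0)
    (hd : fderiv ℝ ρ p ≠ 0) :
    ∃ (π : Cn (k + 1) →L[ℝ] E (2 * k + 1)) (Φ : E (2 * k + 1) → Cn (k + 1)) (x0 : E (2 * k + 1)),
      Φ x0 = p ∧ IsChart ρ π Φ x0 := by
  classical
  obtain ⟨π, e0, he0⟩ := exists_decomp hd
  let Ψ : Cn (k + 1) → E (2 * k + 1) × ℝ := fun z => (π z, ρ z)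
  have hΨs : ∀ᶠ z in 𝓝 p, ContDiffAt ℝ ∞ Ψ z := by
    filter_upwards [hρ] with z hz
    exact π.contDiff.contDiffAt.prodMk hz
  have hΨd : ∀ᶠ z in 𝓝 p, HasFDerivAt Ψ (π.prod (fderiv ℝ ρ z)) z := by
    filter_upwards [hρ.differentiableAt] with z hz
    exact π.hasFDerivAt.prodMk hz.hasFDerivAt
  have he0' : (e0 : Cn (k + 1) →L[ℝ] E (2 * k + 1) × ℝ) = π.prod (fderiv ℝ ρ p) := by
    ext1 v
    exact he0 v
  have hcont : ContinuousAt (fun z => π.prod (fderiv ℝ ρ z)) p := by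
    have h1 : ContDiffAt ℝ ∞ (fderiv ℝ ρ) p := hρ.self_of_nhds.fderiv_right (by simp)
    have h2 : ContinuousAt (fderiv ℝ ρ) p := h1.continuousAt
    have h4 : (fun z => π.prod (fderiv ℝ ρ z)) =
        fun z => (ContinuousLinearMap.inl ℝ (E (2 * k + 1)) ℝ).comp π +
          (ContinuousLinearMap.inr ℝ (E (2 * k + 1)) ℝ).comp (fderiv ℝ ρ z) := by
      funext z
      ext v <;> simp
    rw [h4]
    exact continuousAt_const.add (continuousAt_const.clm_comp h2)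
  have hinv : ∀ᶠ z in 𝓝 p, ∃ f' : Cn (k + 1) ≃L[ℝ] (E (2 * k + 1) × ℝ),
      (f' : Cn (k + 1) →L[ℝ] E (2 * k + 1) × ℝ) = π.prod (fderiv ℝ ρ z) := by
    have h1 := ContinuousLinearEquiv.nhds e0
    rw [he0'] at h1
    exact hcont.eventually h1
  have hstr : HasStrictFDerivAt Ψ (e0 : Cn (k + 1) →L[ℝ] E (2 * k + 1) × ℝ) p := by
    rw [he0']
    have h1 := hΨs.self_of_nhds.hasStrictFDerivAt (by simp)
    rwa [hΨd.self_of_nhds.fderiv] at h1
  let e := hstr.toOpenPartialHomeomorph Ψ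
  have hecoe : (e : Cn (k + 1) → E (2 * k + 1) × ℝ) = Ψ := hstr.toOpenPartialHomeomorph_coe
  have hps : p ∈ e.source := hstr.mem_toOpenPartialHomeomorph_source
  let x0 : E (2 * k + 1) := π p
  have hΨp : Ψ p = (x0, (0 : ℝ)) := by
    show (π p, ρ p) = (π p, 0)
    rw [h0]
  have hpt : (x0, (0 : ℝ)) ∈ e.target := by
    rw [← hΨp, ← hecoe]
    exact e.map_source hps
  have hsymp : e.symm (x0, (0 : ℝ)) = p := by
    rw [← hΨp, ← hecoe]
    exact e.left_inv hps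
  have htend : Tendsto (fun x : E (2 * k + 1) => (x, (0 : ℝ))) (𝓝 x0) (𝓝 (x0, (0 : ℝ))) :=
    (continuous_id.prodMk continuous_const).tendsto x0
  have hsymc : Tendsto (fun x : E (2 * k + 1) => e.symm (x, (0 : ℝ))) (𝓝 x0) (𝓝 p) := by
    have h1 := (e.continuousAt_symm hpt).tendsto
    rw [hsymp] at h1
    exact h1.comp htend
  have htgt : ∀ᶠ x in 𝓝 x0, (x, (0 : ℝ)) ∈ e.target :=
    htend.eventually (e.open_target.mem_nhds hpt)
  let Φ : E (2 * k + 1) → Cn (k + 1) := fun x => e.symm (x, (0 : ℝ))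
  have hright : ∀ᶠ x in 𝓝 x0, Ψ (Φ x) = (x, (0 : ℝ)) := by
    filter_upwards [htgt] with x hx
    have := e.right_inv hx
    rw [hecoe] at this
    exact this
  have hsm : Sm x0 Φ := by
    filter_upwards [htgt, hsymc.eventually hinv, hsymc.eventually hΨs, hsymc.eventually hΨd]
      with x h1 h2 h3 h4
    obtain ⟨f', hf'⟩ := h2
    have h5 : ContDiffAt ℝ ∞ e.symm (x, (0 : ℝ)) := by
      refine e.contDiffAt_symm (f₀' := f') h1 ?_ ?_
      · rw [hecoe, hf']; exact h4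
      · rw [hecoe]; exact h3
    exact h5.comp x ((contDiff_id.prodMk contDiff_const).contDiffAt)
  refine ⟨π, Φ, x0, hsymp, hsm, ?_, ?_, ?_⟩
  · filter_upwards [hright] with x hx
    exact congrArg Prod.snd hx
  · filter_upwards [hright] with x hx
    exact congrArg Prod.fst hx
  · filter_upwards [eventually_eventually_nhds.2 hright, hsm.differentiableAt,
      hsymc.eventually hinv, hsymc.eventually hΨd] with x h1 h2 h3 h4
    obtain ⟨f', hf'⟩ := h3
    have hf'v : ∀ v, f' v = (π v, fderiv ℝ ρ (Φ x) v) := by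
      intro v
      have := congrArg (fun g : Cn (k + 1) →L[ℝ] E (2 * k + 1) × ℝ => g v) hf'
      exact this
    have h5 : HasFDerivAt (fun x => Ψ (Φ x)) ((π.prod (fderiv ℝ ρ (Φ x))).comp (fderiv ℝ Φ x)) x :=
      h4.comp x h2.hasFDerivAt
    have h6 : HasFDerivAt (fun x => Ψ (Φ x)) (ContinuousLinearMap.inl ℝ (E (2 * k + 1)) ℝ) x := by
      have h7 : HasFDerivAt (fun x : E (2 * k + 1) => (x, (0 : ℝ)))
          (ContinuousLinearMap.inl ℝ (E (2 * k + 1)) ℝ) x :=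
        (ContinuousLinearMap.inl ℝ (E (2 * k + 1)) ℝ).hasFDerivAt
      exact h7.congr_of_eventuallyEq h1
    have h8 := h5.unique h6
    refine ⟨f'.symm (0, 1), fun v => ?_⟩
    apply f'.injective
    rw [map_add, map_smul, f'.apply_symm_apply, hf'v, hf'v]
    have h9 : (π (fderiv ℝ Φ x (π v)), fderiv ℝ ρ (Φ x) (fderiv ℝ Φ x (π v))) = (π v, (0 : ℝ)) := by
      have := congrArg (fun g : E (2 * k + 1) →L[ℝ] E (2 * k + 1) × ℝ => g (π v)) h8
      exact this
    rw [h9]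
    simp

end Pool.Agent.W737.Sub.FT
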