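import Pool.Agent.W737.Sub.Amb2

/-! Lifts of tangent fields to the chart; the induced CR structure. -/

set_option autoImplicit false

open scoped ContDiff Topology BigOperators
open Finset Filter DAng

namespace Pool.Agent.W737.Sub.FT

variable {n d : ℕ}

/-- `(π v)_i` as a complex valued map -/
noncomputable def pc (π : Cn n →L[ℝ] E d) (i : Fin d) : Cn n →L[ℝ] ℂ :=
  Complex.ofRealCLM.comp ((ContinuousLinearMap.proj i).comp π)

lemma pc_apply (π : Cn n →L[ℝ] E d) (i : Fin d) (v : Cn n) : pc π i v = ((π v i : ℝ) : ℂ) := rfl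

/-- coefficients of the lift of the vector `(a, b)` -/
noncomputable def liftv (π : Cn n →L[ℝ] E d) (a b : Cn n) : Fin d → ℂ := fun i => cx a b (pc π i)

/-- the lift of a field -/
noncomputable def lift (π : Cn n →L[ℝ] E d) (Φ : E d → Cn n) (X : VF n) : CVF d :=
  fun x => liftv π (X.a (Φ x)) (X.b (Φ x))

/-- the differential of `ρ`, complex valued -/
noncomputable def dρc (ρ : Cn n → ℝ) (z : Cn n) : Cn n →L[ℝ] ℂ :=
  Complex.ofRealCLM.comp (fderiv ℝ ρ z)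

lemma cx_proj (a b : Cn n) (j : Fin n) (ℓ : Cn n →L[ℝ] ℂ) (h : ∀ v, ℓ v = v j) : cx a b ℓ = a j := by
  simp only [cx, h]
  rw [Finset.sum_eq_single j]
  · simp only [Pi.single_eq_same]
    have := Complex.I_mul_I
    linear_combination ((b j - a j) / 2) * this
  · intro k _ hk
    simp [Pi.single_eq_of_ne (Ne.symm hk)]
  · intro h; exact absurd (Finset.mem_univ _) h

lemma cx_conjproj (a b : Cn n) (j : Fin n) (ℓ : Cn n →L[ℝ] ℂ)
    (h : ∀ v, ℓ v = (starRingEnd ℂ) (v j)) : cx a b ℓ = b j := by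
  simp only [cx, h]
  rw [Finset.sum_eq_single j]
  · simp only [Pi.single_eq_same, map_one, Complex.conj_I]
    have := Complex.I_mul_I
    linear_combination ((a j - b j) / 2) * this
  · intro k _ hk
    simp [Pi.single_eq_of_ne (Ne.symm hk)]
  · intro h; exact absurd (Finset.mem_univ _) h

lemma cx_conj (a b : Cn n) (ℓ : Cn n →L[ℝ] ℂ) (h : ∀ v, (starRingEnd ℂ) (ℓ v) = ℓ v) :
    (starRingEnd ℂ) (cx a b ℓ) =
      cx (fun j => (starRingEnd ℂ) (b j)) (fun j => (starRingEnd ℂ) (a j)) ℓ := by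
  have h2 : (starRingEnd ℂ) (2 : ℂ) = 2 := map_ofNat _ 2
  simp only [cx, map_sum, map_add, map_mul, map_sub, map_div₀, h, Complex.conj_I, h2]
  refine Finset.sum_congr rfl fun j _ => ?_
  ring

lemma lift_cj (π : Cn n →L[ℝ] E d) (Φ : E d → Cn n) (X : VF n) :
    cjVF (lift π Φ X) = lift π Φ X.cj := by
  funext x i
  exact cx_conj _ _ _ fun v => by rw [pc_apply, Complex.conj_ofReal]

variable {ρ : Cn n → ℝ} {π : Cn n →L[ℝ] E d} {Φ : E d → Cn n} {x0 : E d}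

lemma pd_Φ {x : E d} (hΦ : DifferentiableAt ℝ Φ x) (i : Fin d) (j : Fin n) :
    pd i (fun y => Φ y j) x = fderiv ℝ Φ x (Pi.single i 1) j := by
  have : HasFDerivAt (fun y => Φ y j) ((ContinuousLinearMap.proj j).comp (fderiv ℝ Φ x)) x :=
    (hasFDerivAt_pi'.1 hΦ.hasFDerivAt) j
  simp only [pd]
  rw [this.fderiv]
  rfl

lemma pd_Φc {x : E d} (hΦ : DifferentiableAt ℝ Φ x) (i : Fin d) (j : Fin n) :
    pd i (fun y => (starRingEnd ℂ) (Φ y j)) x = (starRingEnd ℂ) (fderiv ℝ Φ x (Pi.single i 1) j) := by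
  have h4 : DifferentiableAt ℝ (fun y => Φ y j) x := by
    exact ((hasFDerivAt_pi'.1 hΦ.hasFDerivAt) j).differentiableAt
  rw [pd_conj h4, pd_Φ hΦ]

lemma decomp_cx (hc : IsChart ρ π Φ x0) : ∀ᶠ x in 𝓝 x0, ∀ (a b : Cn n),
    cx a b (dρc ρ (Φ x)) = 0 → ∀ ℓ : Cn n →L[ℝ] ℂ,
      cx a b ℓ = ∑ i, liftv π a b i * ℓ (fderiv ℝ Φ x (Pi.single i 1)) := by
  filter_upwards [hc.dec] with x ⟨w, hw⟩ a b ht ℓ
  have h1 : ℓ = ∑ i, ℓ (fderiv ℝ Φ x (Pi.single i 1)) • pc π i + ℓ w • dρc ρ (Φ x) := by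
    ext v
    rw [ContinuousLinearMap.add_apply, ContinuousLinearMap.sum_apply]
    simp only [ContinuousLinearMap.smul_apply, smul_eq_mul, pc_apply, dρc,
      ContinuousLinearMap.comp_apply, Complex.ofRealCLM_apply]
    conv_lhs => rw [hw v, map_add, map_smul]
    have h2 : π v = ∑ i, (π v i) • (Pi.single i (1 : ℝ) : E d) := by
      funext k
      simp [Finset.sum_apply, Pi.single_apply]
    conv_lhs => rw [h2, map_sum, map_sum]
    simp only [map_smul, Complex.real_smul]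
    rw [mul_comm (ℓ w)]
    congr 1
    exact Finset.sum_congr rfl fun i _ => mul_comm _ _
  conv_lhs => rw [h1, cx_add, cx_smul, ht, mul_zero, add_zero, cx_sum]
  refine Finset.sum_congr rfl fun i _ => ?_
  rw [cx_smul, mul_comm]
  rfl

lemma lift_rel (hc : IsChart ρ π Φ x0) {X : VF n}
    (ht : ∀ᶠ x in 𝓝 x0, cx (X.a (Φ x)) (X.b (Φ x)) (dρc ρ (Φ x)) = 0) :
    Frel Φ x0 X (lift π Φ X) := by
  filter_upwards [ht, decomp_cx hc, hc.sm.differentiableAt] with x h1 h2 h3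
  refine ⟨fun j => ?_, fun j => ?_⟩
  · have h4 := h2 _ _ h1 ((ContinuousLinearMap.proj j : Cn n →L[ℝ] ℂ))
    rw [cx_proj _ _ j _ (fun v => rfl)] at h4
    rw [h4]
    simp only [act, pd_Φ h3]
    rfl
  · have h4 := h2 _ _ h1 ((Complex.conjCLE : ℂ →L[ℝ] ℂ).comp (ContinuousLinearMap.proj j : Cn n →L[ℝ] ℂ))
    rw [cx_conjproj _ _ j _ (fun v => rfl)] at h4
    rw [h4]
    simp only [act, pd_Φc h3]
    rfl

lemma sm_lift (hΦ : Sm x0 Φ) {X : VF n} (hX : X.Smo (Φ x0)) : Sm x0 (lift π Φ X) := by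
  have h1 : ∀ j, Sm x0 (fun x => X.a (Φ x) j) := fun j => smA_comp hΦ (smA_comp_apply hX.1 j)
  have h2 : ∀ j, Sm x0 (fun x => X.b (Φ x) j) := fun j => smA_comp hΦ (smA_comp_apply hX.2 j)
  refine Sm.of_apply fun i => ?_
  show Sm x0 (fun x => cx (X.a (Φ x)) (X.b (Φ x)) (pc π i))
  unfold cx
  exact Sm.sum fun j _ => ((h1 j).mul (Sm.const _)).add ((h2 j).mul (Sm.const _))

/-! ### the contact form -/

lemma fderiv_ofReal {z : Cn n} (h : DifferentiableAt ℝ ρ z) :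
    fderiv ℝ (fun w => (ρ w : ℂ)) z = dρc ρ z :=
  (Complex.ofRealCLM.hasFDerivAt.comp z h.hasFDerivAt).fderiv

lemma dzb_ρ {z : Cn n} (h : DifferentiableAt ℝ ρ z) (j : Fin n) :
    dzb j (fun w => (ρ w : ℂ)) z = (starRingEnd ℂ) (dz j (fun w => (ρ w : ℂ)) z) := by
  have h2 : (starRingEnd ℂ) (2 : ℂ) = 2 := map_ofNat _ 2
  simp only [dz, dzb, fderiv_ofReal h, map_div₀, map_sub, map_mul, Complex.conj_I, h2]
  have h3 : ∀ v, (starRingEnd ℂ) (dρc ρ z v) = dρc ρ z v := fun v => Complex.conj_ofReal _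
  rw [h3, h3]
  ring

/-- shorthand for `ρ_{z_j}` -/
noncomputable def rz (ρ : Cn n → ℝ) (j : Fin n) : Cn n → ℂ := dz j (fun w => (ρ w : ℂ))

lemma smA_ofReal {p : Cn n} (h : SmA p ρ) : SmA p (fun w => (ρ w : ℂ)) := by
  filter_upwards [h] with z hz
  exact (Complex.ofRealCLM.contDiff.contDiffAt).comp z hz

lemma smA_rz {p : Cn n} (h : SmA p ρ) (j : Fin n) : SmA p (rz ρ j) := SmA.wdz (smA_ofReal h) j

lemma cx_dρc {z : Cn n} (h : DifferentiableAt ℝ ρ z) (a b : Cn n) :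
    cx a b (dρc ρ z) = ∑ j, rz ρ j z * a j +
      (starRingEnd ℂ) (∑ j, rz ρ j z * (starRingEnd ℂ) (b j)) := by
  have h1 : cx a b (dρc ρ z) = ∑ j, (a j * rz ρ j z + b j * dzb j (fun w => (ρ w : ℂ)) z) := by
    rw [← fderiv_ofReal h]; rfl
  rw [h1, map_sum, ← Finset.sum_add_distrib]
  refine Finset.sum_congr rfl fun j _ => ?_
  rw [dzb_ρ h]
  simp only [map_mul, Complex.conj_conj]
  unfold rz
  ring

/-- `∑ ρ_{z_j} ∂_i Φ_j` -/
noncomputable def th (ρ : Cn n → ℝ) (Φ : E d → Cn n) (i : Fin d) : CF d := fun x =>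
  ∑ j, rz ρ j (Φ x) * pd i (fun y => Φ y j) x

/-- the real contact form -/
noncomputable def eta (ρ : Cn n → ℝ) (Φ : E d → Cn n) (σ : ℝ) : E d → Fin d → ℝ :=
  fun x i => σ * (th ρ Φ i x).im

lemma th_im (hc : IsChart ρ π Φ x0) (hρ : SmA (Φ x0) ρ) :
    ∀ᶠ x in 𝓝 x0, ∀ i, ((th ρ Φ i x).im : ℂ) = -Complex.I * th ρ Φ i x := by
  filter_upwards [eventually_eventually_nhds.2 hc.zero, hc.sm.differentiableAt,
    hc.sm.continuousAt.eventually hρ.differentiableAt] with x h1 h2 h3 i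
  have h4 : pd i (fun y => ((ρ (Φ y) : ℝ) : ℂ)) x = 0 := by
    have h5 : (fun y => ((ρ (Φ y) : ℝ) : ℂ)) =ᶠ[𝓝 x] fun _ => 0 := by
      filter_upwards [h1] with y hy
      rw [hy]; simp
    simp only [pd]
    rw [h5.fderiv_eq]
    simp
  have h5 : DifferentiableAt ℝ (fun w => (ρ w : ℂ)) (Φ x) :=
    (Complex.ofRealCLM.differentiableAt).comp _ h3
  have h6 : cx (fun j => pd i (fun y => Φ y j) x) (fun j => pd i (fun y => (starRingEnd ℂ) (Φ y j)) x)
      (dρc ρ (Φ x)) = 0 := by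
    have h7 := pd_comp (f := fun w => (ρ w : ℂ)) h5 h2 i
    rw [h4, fderiv_ofReal h3] at h7
    exact h7.symm
  rw [cx_dρc h3] at h6
  have h8 : ∀ j, (starRingEnd ℂ) (pd i (fun y => (starRingEnd ℂ) (Φ y j)) x) =
      pd i (fun y => Φ y j) x := by
    intro j
    rw [pd_Φc h2, pd_Φ h2, Complex.conj_conj]
  simp only [h8] at h6
  have h9 : th ρ Φ i x + (starRingEnd ℂ) (th ρ Φ i x) = 0 := h6
  have h10 : (th ρ Φ i x).re = 0 := by
    have h11 := congrArg Complex.re h9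
    simp at h11
    linarith
  have h11 := Complex.re_add_im (th ρ Φ i x)
  rw [h10] at h11
  have hI := Complex.I_mul_I
  conv_rhs => rw [← h11]
  push_cast
  linear_combination ((th ρ Φ i x).im : ℂ) * hI

lemma pair_eta (hc : IsChart ρ π Φ x0) (hρ : SmA (Φ x0) ρ) (σ : ℝ) {X : VF n} {X' : CVF d}
    (h : Frel Φ x0 X X') :
    pair (eta ρ Φ σ) X' =ᶠ[𝓝 x0] fun x => -Complex.I * σ * X.dpair ρ (Φ x) := by
  filter_upwards [th_im hc hρ, h] with x h1 h2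
  have h3 : X.dpair ρ (Φ x) = ∑ i, th ρ Φ i x * X' x i := by
    show ∑ j, rz ρ j (Φ x) * X.a (Φ x) j = _
    simp only [h2.1, act, th, Finset.mul_sum, Finset.sum_mul]
    rw [Finset.sum_comm]
    exact Finset.sum_congr rfl fun i _ => Finset.sum_congr rfl fun j _ => by ring
  rw [h3, Finset.mul_sum]
  simp only [pair, eta]
  refine Finset.sum_congr rfl fun i _ => ?_
  push_cast
  rw [h1 i]
  ring

/-! ### the Levi form in the chart -/

lemma vact_mul {X : VF n} {f g : Cn n → ℂ} {z : Cn n} (hf : DifferentiableAt ℝ f z)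
    (hg : DifferentiableAt ℝ g z) : X.act (fun z => f z * g z) z = X.act f z * g z + f z * X.act g z := by
  have h1 : fderiv ℝ (fun z => f z * g z) z = f z • fderiv ℝ g z + g z • fderiv ℝ f z :=
    fderiv_fun_mul hf hg
  rw [act_eq_cx, act_eq_cx, act_eq_cx, h1, cx_add, cx_smul, cx_smul]
  ring

lemma vact_sum {X : VF n} {ι : Type*} {s : Finset ι} {f : ι → Cn n → ℂ} {z : Cn n}
    (hf : ∀ i ∈ s, DifferentiableAt ℝ (f i) z) :
    X.act (fun z => ∑ i ∈ s, f i z) z = ∑ i ∈ s, X.act (f i) z := by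
  have h1 : fderiv ℝ (fun z => ∑ i ∈ s, f i z) z = ∑ i ∈ s, fderiv ℝ (f i) z := fderiv_fun_sum hf
  rw [act_eq_cx, h1, cx_sum]
  rfl

lemma vact_const (X : VF n) (c : ℂ) (z : Cn n) : X.act (fun _ => c) z = 0 := by
  rw [act_eq_cx]
  simp [cx]

lemma levi_pair (hc : IsChart ρ π Φ x0) (hρ : SmA (Φ x0) ρ) (σ : ℝ) {L L' : Cn n → Cn n}
    (hL : SmA (Φ x0) L) (hL' : SmA (Φ x0) L')
    (t : ∀ᶠ x in 𝓝 x0, ∑ j, rz ρ j (Φ x) * L (Φ x) j = 0)
    (t' : ∀ᶠ x in 𝓝 x0, ∑ j, rz ρ j (Φ x) * L' (Φ x) j = 0) :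
    pair (eta ρ Φ σ) (lieBr (lift π Φ ⟨L, 0⟩) (cjVF (lift π Φ ⟨L', 0⟩))) =ᶠ[𝓝 x0]
      fun x => -Complex.I * σ * leviForm ρ (Φ x) (L (Φ x)) (L' (Φ x)) := by
  have hρd := hc.sm.continuousAt.eventually hρ.differentiableAt
  have e1 : (⟨L', 0⟩ : VF n).cj = ⟨0, fun z j => (starRingEnd ℂ) (L' z j)⟩ := by
    simp only [VF.cj]
    congr 1
    funext z j
    simp
  set X : VF n := ⟨L, 0⟩ with hX
  set Y : VF n := ⟨0, fun z j => (starRingEnd ℂ) (L' z j)⟩ with hY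
  have sX : X.Smo (Φ x0) := ⟨hL, SmA.const 0⟩
  have sY : Y.Smo (Φ x0) := ⟨SmA.const 0, smA_of_apply fun j => (smA_comp_apply hL' j).conj⟩
  have rX : Frel Φ x0 X (lift π Φ X) := by
    refine lift_rel hc ?_
    filter_upwards [t, hρd] with x h1 h2
    rw [cx_dρc h2]
    simp [hX, h1]
  have rY : Frel Φ x0 Y (cjVF (lift π Φ ⟨L', 0⟩)) := by
    rw [lift_cj, e1]
    refine lift_rel hc ?_
    filter_upwards [t', hρd] with x h1 h2
    rw [cx_dρc h2]
    simp [hY, h1]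
  have s1 : Sm x0 (lift π Φ X) := sm_lift hc.sm sX
  have s2 : Sm x0 (cjVF (lift π Φ ⟨L', 0⟩)) := (sm_lift hc.sm (X := ⟨L', 0⟩) ⟨hL', SmA.const 0⟩).cjVF
  have h1 := pair_eta hc hρ σ (rX.br rY hc.sm sX sY s1 s2)
  -- the function g
  have hg : SmA (Φ x0) (fun z => ∑ j, rz ρ j z * L z j) :=
    SmA.sum fun j _ => (smA_rz hρ j).mul (smA_comp_apply hL j)
  have h2 := rY.act hc.sm hg
  have h3 : act (cjVF (lift π Φ ⟨L', 0⟩)) (fun y => ∑ j, rz ρ j (Φ y) * L (Φ y) j) =ᶠ[𝓝 x0]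
      act (cjVF (lift π Φ ⟨L', 0⟩)) (fun _ => 0) := act_congr EventuallyEq.rfl t
  have hd1 := hc.sm.continuousAt.eventually
    (eventually_all.2 fun j => (smA_rz hρ j).differentiableAt)
  have hd2 := hc.sm.continuousAt.eventually
    (eventually_all.2 fun j => (smA_comp_apply hL j).differentiableAt)
  filter_upwards [h1, h2, h3, hd1, hd2] with x h1 h2 h3 hd1 hd2
  rw [h1]
  congr 1
  rw [h3, act_const] at h2
  rw [vact_sum (f := fun j z => rz ρ j z * L z j) (fun j _ => (hd1 j).mul (hd2 j))] at h2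
  have h4 : ∀ j, Y.act (fun z => rz ρ j z * L z j) (Φ x) =
      Y.act (rz ρ j) (Φ x) * L (Φ x) j + rz ρ j (Φ x) * Y.act (fun z => L z j) (Φ x) := fun j =>
    vact_mul (hd1 j) (hd2 j)
  simp only [h4, Finset.sum_add_distrib] at h2
  have h5 : (X.br Y).dpair ρ (Φ x) = - ∑ j, rz ρ j (Φ x) * Y.act (fun z => L z j) (Φ x) := by
    show ∑ j, rz ρ j (Φ x) * (X.act (fun w => (0 : Cn n → Cn n) w j) (Φ x) -
      Y.act (fun w => L w j) (Φ x)) = _
    have : ∀ j : Fin n, X.act (fun w => (0 : Cn n → Cn n) w j) (Φ x) = 0 := fun j =>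
      vact_const X 0 _
    simp only [this, zero_sub, mul_neg, Finset.sum_neg_distrib]
  have h6 : ∀ j, Y.act (rz ρ j) (Φ x) = ∑ l, (starRingEnd ℂ) (L' (Φ x) l) * dzb l (rz ρ j) (Φ x) := by
    intro j
    show ∑ l, ((0 : ℂ) * dz l (rz ρ j) (Φ x) + (starRingEnd ℂ) (L' (Φ x) l) * dzb l (rz ρ j) (Φ x)) = _
    simp
  rw [h5]
  have h7 : leviForm ρ (Φ x) (L (Φ x)) (L' (Φ x)) = ∑ j, Y.act (rz ρ j) (Φ x) * L (Φ x) j := by
    simp only [h6, leviForm, Finset.sum_mul]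
    exact Finset.sum_congr rfl fun j _ => Finset.sum_congr rfl fun l _ => by
      unfold rz; ring
  rw [h7]
  linear_combination -h2

end Pool.Agent.W737.Sub.FT
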