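import Pool.Agent.W737.Sub.Amb3

/-! The CR structure of the hypersurface in the chart. -/

set_option autoImplicit false

open scoped ContDiff Topology BigOperators
open Finset Filter DAng

namespace Pool.Agent.W737.Sub.FT

variable {k : ℕ}

/-- the standard frame of `T^{1,0}M` where `ρ_{z_l} ≠ 0` -/
noncomputable def Kf (ρ : Cn (k + 1) → ℝ) (l : Fin (k + 1)) (j : Fin k) : Cn (k + 1) → Cn (k + 1) :=
  fun z i => if i = l.succAbove j then 1 else if i = l then -(rz ρ (l.succAbove j) z * (rz ρ l z)⁻¹) else 0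

lemma Kf_l (ρ : Cn (k + 1) → ℝ) (l : Fin (k + 1)) (j : Fin k) (z : Cn (k + 1)) :
    Kf ρ l j z l = -(rz ρ (l.succAbove j) z * (rz ρ l z)⁻¹) := by
  have : l ≠ l.succAbove j := (Fin.succAbove_ne l j).symm
  simp [Kf, this]

lemma Kf_s (ρ : Cn (k + 1) → ℝ) (l : Fin (k + 1)) (j j' : Fin k) (z : Cn (k + 1)) :
    Kf ρ l j z (l.succAbove j') = if j' = j then 1 else 0 := by
  have h1 : l.succAbove j' ≠ l := Fin.succAbove_ne l j'
  simp only [Kf, h1, if_false, Fin.succAbove_right_inj]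

lemma Kf_tan (ρ : Cn (k + 1) → ℝ) {l : Fin (k + 1)} (j : Fin k) {z : Cn (k + 1)}
    (hl : rz ρ l z ≠ 0) : ∑ i, rz ρ i z * Kf ρ l j z i = 0 := by
  rw [Fin.sum_univ_succAbove _ l, Kf_l]
  simp only [Kf_s]
  rw [Finset.sum_eq_single j]
  · field_simp
    simp
  · intro b _ hb; simp [hb]
  · intro h; exact absurd (Finset.mem_univ _) h

lemma smA_Kf {p : Cn (k + 1)} {ρ : Cn (k + 1) → ℝ} (hρ : SmA p ρ) {l : Fin (k + 1)}
    (hl : rz ρ l p ≠ 0) (j : Fin k) : SmA p (Kf ρ l j) := by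
  refine smA_of_apply fun i => ?_
  by_cases h1 : i = l.succAbove j
  · simp only [Kf, h1, if_true]; exact SmA.const _
  · by_cases h2 : i = l
    · simp only [Kf, h1, h2, if_false, if_true]
      have : l ≠ l.succAbove j := (Fin.succAbove_ne l j).symm
      simp only [this, if_false]
      exact ((smA_rz hρ _).mul ((smA_rz hρ l).inv hl)).neg
    · simp only [Kf, h1, h2, if_false]; exact SmA.const _

lemma T10_eq {ρ : Cn (k + 1) → ℝ} {l : Fin (k + 1)} {z v : Cn (k + 1)}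
    (hl : rz ρ l z ≠ 0) (hv : ∑ i, rz ρ i z * v i = 0) :
    v = ∑ j, v (l.succAbove j) • Kf ρ l j z := by
  rw [Fin.sum_univ_succAbove _ l] at hv
  funext i
  rw [Finset.sum_apply]
  simp only [Pi.smul_apply, smul_eq_mul]
  refine Fin.succAboveCases l ?_ (fun j' => ?_) i
  · simp only [Kf_l]
    have h1 : v l = -(∑ j, rz ρ (l.succAbove j) z * v (l.succAbove j)) * (rz ρ l z)⁻¹ := by
      have : rz ρ l z * v l = -(∑ j, rz ρ (l.succAbove j) z * v (l.succAbove j)) := by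
        linear_combination hv
      rw [← this]; field_simp
    rw [h1, neg_mul, Finset.sum_mul, ← Finset.sum_neg_distrib]
    exact Finset.sum_congr rfl fun j _ => by ring
  · simp only [Kf_s]
    rw [Finset.sum_eq_single j']
    · simp
    · intro b _ hb; simp [Ne.symm hb]
    · intro h; exact absurd (Finset.mem_univ _) h

section
variable {ρ : Cn (k + 1) → ℝ} {π : Cn (k + 1) →L[ℝ] E (2 * k + 1)} {Φ : E (2 * k + 1) → Cn (k + 1)}
  {x0 : E (2 * k + 1)} {l : Fin (k + 1)} {σ : ℝ}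

lemma ev_rz (hc : IsChart ρ π Φ x0) (hρ : SmA (Φ x0) ρ) (hl : rz ρ l (Φ x0) ≠ 0) :
    ∀ᶠ x in 𝓝 x0, rz ρ l (Φ x) ≠ 0 :=
  hc.sm.continuousAt.eventually
    ((smA_rz hρ l).self_of_nhds.continuousAt.eventually_ne hl)

lemma rel10 (hc : IsChart ρ π Φ x0) (hρ : SmA (Φ x0) ρ) {L : Cn (k + 1) → Cn (k + 1)}
    (t : ∀ᶠ x in 𝓝 x0, ∑ j, rz ρ j (Φ x) * L (Φ x) j = 0) :
    Frel Φ x0 ⟨L, 0⟩ (lift π Φ ⟨L, 0⟩) := by
  refine lift_rel hc ?_
  filter_upwards [t, hc.sm.continuousAt.eventually hρ.differentiableAt] with x h1 h2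
  rw [cx_dρc h2]
  simp [h1]

lemma tanK (hc : IsChart ρ π Φ x0) (hρ : SmA (Φ x0) ρ) (hl : rz ρ l (Φ x0) ≠ 0) (j : Fin k) :
    ∀ᶠ x in 𝓝 x0, ∑ i, rz ρ i (Φ x) * Kf ρ l j (Φ x) i = 0 := by
  filter_upwards [ev_rz hc hρ hl] with x hx
  exact Kf_tan ρ j hx

lemma relK (hc : IsChart ρ π Φ x0) (hρ : SmA (Φ x0) ρ) (hl : rz ρ l (Φ x0) ≠ 0) (j : Fin k) :
    Frel Φ x0 ⟨Kf ρ l j, 0⟩ (lift π Φ ⟨Kf ρ l j, 0⟩) := rel10 hc hρ (tanK hc hρ hl j)

/-- independence transfers -/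
lemma indep_of_rel {s : ℕ} {L : Fin s → Cn (k + 1) → Cn (k + 1)} {L' : Fin s → CVF (2 * k + 1)}
    (hΦ : Sm x0 Φ) (h : ∀ j, Frel Φ x0 ⟨L j, 0⟩ (L' j))
    (hind : LinearIndependent ℂ (fun j => L j (Φ x0))) :
    LinearIndependent ℂ (Sum.elim (fun j => L' j x0) (fun j => cjVF (L' j) x0)) := by
  rw [Fintype.linearIndependent_iff] at hind ⊢
  intro g hg
  rw [Fintype.sum_sum_type] at hg
  simp only [Sum.elim_inl, Sum.elim_inr] at hg
  have hg' : ∀ i, ∑ j, g (Sum.inl j) * L' j x0 i + ∑ j, g (Sum.inr j) * cjVF (L' j) x0 i = 0 := by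
    intro i
    have := congrFun hg i
    simpa only [Pi.add_apply, Finset.sum_apply, Pi.smul_apply, smul_eq_mul, Pi.zero_apply] using this
  have hact : ∀ f : CF (2 * k + 1), ∑ j, g (Sum.inl j) * act (L' j) f x0 +
      ∑ j, g (Sum.inr j) * act (cjVF (L' j)) f x0 = 0 := by
    intro f
    have h1 : ∑ i, (∑ j, g (Sum.inl j) * L' j x0 i + ∑ j, g (Sum.inr j) * cjVF (L' j) x0 i) *
        pd i f x0 = 0 := by
      refine Finset.sum_eq_zero fun i _ => ?_
      rw [hg' i, zero_mul]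
    rw [← h1]
    simp only [act, add_mul, Finset.sum_add_distrib, Finset.mul_sum, Finset.sum_mul]
    congr 1
    · rw [Finset.sum_comm]
      exact Finset.sum_congr rfl fun i _ => Finset.sum_congr rfl fun j _ => by ring
    · rw [Finset.sum_comm]
      exact Finset.sum_congr rfl fun i _ => Finset.sum_congr rfl fun j _ => by ring
  have hr := fun j => (h j).self_of_nhds
  have hrc := fun j => ((h j).cj hΦ).self_of_nhds
  have e1 : ∀ j, g (Sum.inl j) = 0 := by
    refine hind (fun j => g (Sum.inl j)) ?_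
    funext i
    have h2 := hact (fun y => Φ y i)
    rw [Finset.sum_apply]
    simp only [Pi.smul_apply, smul_eq_mul, Pi.zero_apply]
    have h3 : ∀ j, act (L' j) (fun y => Φ y i) x0 = L j (Φ x0) i := fun j => ((hr j).1 i).symm
    have h4 : ∀ j, act (cjVF (L' j)) (fun y => Φ y i) x0 = 0 := by
      intro j
      rw [← (hrc j).1 i]
      simp [VF.cj]
    simp only [h3, h4, mul_zero, Finset.sum_const_zero, add_zero] at h2
    exact h2
  have e2 : ∀ j, g (Sum.inr j) = 0 := by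
    have e3 : ∀ j, (starRingEnd ℂ) (g (Sum.inr j)) = 0 := by
      refine hind (fun j => (starRingEnd ℂ) (g (Sum.inr j))) ?_
      funext i
      have h2 := hact (fun y => (starRingEnd ℂ) (Φ y i))
      rw [Finset.sum_apply]
      simp only [Pi.smul_apply, smul_eq_mul, Pi.zero_apply]
      have h3 : ∀ j, act (L' j) (fun y => (starRingEnd ℂ) (Φ y i)) x0 = 0 := by
        intro j
        rw [← (hr j).2 i]
        rfl
      have h4 : ∀ j, act (cjVF (L' j)) (fun y => (starRingEnd ℂ) (Φ y i)) x0 =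
          (starRingEnd ℂ) (L j (Φ x0) i) := fun j => ((hrc j).2 i).symm
      simp only [h3, h4, mul_zero, Finset.sum_const_zero, zero_add] at h2
      have h5 := congrArg (starRingEnd ℂ) h2
      rw [map_sum, map_zero] at h5
      simpa only [map_mul, Complex.conj_conj] using h5
    intro j
    have := congrArg (starRingEnd ℂ) (e3 j)
    simpa using this
  rintro (j | j)
  · exact e1 j
  · exact e2 j

lemma Kf_indep {z : Cn (k + 1)} : LinearIndependent ℂ (fun j => Kf ρ l j z) := by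
  rw [Fintype.linearIndependent_iff]
  intro g hg j
  have h1 := congrFun hg (l.succAbove j)
  rw [Finset.sum_apply] at h1
  simp only [Pi.smul_apply, smul_eq_mul, Kf_s, Pi.zero_apply] at h1
  rw [Finset.sum_eq_single j] at h1
  · simpa using h1
  · intro b _ hb; simp [Ne.symm hb]
  · intro h; exact absurd (Finset.mem_univ _) h

lemma act_coord {d : ℕ} (Z : CVF d) (i : Fin d) (x : E d) : act Z (fun y => ((y i : ℝ) : ℂ)) x = Z x i := by
  have h1 : ∀ j, pd j (fun y : E d => ((y i : ℝ) : ℂ)) x = if i = j then 1 else 0 := by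
    intro j
    have h2 : HasFDerivAt (fun y : E d => ((y i : ℝ) : ℂ))
        (Complex.ofRealCLM.comp (ContinuousLinearMap.proj i : E d →L[ℝ] ℝ)) x :=
      (Complex.ofRealCLM.comp (ContinuousLinearMap.proj i : E d →L[ℝ] ℝ)).hasFDerivAt
    simp only [pd]
    rw [h2.fderiv]
    simp only [ContinuousLinearMap.comp_apply, ContinuousLinearMap.proj_apply, Pi.single_apply,
      Complex.ofRealCLM_apply]
    split_ifs <;> simp
  simp only [act, h1]
  simp

lemma integK (hc : IsChart ρ π Φ x0) (hρ : SmA (Φ x0) ρ) (hl : rz ρ l (Φ x0) ≠ 0) (i j : Fin k) :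
    ∀ᶠ x in 𝓝 x0, lieBr (lift π Φ ⟨Kf ρ l i, 0⟩) (lift π Φ ⟨Kf ρ l j, 0⟩) x = 0 := by
  set X : VF (k + 1) := ⟨Kf ρ l i, 0⟩ with hX
  set Y : VF (k + 1) := ⟨Kf ρ l j, 0⟩ with hY
  have sX : X.Smo (Φ x0) := ⟨smA_Kf hρ hl i, SmA.const 0⟩
  have sY : Y.Smo (Φ x0) := ⟨smA_Kf hρ hl j, SmA.const 0⟩
  have s1 : Sm x0 (lift π Φ X) := sm_lift hc.sm sX
  have s2 : Sm x0 (lift π Φ Y) := sm_lift hc.sm sY
  have r := (relK hc hρ hl i).br (relK hc hρ hl j) hc.sm sX sY s1 s2
  set Z := lieBr (lift π Φ X) (lift π Φ Y) with hZ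
  have hinv : ∀ᶠ x in 𝓝 x0, ∀ i, π (Φ x) i = x i := by
    filter_upwards [hc.inv] with x hx i
    rw [hx]
  filter_upwards [r, hc.sm.differentiableAt, hc.sm.continuousAt.eventually hρ.differentiableAt,
    eventually_eventually_nhds.2 hc.zero, ev_rz hc hρ hl, eventually_eventually_nhds.2 hinv]
    with x h1 h2 h3 h4 h5 h6
  have hb : ∀ i', (X.br Y).b (Φ x) i' = 0 := by
    intro i'
    show X.act (fun w => (0 : Cn (k + 1) → Cn (k + 1)) w i') (Φ x) -
      Y.act (fun w => (0 : Cn (k + 1) → Cn (k + 1)) w i') (Φ x) = 0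
    have e1 := vact_const X 0 (Φ x)
    have e2 := vact_const Y 0 (Φ x)
    show X.act (fun _ => 0) (Φ x) - Y.act (fun _ => 0) (Φ x) = 0
    rw [e1, e2, sub_zero]
  have ha : ∀ j', (X.br Y).a (Φ x) (l.succAbove j') = 0 := by
    intro j'
    show X.act (fun w => Kf ρ l j w (l.succAbove j')) (Φ x) -
      Y.act (fun w => Kf ρ l i w (l.succAbove j')) (Φ x) = 0
    simp only [Kf_s]
    rw [vact_const, vact_const, sub_zero]
  have hal : (X.br Y).a (Φ x) l = 0 := by
    have e1 : (X.br Y).act (fun w => (ρ w : ℂ)) (Φ x) = act Z (fun y => ((ρ (Φ y) : ℝ) : ℂ)) x :=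
      Frel.at_act h1 ((Complex.ofRealCLM.differentiableAt).comp _ h3) h2
    have e2 : act Z (fun y => ((ρ (Φ y) : ℝ) : ℂ)) x = 0 := by
      have e3 : (fun y => ((ρ (Φ y) : ℝ) : ℂ)) =ᶠ[𝓝 x] fun _ => 0 := by
        filter_upwards [h4] with y hy
        rw [hy]; simp
      rw [(act_congr (X := Z) EventuallyEq.rfl e3).self_of_nhds, act_const]
    rw [e2, act_eq_cx, fderiv_ofReal h3, cx_dρc h3] at e1
    simp only [hb, map_zero, mul_zero, Finset.sum_const_zero, add_zero] at e1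
    rw [Fin.sum_univ_succAbove _ l] at e1
    simp only [ha, mul_zero, Finset.sum_const_zero, add_zero] at e1
    exact (mul_eq_zero.1 e1).resolve_left h5
  have haz : ∀ i', (X.br Y).a (Φ x) i' = 0 := by
    intro i'
    exact Fin.succAboveCases l hal (fun j' => ha j') i'
  funext i'
  have e1 : (X.br Y).act (fun w => pc π i' w) (Φ x) = act Z (fun y => pc π i' (Φ y)) x :=
    Frel.at_act h1 ((pc π i').differentiableAt) h2
  have e2 : act Z (fun y => pc π i' (Φ y)) x = Z x i' := by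
    rw [← act_coord Z i' x]
    refine (act_congr (X := Z) EventuallyEq.rfl ?_).self_of_nhds
    filter_upwards [h6] with y hy
    rw [pc_apply, hy i']
  have e3 : (X.br Y).act (fun w => pc π i' w) (Φ x) = 0 := by
    simp only [VF.act, haz, hb, zero_mul, add_zero, Finset.sum_const_zero]
  rw [← e2, ← e1, e3]
  rfl

lemma eta_ne (hc : IsChart ρ π Φ x0) (hρ : SmA (Φ x0) ρ) (hl : rz ρ l (Φ x0) ≠ 0) (hσ : σ ≠ 0) :
    eta ρ Φ σ x0 ≠ 0 := by
  intro h0
  have hth : ∀ i, th ρ Φ i x0 = 0 := by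
    intro i
    have h1 := congrFun h0 i
    have h2 : (th ρ Φ i x0).im = 0 := (mul_eq_zero.1 h1).resolve_left hσ
    have h3 := (th_im hc hρ).self_of_nhds i
    rw [h2] at h3
    have h4 : -Complex.I * th ρ Φ i x0 = 0 := by rw [← h3]; simp
    exact (mul_eq_zero.1 h4).resolve_left (neg_ne_zero.2 Complex.I_ne_zero)
  obtain ⟨w, hw⟩ := hc.dec.self_of_nhds
  have hρd : DifferentiableAt ℝ ρ (Φ x0) := hρ.differentiableAt.self_of_nhds
  have hΦd : DifferentiableAt ℝ Φ x0 := hc.sm.differentiableAt.self_of_nhds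
  set v : Cn (k + 1) := fun j => Complex.I * (starRingEnd ℂ) (rz ρ j (Φ x0)) with hv
  have hsum : ∑ j, rz ρ j (Φ x0) * v j = Complex.I * ((∑ j, Complex.normSq (rz ρ j (Φ x0)) : ℝ) : ℂ) := by
    push_cast
    rw [Finset.mul_sum]
    refine Finset.sum_congr rfl fun j _ => ?_
    rw [hv, ← Complex.mul_conj]
    ring
  have hdv : fderiv ℝ ρ (Φ x0) v = 0 := by
    have h1 : dρc ρ (Φ x0) v = 0 := by
      rw [clm_eq_cx, cx_dρc hρd]
      simp only [Complex.conj_conj]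
      rw [hsum]
      simp
    have h2 : ((fderiv ℝ ρ (Φ x0) v : ℝ) : ℂ) = 0 := h1
    exact_mod_cast h2
  have h1 := hw v
  rw [hdv, zero_smul, add_zero] at h1
  have h2 : ∑ j, rz ρ j (Φ x0) * v j = 0 := by
    have h3 : ∀ j, v j = ∑ i, ((π v i : ℝ) : ℂ) * pd i (fun y => Φ y j) x0 := by
      intro j
      have h4 : π v = ∑ i, (π v i) • (Pi.single i (1 : ℝ) : E (2 * k + 1)) := by
        funext k
        simp [Finset.sum_apply, Pi.single_apply]
      conv_lhs => rw [h1, h4, map_sum, Finset.sum_apply]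
      refine Finset.sum_congr rfl fun i _ => ?_
      rw [map_smul, Pi.smul_apply, Complex.real_smul, pd_Φ hΦd]
    simp only [h3, Finset.mul_sum]
    rw [Finset.sum_comm]
    refine Finset.sum_eq_zero fun i _ => ?_
    have h5 := hth i
    simp only [th] at h5
    have : ∑ j, rz ρ j (Φ x0) * (((π v i : ℝ) : ℂ) * pd i (fun y => Φ y j) x0) =
        ((π v i : ℝ) : ℂ) * ∑ j, rz ρ j (Φ x0) * pd i (fun y => Φ y j) x0 := by
      rw [Finset.mul_sum]
      exact Finset.sum_congr rfl fun j _ => by ring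
    rw [this, h5, mul_zero]
  rw [hsum] at h2
  have h3 := (mul_eq_zero.1 h2).resolve_left Complex.I_ne_zero
  have h4 : (∑ j, Complex.normSq (rz ρ j (Φ x0))) = 0 := by exact_mod_cast h3
  have h5 := (Finset.sum_eq_zero_iff_of_nonneg (fun j _ => Complex.normSq_nonneg _)).1 h4 l
    (Finset.mem_univ _)
  exact hl (Complex.normSq_eq_zero.1 h5)

lemma leviForm_sum {s : ℕ} (z : Cn (k + 1)) (κ : Fin s → ℂ) (v : Fin s → Cn (k + 1)) :
    leviForm ρ z (∑ i, κ i • v i) (∑ i, κ i • v i) =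
      ∑ i, ∑ j, κ i * (starRingEnd ℂ) (κ j) * leviForm ρ z (v i) (v j) := by
  simp only [leviForm, Finset.sum_apply, Pi.smul_apply, smul_eq_mul, map_sum, map_mul,
    Finset.mul_sum, Finset.sum_mul]
  have e : ∀ (f : Fin (k + 1) → Fin (k + 1) → Fin s → Fin s → ℂ),
      ∑ a, ∑ b, ∑ j, ∑ i, f a b i j = ∑ i, ∑ j, ∑ a, ∑ b, f a b i j := by
    intro f
    calc ∑ a, ∑ b, ∑ j, ∑ i, f a b i j = ∑ a, ∑ b, ∑ i, ∑ j, f a b i j :=
          Finset.sum_congr rfl fun a _ => Finset.sum_congr rfl fun b _ => Finset.sum_comm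
      _ = ∑ a, ∑ i, ∑ b, ∑ j, f a b i j := Finset.sum_congr rfl fun a _ => Finset.sum_comm
      _ = ∑ i, ∑ a, ∑ b, ∑ j, f a b i j := Finset.sum_comm
      _ = ∑ i, ∑ a, ∑ j, ∑ b, f a b i j :=
          Finset.sum_congr rfl fun i _ => Finset.sum_congr rfl fun a _ => Finset.sum_comm
      _ = ∑ i, ∑ j, ∑ a, ∑ b, f a b i j := Finset.sum_congr rfl fun i _ => Finset.sum_comm
  have e2 := e (fun a b i j => κ i * (starRingEnd ℂ) (κ j) * (dzb b (dz a fun u => (ρ u : ℂ)) z *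
    v i a * (starRingEnd ℂ) (v j b)))
  rw [← e2]
  refine Finset.sum_congr rfl fun a _ => Finset.sum_congr rfl fun b _ =>
    Finset.sum_congr rfl fun j _ => Finset.sum_congr rfl fun i _ => ?_
  ring

/-- the germ of CR structure -/
noncomputable def theLCR (hc : IsChart ρ π Φ x0) (hρ : SmA (Φ x0) ρ) (hl : rz ρ l (Φ x0) ≠ 0)
    (hσ : σ ≠ 0)
    (hp : ∀ᶠ x in 𝓝 x0, ∀ v : Cn (k + 1), ∑ j, rz ρ j (Φ x) * v j = 0 →
      0 ≤ σ * (leviForm ρ (Φ x) v v).re) : LCR k x0 where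
  K := fun j => lift π Φ ⟨Kf ρ l j, 0⟩
  η := eta ρ Φ σ
  smK := fun j => sm_lift hc.sm ⟨smA_Kf hρ hl j, SmA.const 0⟩
  smη := by
    have h1 : ∀ i, Sm x0 (fun x => eta ρ Φ σ x i) := by
      intro i
      have h2 : Sm x0 (th ρ Φ i) := Sm.sum fun j _ =>
        (smA_comp hc.sm (smA_rz hρ j)).mul ((smΦ_apply hc.sm j).pd i)
      have h3 := h2.im
      filter_upwards [h3] with x hx
      exact contDiffAt_const.mul hx
    filter_upwards [eventually_all.2 h1] with x hx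
    exact contDiffAt_pi.2 hx
  indep := indep_of_rel hc.sm (relK hc hρ hl) Kf_indep
  ann := by
    intro j
    filter_upwards [pair_eta hc hρ σ (relK hc hρ hl j), tanK hc hρ hl j] with x h1 h2
    rw [h1]
    have : VF.dpair ρ ⟨Kf ρ l j, 0⟩ (Φ x) = 0 := h2
    rw [this, mul_zero]
  ne := eta_ne hc hρ hl hσ
  integ := by
    intro i j
    filter_upwards [integK hc hρ hl i j] with x hx
    rw [hx]
    exact Submodule.zero_mem _
  psc := by
    have h1 : ∀ i j, ∀ᶠ x in 𝓝 x0, pair (eta ρ Φ σ) (lieBr (lift π Φ ⟨Kf ρ l i, 0⟩)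
        (cjVF (lift π Φ ⟨Kf ρ l j, 0⟩))) x =
        -Complex.I * σ * leviForm ρ (Φ x) (Kf ρ l i (Φ x)) (Kf ρ l j (Φ x)) := fun i j =>
      levi_pair hc hρ σ (smA_Kf hρ hl i) (smA_Kf hρ hl j) (tanK hc hρ hl i) (tanK hc hρ hl j)
    filter_upwards [eventually_all.2 fun i => eventually_all.2 fun j => h1 i j, hp,
      eventually_all.2 fun j => tanK hc hρ hl j] with x h2 h3 h4 κ
    have h5 : ∑ j, rz ρ j (Φ x) * (∑ i, κ i • Kf ρ l i (Φ x)) j = 0 := by
      simp only [Finset.sum_apply, Pi.smul_apply, smul_eq_mul, Finset.mul_sum]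
      rw [Finset.sum_comm]
      refine Finset.sum_eq_zero fun i _ => ?_
      have : ∑ j, rz ρ j (Φ x) * (κ i * Kf ρ l i (Φ x) j) =
          κ i * ∑ j, rz ρ j (Φ x) * Kf ρ l i (Φ x) j := by
        rw [Finset.mul_sum]
        exact Finset.sum_congr rfl fun j _ => by ring
      rw [this, h4 i, mul_zero]
    have h6 := h3 _ h5
    rw [leviForm_sum] at h6
    have h7 : Complex.I * ∑ i, ∑ j, κ i * (starRingEnd ℂ) (κ j) *
        pair (eta ρ Φ σ) (lieBr (lift π Φ ⟨Kf ρ l i, 0⟩) (cjVF (lift π Φ ⟨Kf ρ l j, 0⟩))) x =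
        (σ : ℂ) * ∑ i, ∑ j, κ i * (starRingEnd ℂ) (κ j) *
          leviForm ρ (Φ x) (Kf ρ l i (Φ x)) (Kf ρ l j (Φ x)) := by
      simp only [h2, Finset.mul_sum]
      refine Finset.sum_congr rfl fun i _ => Finset.sum_congr rfl fun j _ => ?_
      have hI := Complex.I_mul_I
      linear_combination (-(κ i * (starRingEnd ℂ) (κ j) * σ *
        leviForm ρ (Φ x) (Kf ρ l i (Φ x)) (Kf ρ l j (Φ x)))) * hI
    rw [h7, Complex.re_ofReal_mul]
    exact h6

end

end Pool.Agent.W737.Sub.FT
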