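import Pool.Agent.W737.Sub.Amb4

/-! The comparison on the hypersurface. -/

set_option autoImplicit false

open scoped ContDiff Topology BigOperators
open Finset Filter DAng

namespace Pool.Agent.W737.Sub.FT

section general
variable {n : ℕ}

lemma SmA.of_on {p : Cn n} {F : Type*} [NormedAddCommGroup F] [NormedSpace ℝ F] {f : Cn n → F}
    {V : Set (Cn n)} (hV : IsOpen V) (hp : p ∈ V) (h : ContDiffOn ℝ ∞ f V) : SmA p f := by
  filter_upwards [hV.mem_nhds hp] with z hz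
  exact (h z hz).contDiffAt (hV.mem_nhds hz)

lemma smA_lev {p : Cn n} {ρ : Cn n → ℝ} (hρ : SmA p ρ) {L : Cn n → Cn n} (hL : SmA p L) :
    SmA p (lev ρ L) := by
  unfold lev leviForm
  exact SmA.sum fun j _ => SmA.sum fun l _ => (((smA_rz hρ j).wdzb l).mul (smA_comp_apply hL j)).mul
    (smA_comp_apply hL l).conj

lemma smo_of_M1 {V M : Set (Cn n)} {B : Cn n → Submodule ℂ (Cn n)} {p : Cn n} (hV : IsOpen V)
    (hp : p ∈ V) {X : VF n} (h : IsM1 V M B X) : X.Smo p := by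
  refine ⟨SmA.of_on hV hp h.1.1, smA_of_apply fun j => ?_⟩
  have h1 := (smA_comp_apply (SmA.of_on hV hp h.2.1) j).conj
  simpa only [Complex.conj_conj] using h1

lemma smA_iterAct {p : Cn n} : ∀ (l : List (VF n)), (∀ X ∈ l, X.Smo p) → ∀ {f : Cn n → ℂ}, SmA p f →
    SmA p (iterAct l f)
  | [], _, _, hf => hf
  | X :: l, h, _, hf => SmA.vact (h X (by simp)) (smA_iterAct l (fun Y hY => h Y (List.mem_cons_of_mem _ hY)) hf)

lemma smo_iterBr {p : Cn n} : ∀ (l : List (VF n)), l ≠ [] → (∀ X ∈ l, X.Smo p) → (iterBr l).Smo p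
  | [], h, _ => absurd rfl h
  | [X], _, h => h X (by simp)
  | X :: Y :: l, _, h => (h X (by simp)).br (smo_iterBr (Y :: l) (by simp)
      fun Z hZ => h Z (List.mem_cons_of_mem _ hZ))

/-- the linear lift of `(1,0)` vectors -/
noncomputable def liftL {d : ℕ} (π : Cn n →L[ℝ] E d) : Cn n →ₗ[ℂ] (Fin d → ℂ) where
  toFun a := liftv π a 0
  map_add' a b := by
    funext i
    have h1 := cx_lin_a a b 0 (pc π i) 0
    simp only [Pi.zero_apply, add_zero] at h1
    exact h1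
  map_smul' c a := by
    funext i
    show cx (c • a) 0 (pc π i) = c * cx a 0 (pc π i)
    simp only [cx, Finset.mul_sum, Pi.smul_apply, smul_eq_mul, Pi.zero_apply, zero_mul, add_zero]
    exact Finset.sum_congr rfl fun j _ => by ring

lemma liftL_apply {d : ℕ} (π : Cn n →L[ℝ] E d) (a : Cn n) : liftL π a = liftv π a 0 := rfl

lemma liftL_mem {d s : ℕ} (π : Cn n →L[ℝ] E d) {v : Cn n} {w : Fin s → Cn n}
    (h : v ∈ Submodule.span ℂ (Set.range w)) :
    liftv π v 0 ∈ Submodule.span ℂ (Set.range fun j => liftv π (w j) 0) := by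
  have h1 : liftL π v ∈ Submodule.map (liftL π) (Submodule.span ℂ (Set.range w)) :=
    Submodule.mem_map_of_mem h
  rw [Submodule.map_span, ← Set.range_comp] at h1
  exact h1

end general

section lists
variable {n d : ℕ} {ρ : Cn n → ℝ} {π : Cn n →L[ℝ] E d} {Φ : E d → Cn n} {x0 : E d}

lemma rel_iterBr (hΦ : Sm x0 Φ) : ∀ (l : List (VF n)), l ≠ [] →
    (∀ X ∈ l, X.Smo (Φ x0) ∧ Frel Φ x0 X (lift π Φ X)) →
    Frel Φ x0 (iterBr l) (brL (l.map (lift π Φ))) ∧ Sm x0 (brL (l.map (lift π Φ)))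
  | [], h, _ => absurd rfl h
  | [X], _, h => ⟨(h X (by simp)).2, sm_lift hΦ (h X (by simp)).1⟩
  | X :: Y :: l, _, h => by
    obtain ⟨h1, h2⟩ := rel_iterBr hΦ (Y :: l) (by simp) fun Z hZ => h Z (List.mem_cons_of_mem _ hZ)
    have hX := h X (by simp)
    have s1 := sm_lift (π := π) hΦ hX.1
    exact ⟨hX.2.br h1 hΦ hX.1 (smo_iterBr (Y :: l) (by simp)
      fun Z hZ => (h Z (List.mem_cons_of_mem _ hZ)).1) s1 h2, s1.lieBr h2⟩

lemma opL_congr : ∀ (l : List (CVF d)) {f g : CF d}, f =ᶠ[𝓝 x0] g → opL l f =ᶠ[𝓝 x0] opL l g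
  | [], _, _, h => h
  | Y :: l, _, _, h => act_congr EventuallyEq.rfl (opL_congr l h)

lemma sm_opL : ∀ (l : List (CVF d)), (∀ Y ∈ l, Sm x0 Y) → ∀ {f : CF d}, Sm x0 f → Sm x0 (opL l f)
  | [], _, _, h => h
  | Y :: l, h, _, hf => (h Y (by simp)).act (sm_opL l (fun Z hZ => h Z (List.mem_cons_of_mem _ hZ)) hf)

lemma opL_smul (c : ℂ) : ∀ (l : List (CVF d)), (∀ Y ∈ l, Sm x0 Y) → ∀ {f : CF d}, Sm x0 f →
    opL l (fun x => c * f x) =ᶠ[𝓝 x0] fun x => c * opL l f x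
  | [], _, _, _ => EventuallyEq.rfl
  | Y :: l, h, f, hf => by
    have h1 := opL_smul c l (fun Z hZ => h Z (List.mem_cons_of_mem _ hZ)) hf
    have h2 : act Y (opL l fun x => c * f x) =ᶠ[𝓝 x0] act Y (fun x => c * opL l f x) :=
      act_congr EventuallyEq.rfl h1
    exact h2.trans (act_fun_smul c (sm_opL l (fun Z hZ => h Z (List.mem_cons_of_mem _ hZ)) hf))

lemma rel_iterAct (hΦ : Sm x0 Φ) {f : Cn n → ℂ} (hf : SmA (Φ x0) f) : ∀ (l : List (VF n)),
    (∀ X ∈ l, X.Smo (Φ x0) ∧ Frel Φ x0 X (lift π Φ X)) →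
    (fun x => iterAct l f (Φ x)) =ᶠ[𝓝 x0] opL (l.map (lift π Φ)) (fun x => f (Φ x))
  | [], _ => EventuallyEq.rfl
  | X :: l, h => by
    have h1 := rel_iterAct hΦ hf l fun Z hZ => h Z (List.mem_cons_of_mem _ hZ)
    have h2 := (h X (by simp)).2.act hΦ
      (smA_iterAct l (fun Z hZ => (h Z (List.mem_cons_of_mem _ hZ)).1) hf)
    exact h2.trans (act_congr EventuallyEq.rfl h1)

lemma brK_eq {s : ℕ} (K : Fin s → CVF d) : ∀ w : List (Lt s), brK K w = brL (w.map (KL K))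
  | [] => rfl
  | [_] => rfl
  | κ :: κ' :: w => by
    show lieBr (KL K κ) (brK K (κ' :: w)) = lieBr (KL K κ) (brL ((κ' :: w).map (KL K)))
    rw [brK_eq K (κ' :: w)]

lemma opL_append : ∀ (l l' : List (CVF d)) (f : CF d), opL (l ++ l') f = opL l (opL l' f)
  | [], _, _ => rfl
  | Y :: l, l', f => by
    show act Y (opL (l ++ l') f) = act Y (opL l (opL l' f))
    rw [opL_append l l' f]

lemma opK_eq {s : ℕ} (K : Fin s → CVF d) : ∀ (w : List (Lt s)) (f : CF d),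
    opK K w f = opL ((w.map (KL K)).reverse) f
  | [], _ => rfl
  | κ :: w, f => by
    show opK K w (act (KL K κ) f) = _
    rw [opK_eq K w, List.map_cons, List.reverse_cons, opL_append]
    rfl

end lists

/-! ### the two vanishing conditions -/

section amb
variable {n s : ℕ} {U V M : Set (Cn n)} {ρ : Cn n → ℝ} {B : Cn n → Submodule ℂ (Cn n)} {p : Cn n}

/-- all brackets of length at most `m` pair to zero with `∂ρ` at `p` -/
def TVa (V M : Set (Cn n)) (ρ : Cn n → ℝ) (B : Cn n → Submodule ℂ (Cn n)) (p : Cn n) (m : ℕ) :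
    Prop :=
  ∀ l : List (VF n), l ≠ [] → l.length ≤ m → (∀ X ∈ l, IsM1 V M B X) → (iterBr l).dpair ρ p = 0

/-- all derivatives of order at most `m - 2` of the Levi form vanish at `p` -/
def CVa (V M : Set (Cn n)) (ρ : Cn n → ℝ) (B : Cn n → Submodule ℂ (Cn n)) (p : Cn n) (m : ℕ) :
    Prop :=
  ∀ l : List (VF n), l.length + 2 ≤ m → (∀ X ∈ l, IsM1 V M B X) →
    ∀ L, IsSection V M B L → L p ≠ 0 → iterAct l (lev ρ L) p = 0

/-- global sections spanning `B` near `p` -/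
lemma exists_frame (hB : IsSubbundle M ρ s B) (hp : p ∈ M) :
    ∃ F : Fin s → Cn n → Cn n, (∀ j, IsSection V M B (F j)) ∧
      (∀ᶠ z in 𝓝 p, z ∈ M → B z = Submodule.span ℂ (Set.range fun j => F j z)) ∧
      LinearIndependent ℂ (fun j => F j p) := by
  obtain ⟨W, hW, hpW, K, hK, hBK⟩ := hB.smooth p hp
  obtain ⟨ε, hε, hball⟩ := Metric.nhds_basis_closedBall.mem_iff.1 (hW.mem_nhds hpW)
  let χ : ContDiffBump p := ⟨ε / 2, ε, by positivity, by linarith⟩
  have hts : tsupport χ ⊆ W := by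
    rw [χ.tsupport_eq]; exact hball
  let F : Fin s → Cn n → Cn n := fun j z => ((χ z : ℝ) : ℂ) • K j z
  have hχs : ContDiff ℝ ∞ (fun z => ((χ z : ℝ) : ℂ)) :=
    Complex.ofRealCLM.contDiff.comp χ.contDiff
  have hFs : ∀ j, ContDiff ℝ ∞ (F j) := by
    intro j
    rw [contDiff_iff_contDiffAt]
    intro z
    by_cases hz : z ∈ tsupport χ
    · have h1 : ContDiffAt ℝ ∞ (K j) z := (hK j z (hts hz)).contDiffAt (hW.mem_nhds (hts hz))
      exact hχs.contDiffAt.smul h1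
    · have h1 : ∀ᶠ w in 𝓝 z, w ∉ tsupport χ :=
        (isClosed_tsupport χ).isOpen_compl.mem_nhds hz
      have h2 : F j =ᶠ[𝓝 z] fun _ => 0 := by
        filter_upwards [h1] with w hw
        have : χ w = 0 := image_eq_zero_of_notMem_tsupport hw
        simp only [F, this, Complex.ofReal_zero, zero_smul]
      exact contDiffAt_const.congr_of_eventuallyEq h2
  have hone : ∀ᶠ z in 𝓝 p, χ z = 1 := by
    filter_upwards [χ.eventuallyEq_one] with z hz
    exact hz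
  have hFK : ∀ᶠ z in 𝓝 p, ∀ j, F j z = K j z := by
    filter_upwards [hone] with z hz j
    simp only [F, hz, Complex.ofReal_one, one_smul]
  have hspan : ∀ᶠ z in 𝓝 p, z ∈ M → B z = Submodule.span ℂ (Set.range fun j => F j z) := by
    filter_upwards [hFK, hW.mem_nhds hpW] with z h1 h2 h3
    rw [hBK z ⟨h3, h2⟩]
    congr 1
    have : (fun j => F j z) = fun j => K j z := funext h1
    rw [this]
  refine ⟨F, fun j => ⟨(hFs j).contDiffOn, ?_⟩, hspan, ?_⟩
  · intro z hz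
    by_cases hzW : z ∈ W
    · have h1 : K j z ∈ B z := by
        rw [hBK z ⟨hz.1, hzW⟩]
        exact Submodule.subset_span ⟨j, rfl⟩
      exact Submodule.smul_mem _ _ h1
    · have : χ z = 0 := image_eq_zero_of_notMem_tsupport fun h => hzW (hts h)
      simp only [F, this, Complex.ofReal_zero, zero_smul]
      exact Submodule.zero_mem _
  · rw [linearIndependent_iff_card_eq_finrank_span, Fintype.card_fin]
    show s = Module.finrank ℂ (Submodule.span ℂ (Set.range fun j => F j p))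
    rw [← hspan.self_of_nhds hp, hB.rank p hp]

end amb

/-! ### the comparison -/

section main
variable {k s : ℕ} {U V M : Set (Cn (k + 1))} {ρ : Cn (k + 1) → ℝ}
  {B : Cn (k + 1) → Submodule ℂ (Cn (k + 1))}

lemma exists_rz_ne {p : Cn (k + 1)} (hρ : DifferentiableAt ℝ ρ p) (hd : fderiv ℝ ρ p ≠ 0) :
    ∃ l, rz ρ l p ≠ 0 := by
  by_contra h
  push Not at h
  apply hd
  ext v
  have h1 : dρc ρ p v = 0 := by
    rw [clm_eq_cx, cx_dρc hρ]
    simp [h]
  have h2 : ((fderiv ℝ ρ p v : ℝ) : ℂ) = 0 := h1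
  simpa using h2

/-- data of the chart at the point `Φ x0` -/
structure Dat (U V M : Set (Cn (k + 1))) (ρ : Cn (k + 1) → ℝ)
    (B : Cn (k + 1) → Submodule ℂ (Cn (k + 1))) (s : ℕ) (π : Cn (k + 1) →L[ℝ] E (2 * k + 1))
    (Φ : E (2 * k + 1) → Cn (k + 1)) (x0 : E (2 * k + 1)) : Prop where
  hc : IsChart ρ π Φ x0
  hM : IsHypersurface U ρ M
  hB : IsSubbundle M ρ s B
  hV : IsOpen V
  hVU : V ⊆ U
  hp : Φ x0 ∈ M
  hpV : Φ x0 ∈ V

namespace Dat
variable {π : Cn (k + 1) →L[ℝ] E (2 * k + 1)} {Φ : E (2 * k + 1) → Cn (k + 1)} {x0 : E (2 * k + 1)}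
  (D : Dat U V M ρ B s π Φ x0)
include D

lemma smρ : SmA (Φ x0) ρ := SmA.of_on D.hM.isOpen (D.hVU D.hpV) D.hM.smooth

lemma evM : ∀ᶠ x in 𝓝 x0, Φ x ∈ M ∩ V := by
  filter_upwards [D.hc.zero, D.hc.sm.continuousAt.eventually (D.hV.mem_nhds D.hpV)] with x h1 h2
  refine ⟨?_, h2⟩
  rw [D.hM.eq]
  exact ⟨D.hVU h2, h1⟩

lemma tan {L : Cn (k + 1) → Cn (k + 1)} (hL : IsSection V M B L) :
    ∀ᶠ x in 𝓝 x0, ∑ j, rz ρ j (Φ x) * L (Φ x) j = 0 := by
  filter_upwards [D.evM] with x hx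
  exact D.hB.sub _ hx.1 _ (hL.2 _ hx)

lemma smL {L : Cn (k + 1) → Cn (k + 1)} (hL : IsSection V M B L) : SmA (Φ x0) L :=
  SmA.of_on D.hV D.hpV hL.1

lemma m1 {X : VF (k + 1)} (hX : IsM1 V M B X) :
    X.Smo (Φ x0) ∧ Frel Φ x0 X (lift π Φ X) := by
  refine ⟨smo_of_M1 D.hV D.hpV hX, lift_rel D.hc ?_⟩
  filter_upwards [D.tan hX.1, D.tan hX.2, D.hc.sm.continuousAt.eventually D.smρ.differentiableAt]
    with x h1 h2 h3
  rw [cx_dρc h3, h1, h2]
  simp

variable {F : Fin s → Cn (k + 1) → Cn (k + 1)} (hF : ∀ j, IsSection V M B (F j))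
  (hspan : ∀ᶠ z in 𝓝 (Φ x0), z ∈ M → B z = Submodule.span ℂ (Set.range fun j => F j z))
  (hind : LinearIndependent ℂ (fun j => F j (Φ x0)))
include hF

lemma smF' (j : Fin s) : Sm x0 (lift π Φ ⟨F j, 0⟩) := sm_lift D.hc.sm ⟨D.smL (hF j), SmA.const 0⟩

lemma indF' (hind : LinearIndependent ℂ (fun j => F j (Φ x0))) :
    LinearIndependent ℂ (fun j => lift π Φ ⟨F j, 0⟩ x0) := by
  have h1 := indep_of_rel (L' := fun j => lift π Φ ⟨F j, 0⟩) D.hc.sm
    (fun j => rel10 D.hc D.smρ (D.tan (hF j))) hind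
  exact h1.comp Sum.inl Sum.inl_injective

include hspan hind in
lemma secB {L : Cn (k + 1) → Cn (k + 1)} (hL : IsSection V M B L) :
    SecB x0 (fun j => lift π Φ ⟨F j, 0⟩) (lift π Φ ⟨L, 0⟩) := by
  refine exists_coef (D.smF' hF) (D.indF' hF hind) (sm_lift D.hc.sm ⟨D.smL hL, SmA.const 0⟩) ?_
  filter_upwards [D.evM, D.hc.sm.continuousAt.eventually hspan] with x h1 h2
  have h3 : L (Φ x) ∈ Submodule.span ℂ (Set.range fun j => F j (Φ x)) := by
    rw [← h2 h1.1]; exact hL.2 _ h1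
  exact liftL_mem π h3

include hspan hind in
lemma mbX {X : VF (k + 1)} (hX : IsM1 V M B X) :
    MB x0 (fun j => lift π Φ ⟨F j, 0⟩) 1 (lift π Φ X) := by
  have h1 := (D.secB hF hspan hind hX.1).mb
  have h2 := (D.secB hF hspan hind hX.2).mb_conj
  refine (MB.add h1 h2).congr (Eventually.of_forall fun x => ?_)
  funext i
  rw [lift_cj]
  show cx (X.a (Φ x)) (X.b (Φ x)) (pc π i) = cx (X.a (Φ x)) 0 (pc π i) +
    cx (fun j => (starRingEnd ℂ) ((0 : Cn (k + 1) → Cn (k + 1)) (Φ x) j))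
      (fun j => (starRingEnd ℂ) ((starRingEnd ℂ) (X.b (Φ x) j))) (pc π i)
  rw [← cx_lin_a]
  simp only [Complex.conj_conj, Pi.zero_apply, map_zero, add_zero, zero_add]

lemma spanF' {l : Fin (k + 1)} (hl : rz ρ l (Φ x0) ≠ 0) (j : Fin s) :
    ∀ᶠ x in 𝓝 x0, lift π Φ ⟨F j, 0⟩ x ∈
      Submodule.span ℂ (Set.range fun i => lift π Φ ⟨Kf ρ l i, 0⟩ x) := by
  filter_upwards [D.tan (hF j), ev_rz D.hc D.smρ hl] with x h1 h2
  refine liftL_mem π (w := fun i => Kf ρ l i (Φ x)) ?_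
  show F j (Φ x) ∈ _
  rw [T10_eq h2 h1]
  exact Submodule.sum_mem _ fun i _ => Submodule.smul_mem _ _ (Submodule.subset_span ⟨i, rfl⟩)

omit hF in
lemma lev_eq {σ : ℝ} {L : Cn (k + 1) → Cn (k + 1)} (hL : IsSection V M B L) :
    pair (eta ρ Φ σ) (lieBr (lift π Φ ⟨L, 0⟩) (cjVF (lift π Φ ⟨L, 0⟩))) =ᶠ[𝓝 x0]
      fun x => -Complex.I * σ * lev ρ L (Φ x) :=
  levi_pair D.hc D.smρ σ (D.smL hL) (D.smL hL) (D.tan hL) (D.tan hL)

omit hF in
/-- derivatives of the Levi form upstairs and in the chart -/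
lemma act_lev {σ : ℝ} {L : Cn (k + 1) → Cn (k + 1)} (hL : IsSection V M B L) {l : List (VF (k + 1))}
    (hl : ∀ X ∈ l, IsM1 V M B X) :
    opL (l.map (lift π Φ)) (pair (eta ρ Φ σ) (lieBr (lift π Φ ⟨L, 0⟩) (cjVF (lift π Φ ⟨L, 0⟩)))) x0 =
      -Complex.I * σ * iterAct l (lev ρ L) (Φ x0) := by
  have h1 := opL_congr (l.map (lift π Φ)) (D.lev_eq (σ := σ) hL)
  have hs := smA_lev D.smρ (D.smL hL)
  have h2 := opL_smul (x0 := x0) (-Complex.I * σ) (l.map (lift π Φ)) (by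
    intro Y hY
    obtain ⟨X, hX, rfl⟩ := List.mem_map.1 hY
    exact sm_lift D.hc.sm (D.m1 (hl X hX)).1) (smA_comp D.hc.sm hs)
  have h3 := rel_iterAct D.hc.sm hs l fun X hX => D.m1 (hl X hX)
  rw [h1.self_of_nhds, h2.self_of_nhds]
  show -Complex.I * σ * opL (l.map (lift π Φ)) (fun x => lev ρ L (Φ x)) x0 = _
  rw [← h3.self_of_nhds]

omit hF in
lemma br_pair {σ : ℝ} {l : List (VF (k + 1))} (hne : l ≠ []) (hl : ∀ X ∈ l, IsM1 V M B X) :
    pair (eta ρ Φ σ) (brL (l.map (lift π Φ))) x0 = -Complex.I * σ * (iterBr l).dpair ρ (Φ x0) := by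
  have h1 := (rel_iterBr (π := π) D.hc.sm l hne fun X hX => D.m1 (hl X hX)).1
  exact (pair_eta D.hc D.smρ σ h1).self_of_nhds

end Dat

/-- the combination of sections -/
noncomputable def FA (F : Fin s → Cn (k + 1) → Cn (k + 1)) (a : Fin s → ℂ) :
    Cn (k + 1) → Cn (k + 1) := fun z => ∑ j, a j • F j z

lemma FA_sec {F : Fin s → Cn (k + 1) → Cn (k + 1)} (hF : ∀ j, IsSection V M B (F j))
    (a : Fin s → ℂ) : IsSection V M B (FA F a) := by
  refine ⟨?_, fun z hz => Submodule.sum_mem _ fun j _ => Submodule.smul_mem _ _ ((hF j).2 z hz)⟩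
  have h : ∀ j, ContDiffOn ℝ ∞ (fun z => a j • F j z) V := fun j =>
    (contDiffOn_const (c := a j)).smul (hF j).1
  exact ContDiffOn.sum fun j _ => h j

lemma cmb_lift {π : Cn (k + 1) →L[ℝ] E (2 * k + 1)} {Φ : E (2 * k + 1) → Cn (k + 1)}
    (F : Fin s → Cn (k + 1) → Cn (k + 1)) (a : Fin s → ℂ) :
    cmb (fun j => lift π Φ ⟨F j, 0⟩) a = lift π Φ ⟨FA F a, 0⟩ := by
  funext x i
  have h1 : liftL π (∑ j, a j • F j (Φ x)) = ∑ j, a j • liftL π (F j (Φ x)) := by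
    rw [map_sum]
    exact Finset.sum_congr rfl fun j _ => map_smul _ _ _
  have h2 := congrFun h1 i
  rw [Finset.sum_apply] at h2
  exact h2.symm

/-- the letters as ambient fields -/
noncomputable def lf (G : Cn (k + 1) → Cn (k + 1)) : Bool → VF (k + 1)
  | true => ⟨G, 0⟩
  | false => (⟨G, 0⟩ : VF (k + 1)).cj

lemma isM1_10 {G : Cn (k + 1) → Cn (k + 1)} (hG : IsSection V M B G) : IsM1 V M B ⟨G, 0⟩ := by
  refine ⟨hG, ?_, ?_⟩
  · have : (fun (z : Cn (k + 1)) (j : Fin (k + 1)) =>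
        (starRingEnd ℂ) ((0 : Cn (k + 1) → Cn (k + 1)) z j)) = fun _ => 0 := by
      funext z j; simp
    show ContDiffOn ℝ ∞ (fun (z : Cn (k + 1)) (j : Fin (k + 1)) =>
        (starRingEnd ℂ) ((0 : Cn (k + 1) → Cn (k + 1)) z j)) V
    rw [this]
    exact contDiffOn_const
  · intro z _
    have : (fun j : Fin (k + 1) => (starRingEnd ℂ) ((0 : Cn (k + 1) → Cn (k + 1)) z j)) = 0 := by
      funext j; simp
    show (fun j : Fin (k + 1) => (starRingEnd ℂ) ((0 : Cn (k + 1) → Cn (k + 1)) z j)) ∈ B z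
    rw [this]
    exact Submodule.zero_mem _

lemma isM1_01 {G : Cn (k + 1) → Cn (k + 1)} (hG : IsSection V M B G) :
    IsM1 V M B (⟨G, 0⟩ : VF (k + 1)).cj := by
  have h := isM1_10 hG
  refine ⟨h.2, ?_⟩
  have : (fun z j => (starRingEnd ℂ) ((⟨G, 0⟩ : VF (k + 1)).cj.b z j)) = G := by
    funext z j
    simp [VF.cj]
  rw [this]
  exact hG

lemma isM1_lf {G : Cn (k + 1) → Cn (k + 1)} (hG : IsSection V M B G) (b : Bool) :
    IsM1 V M B (lf G b) := by
  cases b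
  · exact isM1_01 hG
  · exact isM1_10 hG

lemma KL_lift {π : Cn (k + 1) →L[ℝ] E (2 * k + 1)} {Φ : E (2 * k + 1) → Cn (k + 1)} {r : ℕ}
    (G : Fin r → Cn (k + 1) → Cn (k + 1)) (κ : Lt r) :
    KL (fun j => lift π Φ ⟨G j, 0⟩) κ = lift π Φ (lf (G κ.1) κ.2) := by
  obtain ⟨j, b⟩ := κ
  cases b
  · show cjVF (lift π Φ ⟨G j, 0⟩) = _
    rw [lift_cj]
    rfl
  · rfl

theorem TVa_iff_CVa' {π : Cn (k + 1) →L[ℝ] E (2 * k + 1)} {Φ : E (2 * k + 1) → Cn (k + 1)}
    {x0 : E (2 * k + 1)} (D : Dat U V M ρ B s π Φ x0) (hP : Pseudoconvex ρ M) (m : ℕ) :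
    TVa V M ρ B (Φ x0) m ↔ CVa V M ρ B (Φ x0) m := by
  -- sign
  obtain ⟨σ, hσ, hpsc⟩ : ∃ σ : ℝ, σ ≠ 0 ∧ ∀ z ∈ M, ∀ v ∈ T10 ρ z, 0 ≤ σ * (leviForm ρ z v v).re := by
    rcases hP with h | h
    · exact ⟨1, one_ne_zero, fun z hz v hv => by rw [one_mul]; exact h z hz v hv⟩
    · exact ⟨-1, by norm_num, fun z hz v hv => by have := h z hz v hv; linarith⟩
  obtain ⟨l0, hl0⟩ := exists_rz_ne (D.smρ.differentiableAt.self_of_nhds) (D.hM.ne _ D.hp)
  have hp' : ∀ᶠ x in 𝓝 x0, ∀ v : Cn (k + 1), ∑ j, rz ρ j (Φ x) * v j = 0 →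
      0 ≤ σ * (leviForm ρ (Φ x) v v).re := by
    filter_upwards [D.evM] with x hx v hv
    exact hpsc _ hx.1 v hv
  let C : LCR k x0 := theLCR D.hc D.smρ hl0 hσ hp'
  have hCη : C.η = eta ρ Φ σ := rfl
  obtain ⟨F, hF, hspan, hind⟩ := exists_frame (V := V) D.hB D.hp
  let F' : Fin s → CVF (2 * k + 1) := fun j => lift π Φ ⟨F j, 0⟩
  have hF's : ∀ j, Sm x0 (F' j) := D.smF' hF
  have hF'span : ∀ j, ∀ᶠ x in 𝓝 x0, F' j x ∈ Submodule.span ℂ (Set.range fun l => C.K l x) :=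
    fun j => D.spanF' hF hl0 j
  have hc0 : -Complex.I * (σ : ℂ) ≠ 0 :=
    mul_ne_zero (neg_ne_zero.2 Complex.I_ne_zero) (by exact_mod_cast hσ)
  constructor
  · intro hT l hlm hl L hL _
    have h1 := chart_TC C hF's hF'span (m := m) (fun r A w hw hwm => by
      have e1 : KA F' A = fun j => lift π Φ ⟨FA F (A j), 0⟩ := by
        funext j; exact cmb_lift F (A j)
      rw [brK_eq, e1]
      have e2 : w.map (KL fun j => lift π Φ ⟨FA F (A j), 0⟩) =
          (w.map fun κ => lf (FA F (A κ.1)) κ.2).map (lift π Φ) := by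
        rw [List.map_map]
        refine List.map_congr_left fun κ _ => ?_
        exact KL_lift (fun j => FA F (A j)) κ
      rw [e2, hCη, D.br_pair (by simpa using hw)]
      · rw [hT _ (by simpa using hw) (by simpa using hwm), mul_zero]
        intro X hX
        obtain ⟨κ, _, rfl⟩ := List.mem_map.1 hX
        exact isM1_lf (FA_sec hF _) _
      · intro X hX
        obtain ⟨κ, _, rfl⟩ := List.mem_map.1 hX
        exact isM1_lf (FA_sec hF _) _)
      (l := l.map (lift π Φ)) (by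
        intro Y hY
        obtain ⟨X, hX, rfl⟩ := List.mem_map.1 hY
        exact D.mbX hF hspan hind (hl X hX)) (by simpa using hlm) (D.secB hF hspan hind hL)
    rw [hCη, D.act_lev hL hl] at h1
    exact (mul_eq_zero.1 h1).resolve_left hc0
  · intro hC l hne hlm hl
    have h1 := chart_CT C hF's hF'span (m := m) (fun w hw a ha => by
      have hLp : FA F a (Φ x0) ≠ 0 := by
        intro h0
        apply ha
        funext j
        exact Fintype.linearIndependent_iff.1 hind a h0 j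
      have e0 : lvi C.η F' a = pair (eta ρ Φ σ) (lieBr (lift π Φ ⟨FA F a, 0⟩)
          (cjVF (lift π Φ ⟨FA F a, 0⟩))) := by
        rw [hCη, lvi, cmb_lift F a]
      have e2 : (w.map (KL F')).reverse =
          ((w.map fun κ => lf (F κ.1) κ.2).reverse).map (lift π Φ) := by
        rw [List.map_reverse, List.map_map]
        congr 1
        refine List.map_congr_left fun κ _ => ?_
        exact KL_lift F κ
      have hM1 : ∀ X ∈ (w.map fun κ => lf (F κ.1) κ.2).reverse, IsM1 V M B X := by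
        intro X hX
        rw [List.mem_reverse] at hX
        obtain ⟨κ, _, rfl⟩ := List.mem_map.1 hX
        exact isM1_lf (hF _) _
      rw [opK_eq, e0, e2, D.act_lev (FA_sec hF a) hM1,
        hC _ (by simpa using hw) hM1 _ (FA_sec hF a) hLp, mul_zero])
      (l := l.map (lift π Φ)) (by simpa using hne) (by
        intro Y hY
        obtain ⟨X, hX, rfl⟩ := List.mem_map.1 hY
        exact D.mbX hF hspan hind (hl X hX)) (by simpa using hlm)
    rw [hCη, D.br_pair hne hl] at h1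
    exact (mul_eq_zero.1 h1).resolve_left hc0

end main

/-- the key equivalence -/
theorem TVa_iff_CVa {n s : ℕ} {U V M : Set (Cn n)} {ρ : Cn n → ℝ}
    {B : Cn n → Submodule ℂ (Cn n)} (hM : IsHypersurface U ρ M) (hP : Pseudoconvex ρ M)
    (hB : IsSubbundle M ρ s B) (hV : IsOpen V) (hVU : V ⊆ U) {p : Cn n} (hp : p ∈ M) (hpV : p ∈ V)
    (m : ℕ) : TVa V M ρ B p m ↔ CVa V M ρ B p m := by
  rcases n with _ | k
  · exfalso
    apply hM.ne p hp
    refine ContinuousLinearMap.ext fun v => ?_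
    rw [Subsingleton.elim v 0, map_zero, map_zero]
  · have hρ : SmA p ρ := SmA.of_on hM.isOpen (hVU hpV) hM.smooth
    have h0 : ρ p = 0 := by
      have := hp
      rw [hM.eq] at this
      exact this.2
    obtain ⟨π, Φ, x0, rfl, hc⟩ := exists_chart hρ h0 (hM.ne p hp)
    exact TVa_iff_CVa' ⟨hc, hM, hB, hV, hVU, hp, hpV⟩ hP m

end Pool.Agent.W737.Sub.FT
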