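import Pool.Agent.W737.Sub.Amb5

/-! Types. -/

set_option autoImplicit false

open scoped ContDiff Topology BigOperators
open Finset Filter DAng

namespace Pool.Agent.W737.Sub.FT

variable {n s : ℕ} {U V M : Set (Cn n)} {ρ : Cn n → ℝ} {B : Cn n → Submodule ℂ (Cn n)} {p : Cn n}

lemma vact_coord (X : VF n) (j : Fin n) (c : ℂ) (z : Cn n) : X.act (fun w => w j + c) z = X.a z j := by
  have h1 : HasFDerivAt (fun w : Cn n => w j + c) (ContinuousLinearMap.proj j : Cn n →L[ℝ] ℂ) z :=
    ((ContinuousLinearMap.proj j : Cn n →L[ℝ] ℂ).hasFDerivAt (x := z)).add_const c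
  rw [act_eq_cx, h1.fderiv]
  exact cx_proj _ _ j _ fun v => rfl

lemma vact_conjcoord (X : VF n) (j : Fin n) (c : ℂ) (z : Cn n) :
    X.act (fun w => (starRingEnd ℂ) (w j + c)) z = X.b z j := by
  have h1 : HasFDerivAt (fun w : Cn n => w j + c) (ContinuousLinearMap.proj j : Cn n →L[ℝ] ℂ) z :=
    ((ContinuousLinearMap.proj j : Cn n →L[ℝ] ℂ).hasFDerivAt (x := z)).add_const c
  have h2 : HasFDerivAt (fun w : Cn n => (starRingEnd ℂ) (w j + c))
      ((Complex.conjCLE : ℂ →L[ℝ] ℂ).comp (ContinuousLinearMap.proj j : Cn n →L[ℝ] ℂ)) z :=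
    (Complex.conjCLE : ℂ →L[ℝ] ℂ).hasFDerivAt.comp z h1
  rw [act_eq_cx, h2.fderiv]
  exact cx_conjproj _ _ j _ fun v => rfl

lemma contDiff_coord (j : Fin n) (c : ℂ) : ContDiff ℝ ∞ (fun w : Cn n => w j + c) :=
  (ContinuousLinearMap.proj j : Cn n →L[ℝ] ℂ).contDiff.add contDiff_const

/-- a nonvanishing derivative of order `j` gives one of order `j + 1` -/
theorem raise (hρ : SmA p ρ) (hV : IsOpen V) (hpV : p ∈ V) {l : List (VF n)}
    (hl : ∀ X ∈ l, IsM1 V M B X) {L : Cn n → Cn n} (hL : IsSection V M B L) (hLp : L p ≠ 0)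
    (hne : iterAct l (lev ρ L) p ≠ 0) :
    ∃ l' : List (VF n), l'.length = l.length + 1 ∧ (∀ X ∈ l', IsM1 V M B X) ∧
      ∃ L', IsSection V M B L' ∧ L' p ≠ 0 ∧ iterAct l' (lev ρ L') p ≠ 0 := by
  obtain ⟨j, hj⟩ : ∃ j, L p j ≠ 0 := by
    by_contra h
    push Not at h
    exact hLp (funext h)
  have hM1 : IsM1 V M B ⟨L, 0⟩ := by
    refine ⟨hL, ?_, ?_⟩
    · have : (fun (z : Cn n) (j : Fin n) =>
          (starRingEnd ℂ) ((0 : Cn n → Cn n) z j)) = fun _ => 0 := by
        funext z j; simp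
      show ContDiffOn ℝ ∞ (fun (z : Cn n) (j : Fin n) =>
          (starRingEnd ℂ) ((0 : Cn n → Cn n) z j)) V
      rw [this]
      exact contDiffOn_const
    · intro z _
      have : (fun j : Fin n => (starRingEnd ℂ) ((0 : Cn n → Cn n) z j)) = 0 := by
        funext j; simp
      show (fun j : Fin n => (starRingEnd ℂ) ((0 : Cn n → Cn n) z j)) ∈ B z
      rw [this]
      exact Submodule.zero_mem _
  have hLs : SmA p L := SmA.of_on hV hpV hL.1
  cases l with
  | nil =>
    -- multiply `L` by a function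
    by_cases he : (⟨L, 0⟩ : VF n).act (lev ρ L) p = 0
    · let g : Cn n → ℂ := fun w => w j + (1 - p j)
      have hg : ContDiff ℝ ∞ g := contDiff_coord j _
      have hgp : g p = 1 := by simp [g]
      have hgd : DifferentiableAt ℝ g p := hg.contDiffAt.differentiableAt (by simp)
      have hgcd : DifferentiableAt ℝ (fun w => (starRingEnd ℂ) (g w)) p :=
        (Complex.conjCLE.differentiableAt).comp p hgd
      have hlev : DifferentiableAt ℝ (lev ρ L) p := (smA_lev hρ hLs).differentiableAt.self_of_nhds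
      refine ⟨[⟨L, 0⟩], rfl, by simpa using hM1, fun z => g z • L z, ⟨?_, ?_⟩, ?_, ?_⟩
      · exact hg.contDiffOn.smul hL.1
      · exact fun z hz => Submodule.smul_mem _ _ (hL.2 z hz)
      · show g p • L p ≠ 0
        rw [hgp, one_smul]; exact hLp
      · have e1 : lev ρ (fun z => g z • L z) = fun z => g z * ((starRingEnd ℂ) (g z) * lev ρ L z) := by
          funext z
          simp only [lev, leviForm, Pi.smul_apply, smul_eq_mul, map_mul, Finset.mul_sum]
          exact Finset.sum_congr rfl fun a _ => Finset.sum_congr rfl fun b _ => by ring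
        show (⟨L, 0⟩ : VF n).act (lev ρ fun z => g z • L z) p ≠ 0
        rw [e1, vact_mul (g := fun z => (starRingEnd ℂ) (g z) * lev ρ L z) hgd (hgcd.mul hlev),
          vact_mul hgcd hlev, he, hgp, map_one]
        have e2 : (⟨L, 0⟩ : VF n).act g p = L p j := vact_coord _ j _ p
        have e3 : (⟨L, 0⟩ : VF n).act (fun w => (starRingEnd ℂ) (g w)) p = 0 := vact_conjcoord _ j _ p
        rw [e2, e3]
        simp only [one_mul, zero_mul, mul_zero, add_zero]
        exact mul_ne_zero hj hne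
    · exact ⟨[⟨L, 0⟩], rfl, by simpa using hM1, L, hL, hLp, he⟩
  | cons F l0 =>
    have hF := hl F (by simp)
    let h : Cn n → ℂ := fun w => w j + (- p j)
    have hh : ContDiff ℝ ∞ h := contDiff_coord j _
    have hhp : h p = 0 := by simp [h]
    have hhd : DifferentiableAt ℝ h p := hh.contDiffAt.differentiableAt (by simp)
    let hF' : VF n := ⟨fun z => h z • F.a z, fun z => h z • F.b z⟩
    have hM1' : IsM1 V M B hF' := by
      refine ⟨⟨hh.contDiffOn.smul hF.1.1, fun z hz => Submodule.smul_mem _ _ (hF.1.2 z hz)⟩, ?_, ?_⟩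
      · have e1 : (fun z j => (starRingEnd ℂ) (hF'.b z j)) =
            fun z => (starRingEnd ℂ) (h z) • (fun j => (starRingEnd ℂ) (F.b z j)) := by
          funext z i
          simp only [hF', Pi.smul_apply, smul_eq_mul, map_mul]
        rw [e1]
        have h2 : ContDiff ℝ ∞ (fun z => (starRingEnd ℂ) (h z)) := Complex.conjCLE.contDiff.comp hh
        exact h2.contDiffOn.smul hF.2.1
      · intro z hz
        have e1 : (fun j => (starRingEnd ℂ) (hF'.b z j)) =
            (starRingEnd ℂ) (h z) • (fun j => (starRingEnd ℂ) (F.b z j)) := by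
          funext i
          simp only [hF', Pi.smul_apply, smul_eq_mul, map_mul]
        show (fun j => (starRingEnd ℂ) (hF'.b z j)) ∈ B z
        rw [e1]
        exact Submodule.smul_mem _ _ (hF.2.2 z hz)
    set u := iterAct l0 (lev ρ L) with hu
    have hus : SmA p u := smA_iterAct l0 (fun X hX => smo_of_M1 hV hpV (hl X (List.mem_cons_of_mem _ hX)))
      (smA_lev hρ hLs)
    have hFu : DifferentiableAt ℝ (F.act u) p :=
      (SmA.vact (smo_of_M1 hV hpV hF) hus).differentiableAt.self_of_nhds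
    refine ⟨⟨L, 0⟩ :: hF' :: l0, by simp, ?_, L, hL, hLp, ?_⟩
    · intro X hX
      rcases List.mem_cons.1 hX with rfl | hX
      · exact hM1
      · rcases List.mem_cons.1 hX with rfl | hX
        · exact hM1'
        · exact hl X (List.mem_cons_of_mem _ hX)
    · show (⟨L, 0⟩ : VF n).act (hF'.act u) p ≠ 0
      have e1 : hF'.act u = fun z => h z * F.act u z := by
        funext z
        simp only [VF.act, hF', Pi.smul_apply, smul_eq_mul, Finset.mul_sum]
        exact Finset.sum_congr rfl fun a _ => by ring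
      rw [e1, vact_mul hhd hFu, hhp, zero_mul, add_zero]
      have e2 : (⟨L, 0⟩ : VF n).act h p = L p j := vact_coord _ j _ p
      rw [e2]
      exact mul_ne_zero hj hne

lemma raise_to (hρ : SmA p ρ) (hV : IsOpen V) (hpV : p ∈ V) (t : ℕ) : ∀ {l : List (VF n)},
    (∀ X ∈ l, IsM1 V M B X) → ∀ {L : Cn n → Cn n}, IsSection V M B L → L p ≠ 0 →
    iterAct l (lev ρ L) p ≠ 0 →
    ∃ l' : List (VF n), l'.length = l.length + t ∧ (∀ X ∈ l', IsM1 V M B X) ∧
      ∃ L', IsSection V M B L' ∧ L' p ≠ 0 ∧ iterAct l' (lev ρ L') p ≠ 0 := by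
  induction t with
  | zero => exact fun {l} hl {L} hL hLp h => ⟨l, rfl, hl, L, hL, hLp, h⟩
  | succ t ih =>
    intro l hl L hL hLp h
    obtain ⟨l1, h1, h2, L1, h3, h4, h5⟩ := ih hl hL hLp h
    obtain ⟨l2, g1, g2, L2, g3, g4, g5⟩ := raise hρ hV hpV h2 h3 h4 h5
    exact ⟨l2, by omega, g2, L2, g3, g4, g5⟩

lemma hasLevi_iff (hρ : SmA p ρ) (hV : IsOpen V) (hpV : p ∈ V) (m : ℕ) :
    HasLeviType V M ρ B p m ↔ 2 ≤ m ∧ CVa V M ρ B p (m - 1) ∧ ¬ CVa V M ρ B p m := by
  constructor
  · rintro ⟨h1, h2, l, h3, h4, L, h5, h6, h7⟩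
    refine ⟨h1, ?_, fun h => h7 (h l (by omega) h4 L h5 h6)⟩
    intro l' hl' hM L' hL' hLp'
    by_contra hne
    obtain ⟨l2, g1, g2, L2, g3, g4, g5⟩ := raise_to hρ hV hpV (m - 3 - l'.length) hM hL' hLp' hne
    exact g5 (h2 l2 (by omega) g2 L2 g3 g4)
  · rintro ⟨h1, h2, h3⟩
    refine ⟨h1, fun l hl hM L hL hLp => h2 l (by omega) hM L hL hLp, ?_⟩
    unfold CVa at h3
    push Not at h3
    obtain ⟨l, g1, g2, L, g3, g4, g5⟩ := h3
    refine ⟨l, ?_, g2, L, g3, g4, g5⟩
    by_contra hlen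
    exact g5 (h2 l (by omega) g2 L g3 g4)

lemma inMod_zero {m : ℕ} (hm : 1 ≤ m) (h : TVa V M ρ B p m) {G : VF n} (hG : InMod V M B m G) :
    G.dpair ρ p = 0 := by
  induction hG with
  | @base X hX => exact h [X] (by simp) (by simpa using hm) (by simpa using hX)
  | @comm l h1 h2 h3 => exact h l (by rintro rfl; simp at h1) h2 h3
  | @add X Y _ _ h1 h2 =>
    have : VF.dpair ρ ⟨fun z => X.a z + Y.a z, fun z => X.b z + Y.b z⟩ p =
        X.dpair ρ p + Y.dpair ρ p := by
      simp only [VF.dpair, Pi.add_apply, mul_add, Finset.sum_add_distrib]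
    rw [this, h1, h2, add_zero]
  | @smul X f _ _ h1 =>
    have : VF.dpair ρ ⟨fun z => f z • X.a z, fun z => f z • X.b z⟩ p = f p * X.dpair ρ p := by
      simp only [VF.dpair, Pi.smul_apply, smul_eq_mul, Finset.mul_sum]
      exact Finset.sum_congr rfl fun i _ => by ring
    rw [this, h1, mul_zero]

lemma exists_inMod_iff {m : ℕ} (hm : 1 ≤ m) :
    (∃ G : VF n, InMod V M B m G ∧ G.dpair ρ p ≠ 0) ↔ ¬ TVa V M ρ B p m := by
  constructor
  · rintro ⟨G, hG, hne⟩ h
    exact hne (inMod_zero hm h hG)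
  · intro h
    unfold TVa at h
    push Not at h
    obtain ⟨l, h1, h2, h3, h4⟩ := h
    refine ⟨iterBr l, ?_, h4⟩
    by_cases h5 : 2 ≤ l.length
    · exact InMod.comm h5 h2 h3
    · have h6 : l.length = 1 := by
        have := List.length_pos_of_ne_nil h1
        omega
      obtain ⟨X, rfl⟩ := List.length_eq_one_iff.1 h6
      exact InMod.base (h3 X (by simp))

theorem types (hM : IsHypersurface U ρ M) (hP : Pseudoconvex ρ M)
    (hB : IsSubbundle M ρ s B) (hV : IsOpen V) (hVU : V ⊆ U) (hp : p ∈ M ∩ V) :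
    (∀ m : ℕ, HasLeviType V M ρ B p m ↔ commType V M ρ B p = m) ∧
      commType V M ρ B p = leviType V M ρ B p := by
  have hρ : SmA p ρ := SmA.of_on hM.isOpen (hVU hp.2) hM.smooth
  have hiff := TVa_iff_CVa hM hP hB hV hVU hp.1 hp.2
  have hset : commType V M ρ B p = sInf {k : ℕ∞ | ∃ m : ℕ, 1 ≤ m ∧ k = m ∧ ¬ CVa V M ρ B p m} := by
    unfold commType
    congr 1
    ext k
    constructor
    · rintro ⟨m, h1, h2, h3⟩
      exact ⟨m, h1, h2, fun h => ((exists_inMod_iff h1).1 h3) ((hiff m).2 h)⟩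
    · rintro ⟨m, h1, h2, h3⟩
      exact ⟨m, h1, h2, (exists_inMod_iff h1).2 fun h => h3 ((hiff m).1 h)⟩
  have hmono : ∀ m m' : ℕ, m ≤ m' → CVa V M ρ B p m' → CVa V M ρ B p m := by
    intro m m' h h1 l hl
    exact h1 l (hl.trans h)
  have hone : CVa V M ρ B p 1 := by
    intro l hl
    omega
  have hmain : ∀ m : ℕ, HasLeviType V M ρ B p m ↔ commType V M ρ B p = m := by
    intro m
    rw [hasLevi_iff hρ hV hp.2, hset]
    constructor
    · rintro ⟨h1, h2, h3⟩
      apply le_antisymm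
      · exact sInf_le ⟨m, by omega, rfl, h3⟩
      · refine le_sInf ?_
        rintro k ⟨m', h4, rfl, h5⟩
        by_contra hlt
        push Not at hlt
        have h6 : m' < m := by exact_mod_cast hlt
        exact h5 (hmono m' (m - 1) (by omega) h2)
    · intro h
      have hne : {k : ℕ∞ | ∃ m : ℕ, 1 ≤ m ∧ k = m ∧ ¬ CVa V M ρ B p m}.Nonempty := by
        by_contra hemp
        rw [Set.not_nonempty_iff_eq_empty] at hemp
        rw [hemp, sInf_empty] at h
        exact absurd h (by simp)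
      obtain ⟨m', h1, h2, h3⟩ := csInf_mem hne
      rw [h] at h2
      have h4 : m = m' := by exact_mod_cast h2
      subst h4
      refine ⟨?_, ?_, h3⟩
      · by_contra hlt
        have : m = 1 := by omega
        subst this
        exact h3 hone
      · by_contra hc
        have h5 : 1 ≤ m - 1 := by
          by_contra h6
          have : m = 1 := by omega
          subst this
          exact h3 hone
        have h6 := sInf_le (a := ((m - 1 : ℕ) : ℕ∞))
          (show _ ∈ {k : ℕ∞ | ∃ m : ℕ, 1 ≤ m ∧ k = m ∧ ¬ CVa V M ρ B p m} from ⟨m - 1, h5, rfl, hc⟩)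
        rw [h] at h6
        have h7 : m ≤ m - 1 := by exact_mod_cast h6
        omega
  refine ⟨hmain, ?_⟩
  unfold leviType
  simp only [hmain]
  apply le_antisymm
  · refine le_sInf ?_
    rintro k ⟨m, rfl, h⟩
    exact h.le
  · rcases eq_or_ne (commType V M ρ B p) ⊤ with h | h
    · rw [h]; exact le_top
    · obtain ⟨m, hm⟩ := ENat.ne_top_iff_exists.1 h
      exact sInf_le ⟨m, hm.symm, hm.symm⟩

end Pool.Agent.W737.Sub.FT
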