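import Pool.Agent.W737.Sub.Step
import Pool.Agent.DAng.Final

/-! Weighted classes of fields and functions. -/

set_option autoImplicit false

open scoped ContDiff Topology BigOperators
open Finset Filter DAng

namespace Pool.Agent.W737.Sub

variable {d r : ℕ}

section general
variable {m : ℕ} {q : E m}

lemma lieBr_congr {X X' Y Y' : CVF m} (hX : X =ᶠ[𝓝 q] X') (hY : Y =ᶠ[𝓝 q] Y') :
    lieBr X Y =ᶠ[𝓝 q] lieBr X' Y' := by
  have h1 : ∀ i, act X (fun y => Y y i) =ᶠ[𝓝 q] act X' (fun y => Y' y i) := fun i =>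
    act_congr hX (by filter_upwards [hY] with y hy; rw [hy])
  have h2 : ∀ i, act Y (fun y => X y i) =ᶠ[𝓝 q] act Y' (fun y => X' y i) := fun i =>
    act_congr hY (by filter_upwards [hX] with y hy; rw [hy])
  filter_upwards [eventually_all.2 h1, eventually_all.2 h2] with y h3 h4
  funext i
  simp only [lieBr, h3 i, h4 i]

lemma lieBr_add_right {X U V : CVF m} (hU : Sm q U) (hV : Sm q V) :
    lieBr X (fun y i => U y i + V y i) =ᶠ[𝓝 q] fun y i => lieBr X U y i + lieBr X V y i := by
  have h1 : ∀ i, ∀ᶠ x in 𝓝 q, DifferentiableAt ℝ (fun y => U y i) x := fun i =>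
    (hU.comp_apply i).differentiableAt
  have h2 : ∀ i, ∀ᶠ x in 𝓝 q, DifferentiableAt ℝ (fun y => V y i) x := fun i =>
    (hV.comp_apply i).differentiableAt
  filter_upwards [eventually_all.2 h1, eventually_all.2 h2] with y h3 h4
  funext i
  simp only [lieBr]
  rw [act_add (h3 i) (h4 i), act_add_field' U V]
  ring

lemma lieBr_smul_right {X U : CVF m} (c : ℂ) (hU : Sm q U) :
    lieBr X (fun y i => c * U y i) =ᶠ[𝓝 q] fun y i => c * lieBr X U y i := by
  have h1 : ∀ i, ∀ᶠ x in 𝓝 q, DifferentiableAt ℝ (fun y => U y i) x := fun i =>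
    (hU.comp_apply i).differentiableAt
  filter_upwards [eventually_all.2 h1] with y h3
  funext i
  simp only [lieBr]
  rw [act_const_mul c X (h3 i), act_smul_field c U]
  ring

lemma lieBr_antisymm (X Y : CVF m) : lieBr X Y = fun y i => (-1 : ℂ) * lieBr Y X y i := by
  funext y i
  simp only [lieBr]; ring

lemma lieBr_add_left {X U V : CVF m} (hU : Sm q U) (hV : Sm q V) :
    lieBr (fun y i => U y i + V y i) X =ᶠ[𝓝 q] fun y i => lieBr U X y i + lieBr V X y i := by
  filter_upwards [lieBr_add_right (X := X) hU hV] with y hy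
  funext i
  rw [lieBr_antisymm, lieBr_antisymm U X, lieBr_antisymm V X]
  show (-1 : ℂ) * lieBr X (fun y i => U y i + V y i) y i = _
  rw [hy]
  ring

lemma lieBr_smul_left {X U : CVF m} (c : ℂ) (hU : Sm q U) :
    lieBr (fun y i => c * U y i) X =ᶠ[𝓝 q] fun y i => c * lieBr U X y i := by
  filter_upwards [lieBr_smul_right (X := X) c hU] with y hy
  funext i
  rw [lieBr_antisymm, lieBr_antisymm U X]
  show (-1 : ℂ) * lieBr X (fun y i => c * U y i) y i = _
  rw [hy]
  ring

lemma lieBr_zero_right (X : CVF m) : lieBr X (fun _ _ => 0) = fun _ _ => 0 := by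
  funext y i
  simp only [lieBr]
  rw [act_const]
  simp [act]

lemma act_fun_add {X : CVF m} {f g : CF m} (hf : Sm q f) (hg : Sm q g) :
    act X (fun y => f y + g y) =ᶠ[𝓝 q] fun y => act X f y + act X g y := by
  filter_upwards [hf.differentiableAt, hg.differentiableAt] with y h1 h2
  exact act_add h1 h2

lemma act_fun_smul {X : CVF m} (c : ℂ) {f : CF m} (hf : Sm q f) :
    act X (fun y => c * f y) =ᶠ[𝓝 q] fun y => c * act X f y := by
  filter_upwards [hf.differentiableAt] with y h1
  exact act_const_mul c X h1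

end general

/-! ### the class of fields -/

/-- germs of sums of fields `c ζ^a ζ̄^b [K]_w` with `|w| ≥ ℓ`, `(2r+1)|w| ≤ a + b + k` -/
inductive VC (p : E d) (K : Fin r → CVF d) (ℓ k : ℕ) : CVF (d + 2) → Prop
  | zero : VC p K ℓ k (fun _ _ => 0)
  | mono (e : Bool → ℕ) (w : List (Lt r)) (c : ℂ) (hw : w ≠ []) (hl : ℓ ≤ w.length)
      (h : (2 * r + 1) * w.length ≤ e true + e false + k) :
      VC p K ℓ k (fun y i => c * T e (brK K w) y i)
  | add {U V : CVF (d + 2)} : VC p K ℓ k U → VC p K ℓ k V → VC p K ℓ k (fun y i => U y i + V y i)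
  | congr {U V : CVF (d + 2)} : VC p K ℓ k U → V =ᶠ[𝓝 (inc p)] U → VC p K ℓ k V

variable {p : E d} {K : Fin r → CVF d}

lemma VC.sum {ℓ k : ℕ} {ι : Type*} (s : Finset ι) {U : ι → CVF (d + 2)}
    (h : ∀ a ∈ s, VC p K ℓ k (U a)) : VC p K ℓ k (fun y i => ∑ a ∈ s, U a y i) := by
  classical
  induction s using Finset.induction_on with
  | empty => simpa using VC.zero
  | insert a s ha ih =>
    simp only [Finset.sum_insert ha]
    exact VC.add (h a (by simp)) (ih fun b hb => h b (by simp [hb]))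

lemma VC.sm (hK : ∀ j, Sm p (K j)) {ℓ k : ℕ} {U : CVF (d + 2)} (h : VC p K ℓ k U) :
    Sm (inc p) U := by
  induction h with
  | zero => exact Sm.const (p := inc p) (0 : Fin (d + 2) → ℂ)
  | mono e w c hw hl h =>
    exact Sm.of_apply fun i => (Sm.const c).mul ((sm_T (sm_brK hK w) e).comp_apply i)
  | add _ _ h1 h2 => exact Sm.of_apply fun i => (h1.comp_apply i).add (h2.comp_apply i)
  | congr _ h1 h2 => exact Sm.congr h2 h1

lemma VC.smul {ℓ k : ℕ} {U : CVF (d + 2)} (h : VC p K ℓ k U) (c : ℂ) :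
    VC p K ℓ k (fun y i => c * U y i) := by
  induction h with
  | zero => simpa using VC.zero
  | mono e w c' hw hl h =>
    refine (VC.mono e w (c * c') hw hl h).congr (Eventually.of_forall fun y => ?_)
    funext i; ring
  | add _ _ h1 h2 =>
    refine (VC.add h1 h2).congr (Eventually.of_forall fun y => ?_)
    funext i; ring
  | congr _ h1 h2 =>
    refine h2.congr ?_
    filter_upwards [h1] with y hy
    funext i; rw [hy]

lemma VC.mono_k {ℓ k k' : ℕ} (hk : k ≤ k') {U : CVF (d + 2)} (h : VC p K ℓ k U) :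
    VC p K ℓ k' U := by
  induction h with
  | zero => exact VC.zero
  | mono e w c hw hl h => exact VC.mono e w c hw hl (by omega)
  | add _ _ h1 h2 => exact VC.add h1 h2
  | congr _ h1 h2 => exact VC.congr h2 h1

lemma brK_cons {κ : Lt r} {w : List (Lt r)} (hw : w ≠ []) :
    brK K (κ :: w) = lieBr (KL K κ) (brK K w) := by
  cases w with
  | nil => exact absurd rfl hw
  | cons a w => rfl

lemma eventually_diff_pr (hK : ∀ j, Sm p (K j)) :
    ∀ᶠ y in 𝓝 (inc p), ∀ j i, DifferentiableAt ℝ (fun x => K j x i) (pr y) := by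
  have h1 : ∀ᶠ x in 𝓝 p, ∀ j i, DifferentiableAt ℝ (fun x => K j x i) x :=
    eventually_all.2 fun j => eventually_all.2 fun i => ((hK j).comp_apply i).differentiableAt
  exact tendsto_pr.eventually h1

lemma eventually_diff_pr' {X : CVF d} (hX' : Sm p X) :
    ∀ᶠ y in 𝓝 (inc p), ∀ i, DifferentiableAt ℝ (fun x => X x i) (pr y) := by
  have h1 : ∀ᶠ x in 𝓝 p, ∀ i, DifferentiableAt ℝ (fun x => X x i) x :=
    eventually_all.2 fun i => (hX'.comp_apply i).differentiableAt
  exact tendsto_pr.eventually h1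

lemma dec_sum (e : Bool → ℕ) (ε : Bool) : e true + e false ≤ dec e ε true + dec e ε false + 1 := by
  cases ε
  · have h1 : dec e false true = e true := Function.update_of_ne (by simp) _ _
    have h2 : dec e false false = e false - 1 := Function.update_self _ _ _
    rw [h1, h2]; omega
  · have h1 : dec e true false = e false := Function.update_of_ne (by simp) _ _
    have h2 : dec e true true = e true - 1 := Function.update_self _ _ _
    rw [h1, h2]; omega

lemma VC.T_step (hK : ∀ j, Sm p (K j)) {ℓ k : ℕ} (ε : Bool) (e : Bool → ℕ) {w : List (Lt r)}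
    (hw : w ≠ []) (hl : ℓ ≤ w.length) (h : (2 * r + 1) * w.length ≤ e true + e false + k) :
    VC p K ℓ (k + 1) (lieBr (LX (LL K) ε) (T e (brK K w))) := by
  have h1 : VC p K ℓ (k + 1) (fun y i => e ε * T (dec e ε) (brK K w) y i +
      ∑ j, 1 * T (e + mu j ε) (brK K ((j, ε) :: w)) y i) := by
    refine VC.add (VC.mono _ w _ hw hl ?_) (VC.sum _ fun j _ => VC.mono _ _ _ (by simp) ?_ ?_)
    · have := dec_sum e ε
      omega
    · simp only [List.length_cons]; omega
    · have := mu_sum j ε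
      simp only [List.length_cons, Pi.add_apply]
      nlinarith
  refine h1.congr ?_
  filter_upwards [eventually_diff_pr hK, eventually_diff_pr' (sm_brK hK w)] with y h2 h3
  funext i
  rw [step_br K ε e h2 h3 i]
  congr 1
  refine Finset.sum_congr rfl fun j _ => ?_
  rw [brK_cons hw, one_mul]
  rfl

lemma VC.step (hK : ∀ j, Sm p (K j)) {ℓ k : ℕ} (ε : Bool) {U : CVF (d + 2)} (h : VC p K ℓ k U) :
    VC p K ℓ (k + 1) (lieBr (LX (LL K) ε) U) := by
  induction h with
  | zero => rw [lieBr_zero_right]; exact VC.zero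
  | mono e w c hw hl h =>
    refine ((VC.T_step hK ε e hw hl h).smul c).congr ?_
    exact lieBr_smul_right c (sm_T (sm_brK hK w) e)
  | add h1 h2 ih1 ih2 =>
    exact (VC.add ih1 ih2).congr (lieBr_add_right (h1.sm hK) (h2.sm hK))
  | congr _ h1 ih =>
    exact ih.congr (lieBr_congr EventuallyEq.rfl h1)

/-- the horizontal part of `L'` is in the class -/
lemma VC.base (ε : Bool) :
    VC p K 1 1 (fun y i => ∑ j, 1 * T (mu j ε) (brK K [(j, ε)]) y i) := by
  refine VC.sum _ fun j _ => VC.mono _ _ _ (by simp) (by simp) ?_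
  have := mu_sum j ε
  simp only [List.length_cons, List.length_nil]
  omega

lemma LX_LL' (K : Fin r → CVF d) (ε : Bool) : LX (LL K) ε =
    fun y i => LX Zf ε y i + ∑ j, 1 * T (mu j ε) (brK K [(j, ε)]) y i := by
  rw [LX_LL]
  funext y i
  congr 1
  refine Finset.sum_congr rfl fun j _ => ?_
  rw [one_mul]; rfl

lemma sm_LXZ (q : E (d + 2)) (ε : Bool) : Sm q (LX (Zf : CVF (d + 2)) ε) := (sm_Zf q).LX ε

lemma VC.base2 (hK : ∀ j, Sm p (K j)) (ε ε' : Bool) :
    VC p K 1 2 (lieBr (LX (LL K) ε) (LX (LL K) ε')) := by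
  have h0 : VC p K 1 2 (lieBr (LX (LL K) ε) (LX Zf ε')) := by
    have h1 : VC p K 1 2 (fun y i => ∑ j, (-(mu j ε ε' : ℂ)) * T (dec (mu j ε) ε') (brK K [(j, ε)]) y i) := by
      refine VC.sum _ fun j _ => VC.mono _ _ _ (by simp) (by simp) ?_
      have h2 := mu_sum j ε
      have h3 := dec_sum (mu j ε) ε'
      simp only [List.length_cons, List.length_nil]
      omega
    refine h1.congr ?_
    filter_upwards [eventually_diff_pr hK] with y hy
    funext i
    rw [base_br K ε ε' hy i, ← Finset.sum_neg_distrib]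
    refine Finset.sum_congr rfl fun j _ => ?_
    rw [neg_mul]; rfl
  have h1 := (VC.base (p := p) (K := K) ε').step hK ε
  rw [LX_LL' K ε']
  exact (VC.add h0 h1).congr (lieBr_add_right (sm_LXZ _ ε') ((VC.base (p := p) (K := K) ε').sm hK))

lemma VC.word (hK : ∀ j, Sm p (K j)) : ∀ (W : List Bool), 2 ≤ W.length →
    VC p K 1 W.length (brVF (LL K) W)
  | [], h => by simp at h
  | [_], h => by simp at h
  | [a, b], _ => VC.base2 hK a b
  | a :: b :: c :: W, _ => by
    have h1 := VC.word hK (b :: c :: W) (by simp)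
    exact h1.step hK a

/-- the lifted one-form -/
def liftη (η : E d → Fin d → ℝ) : E (d + 2) → Fin (d + 2) → ℝ :=
  fun y => Fin.addCases (motive := fun _ => ℝ) (η (pr y)) (fun _ => 0)

lemma pair_liftη (η : E d → Fin d → ℝ) (U : CVF (d + 2)) (y : E (d + 2)) :
    pair (liftη η) U y = ∑ i, (η (pr y) i : ℂ) * U y (Fin.castAdd 2 i) := by
  simp only [pair]
  rw [sum_split]
  simp [liftη]

lemma pair_liftη_T (η : E d → Fin d → ℝ) (e : Bool → ℕ) (X : CVF d) (y : E (d + 2)) :
    pair (liftη η) (T e X) y = mo e y * pair η X (pr y) := by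
  rw [pair_liftη]
  simp only [pair, T, hX_left, Finset.mul_sum]
  exact Finset.sum_congr rfl fun i _ => by ring

lemma VC.pair_zero (η : E d → Fin d → ℝ) {ℓ k : ℕ} {U : CVF (d + 2)} (h : VC p K ℓ k U)
    (h0 : ∀ w : List (Lt r), w ≠ [] → (2 * r + 1) * w.length ≤ k → pair η (brK K w) p = 0) :
    pair (liftη η) U (inc p) = 0 := by
  induction h with
  | zero => simp [pair]
  | mono e w c hw hl h =>
    have h1 : pair (liftη η) (fun y i => c * T e (brK K w) y i) (inc p) =
        c * pair (liftη η) (T e (brK K w)) (inc p) := by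
      simp only [pair, Finset.mul_sum]
      exact Finset.sum_congr rfl fun i _ => by ring
    rw [h1, pair_liftη_T, pr_inc]
    by_cases he : e true + e false = 0
    · rw [h0 w hw (by omega), mul_zero, mul_zero]
    · rw [mo_inc e p he, zero_mul, mul_zero]
  | add _ _ h1 h2 =>
    have : ∀ U V : CVF (d + 2), pair (liftη η) (fun y i => U y i + V y i) (inc p) =
        pair (liftη η) U (inc p) + pair (liftη η) V (inc p) := by
      intro U V
      simp only [pair, mul_add, Finset.sum_add_distrib]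
    rw [this, h1, h2, add_zero]
  | congr _ h1 h2 =>
    have := h1.self_of_nhds
    simp only [pair] at h2 ⊢
    rw [this]; exact h2

/-- (i): lower bound for the commutator type of `L'` -/
theorem lower_br (hK : ∀ j, Sm p (K j)) (η : E d → Fin d → ℝ) {m : ℕ}
    (h0 : ∀ w : List (Lt r), w ≠ [] → w.length ≤ m → pair η (brK K w) p = 0)
    (W : List Bool) (hW : 2 ≤ W.length) (hWm : W.length < (2 * r + 1) * (m + 1)) :
    pair (liftη η) (brVF (LL K) W) (inc p) = 0 := by
  refine (VC.word hK W hW).pair_zero η fun w hw hle => h0 w hw ?_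
  by_contra hcon
  push Not at hcon
  have : (2 * r + 1) * (m + 1) ≤ (2 * r + 1) * w.length := Nat.mul_le_mul_left _ hcon
  omega

/-! ### the class of functions -/

/-- germs of sums of functions `c ζ^a ζ̄^b (w g)` with `g ∈ G`, `|w| ≥ ℓ` and
`4r + (2r+1)|w| ≤ a + b + k` -/
inductive FC (p : E d) (K : Fin r → CVF d) (G : Set (CF d)) (ℓ k : ℕ) : CF (d + 2) → Prop
  | zero : FC p K G ℓ k (fun _ => 0)
  | mono (e : Bool → ℕ) (w : List (Lt r)) (c : ℂ) (g : CF d) (hg : g ∈ G) (hl : ℓ ≤ w.length)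
      (h : 4 * r + (2 * r + 1) * w.length ≤ e true + e false + k) :
      FC p K G ℓ k (fun y => c * (mo e y * opK K w g (pr y)))
  | add {U V : CF (d + 2)} : FC p K G ℓ k U → FC p K G ℓ k V → FC p K G ℓ k (fun y => U y + V y)
  | congr {U V : CF (d + 2)} : FC p K G ℓ k U → V =ᶠ[𝓝 (inc p)] U → FC p K G ℓ k V

variable {G : Set (CF d)}

lemma FC.sum {ℓ k : ℕ} {ι : Type*} (s : Finset ι) {U : ι → CF (d + 2)}
    (h : ∀ a ∈ s, FC p K G ℓ k (U a)) : FC p K G ℓ k (fun y => ∑ a ∈ s, U a y) := by
  classical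
  induction s using Finset.induction_on with
  | empty => simpa using FC.zero
  | insert a s ha ih =>
    simp only [Finset.sum_insert ha]
    exact FC.add (h a (by simp)) (ih fun b hb => h b (by simp [hb]))

lemma FC.sm (hK : ∀ j, Sm p (K j)) (hG : ∀ g ∈ G, Sm p g) {ℓ k : ℕ} {U : CF (d + 2)}
    (h : FC p K G ℓ k U) : Sm (inc p) U := by
  induction h with
  | zero => exact Sm.const (p := inc p) (0 : ℂ)
  | mono e w c g hg hl h =>
    exact (Sm.const c).mul ((sm_mo _ _).mul (Sm.comp_pr (sm_opK hK w (hG g hg))))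
  | add _ _ h1 h2 => exact h1.add h2
  | congr _ h1 h2 => exact Sm.congr h2 h1

lemma FC.smul {ℓ k : ℕ} {U : CF (d + 2)} (h : FC p K G ℓ k U) (c : ℂ) :
    FC p K G ℓ k (fun y => c * U y) := by
  induction h with
  | zero => simpa using FC.zero
  | mono e w c' g hg hl h =>
    refine (FC.mono e w (c * c') g hg hl h).congr (Eventually.of_forall fun y => ?_)
    show c * (c' * _) = _
    ring
  | add _ _ h1 h2 =>
    refine (FC.add h1 h2).congr (Eventually.of_forall fun y => ?_)
    show c * (_ + _) = _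
    ring
  | congr _ h1 h2 =>
    refine h2.congr ?_
    filter_upwards [h1] with y hy
    rw [hy]

lemma FC.mono_k {ℓ k k' : ℕ} (hk : k ≤ k') {U : CF (d + 2)} (h : FC p K G ℓ k U) :
    FC p K G ℓ k' U := by
  induction h with
  | zero => exact FC.zero
  | mono e w c g hg hl h => exact FC.mono e w c g hg hl (by omega)
  | add _ _ h1 h2 => exact FC.add h1 h2
  | congr _ h1 h2 => exact FC.congr h2 h1

lemma opK_append (K : Fin r → CVF d) (κ : Lt r) : ∀ (w : List (Lt r)) (f : CF d),
    opK K (w ++ [κ]) f = act (KL K κ) (opK K w f)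
  | [], _ => rfl
  | a :: w, f => opK_append K κ w (act (KL K a) f)

lemma FC.M_step (hK : ∀ j, Sm p (K j)) (hG : ∀ g ∈ G, Sm p g) {ℓ k : ℕ} (ε : Bool)
    (e : Bool → ℕ) {w : List (Lt r)} {g : CF d} (hg : g ∈ G)
    (hl : ℓ ≤ w.length) (h : 4 * r + (2 * r + 1) * w.length ≤ e true + e false + k) :
    FC p K G ℓ (k + 1) (act (LX (LL K) ε) (fun y => mo e y * opK K w g (pr y))) := by
  have h1 : FC p K G ℓ (k + 1) (fun y => e ε * (mo (dec e ε) y * opK K w g (pr y)) +
      ∑ j, 1 * (mo (e + mu j ε) y * opK K (w ++ [(j, ε)]) g (pr y))) := by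
    refine FC.add (FC.mono _ w _ g hg hl ?_) (FC.sum _ fun j _ => FC.mono _ _ _ g hg ?_ ?_)
    · have := dec_sum e ε
      omega
    · simp only [List.length_append, List.length_cons, List.length_nil]; omega
    · have := mu_sum j ε
      simp only [List.length_append, List.length_cons, List.length_nil, Pi.add_apply]
      nlinarith
  refine h1.congr ?_
  have h2 : ∀ᶠ y in 𝓝 (inc p), DifferentiableAt ℝ (opK K w g) (pr y) :=
    tendsto_pr.eventually (sm_opK hK w (hG g hg)).differentiableAt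
  filter_upwards [h2] with y h2
  rw [step_fun K ε e h2]
  congr 1
  refine Finset.sum_congr rfl fun j _ => ?_
  rw [opK_append, one_mul]
  rfl

lemma FC.step (hK : ∀ j, Sm p (K j)) (hG : ∀ g ∈ G, Sm p g) {ℓ k : ℕ} (ε : Bool)
    {U : CF (d + 2)} (h : FC p K G ℓ k U) : FC p K G ℓ (k + 1) (act (LX (LL K) ε) U) := by
  induction h with
  | zero =>
    have : act (LX (LL K) ε) (fun _ => (0 : ℂ)) = fun _ => 0 := by
      funext y; exact act_const _ _ _
    rw [this]; exact FC.zero
  | mono e w c g hg hl h =>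
    refine ((FC.M_step hK hG ε e hg hl h).smul c).congr ?_
    exact act_fun_smul c ((sm_mo _ _).mul (Sm.comp_pr (sm_opK hK w (hG g hg))))
  | add h1 h2 ih1 ih2 =>
    exact (FC.add ih1 ih2).congr (act_fun_add (h1.sm hK hG) (h2.sm hK hG))
  | congr _ h1 ih =>
    exact ih.congr (act_congr EventuallyEq.rfl h1)

lemma FC.word (hK : ∀ j, Sm p (K j)) (hG : ∀ g ∈ G, Sm p g) {ℓ : ℕ} : ∀ (W : List Bool) {k : ℕ}
    {U : CF (d + 2)}, FC p K G ℓ k U → FC p K G ℓ (k + W.length) (op (LL K) W U)
  | [], _, _, h => h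
  | a :: W, k, U, h => by
    have h1 := FC.word hK hG W (h.step hK hG a)
    rw [List.length_cons]
    have : k + (W.length + 1) = k + 1 + W.length := by omega
    rw [this]; exact h1

lemma FC.zero_at {ℓ k : ℕ} {U : CF (d + 2)} (h : FC p K G ℓ k U)
    (h0 : ∀ g ∈ G, ∀ w : List (Lt r), 4 * r + (2 * r + 1) * w.length ≤ k → opK K w g p = 0) :
    U (inc p) = 0 := by
  induction h with
  | zero => rfl
  | mono e w c g hg hl h =>
    show c * (mo e (inc p) * opK K w g (pr (inc p))) = 0
    rw [pr_inc]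
    by_cases he : e true + e false = 0
    · rw [h0 g hg w (by omega), mul_zero, mul_zero]
    · rw [mo_inc e p he, zero_mul, mul_zero]
  | add _ _ h1 h2 =>
    show _ + _ = _
    rw [h1, h2, add_zero]
  | congr _ h1 h2 => rw [h1.self_of_nhds]; exact h2

end Pool.Agent.W737.Sub
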