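import Mathlib

/-!
Definitions: real hypersurfaces of `ℂ^n`, subbundles of `T^{1,0}M`, commutator type, Levi-form type.
-/

set_option autoImplicit false

open scoped ContDiff

namespace Pool.Agent.W737.Sub.FT

/-- `ℂ^n` -/
abbrev Cn (n : ℕ) := Fin n → ℂ

variable {n : ℕ}

/-- the Wirtinger derivative `∂f/∂z_j` -/
noncomputable def dz (j : Fin n) (f : Cn n → ℂ) : Cn n → ℂ := fun z =>
  (fderiv ℝ f z (Pi.single j 1) - Complex.I * fderiv ℝ f z (Pi.single j Complex.I)) / 2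

/-- the Wirtinger derivative `∂f/∂z̄_j` -/
noncomputable def dzb (j : Fin n) (f : Cn n → ℂ) : Cn n → ℂ := fun z =>
  (fderiv ℝ f z (Pi.single j 1) + Complex.I * fderiv ℝ f z (Pi.single j Complex.I)) / 2

/-- the complex vector field `∑ a_j ∂/∂z_j + ∑ b_j ∂/∂z̄_j` -/
structure VF (n : ℕ) where
  a : Cn n → Cn n
  b : Cn n → Cn n

/-- the derivative `X f` -/
noncomputable def VF.act (X : VF n) (f : Cn n → ℂ) : Cn n → ℂ := fun z =>
  ∑ j, (X.a z j * dz j f z + X.b z j * dzb j f z)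

/-- the commutator `[X, Y]` -/
noncomputable def VF.br (X Y : VF n) : VF n where
  a := fun z j => X.act (fun w => Y.a w j) z - Y.act (fun w => X.a w j) z
  b := fun z j => X.act (fun w => Y.b w j) z - Y.act (fun w => X.b w j) z

/-- `⟨X, ∂ρ⟩ = ∑ ρ_{z_j} a_j` -/
noncomputable def VF.dpair (ρ : Cn n → ℝ) (X : VF n) : Cn n → ℂ := fun z =>
  ∑ j, dz j (fun w => (ρ w : ℂ)) z * X.a z j

/-- `[Y_k, [Y_{k-1}, …, [Y_2, Y_1] … ]]` for the list `[Y_k, …, Y_1]` -/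
noncomputable def iterBr : List (VF n) → VF n
  | [] => ⟨0, 0⟩
  | [Y] => Y
  | Y :: Y' :: l => Y.br (iterBr (Y' :: l))

/-- `F_k ⋯ F_1 f` for the list `[F_k, …, F_1]` -/
noncomputable def iterAct : List (VF n) → (Cn n → ℂ) → Cn n → ℂ
  | [], f => f
  | F :: l, f => F.act (iterAct l f)

/-- `M` is the smooth real hypersurface of the open set `U` with defining function `ρ` -/
structure IsHypersurface (U : Set (Cn n)) (ρ : Cn n → ℝ) (M : Set (Cn n)) : Prop where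
  isOpen : IsOpen U
  smooth : ContDiffOn ℝ ∞ ρ U
  eq : M = {z | z ∈ U ∧ ρ z = 0}
  ne : ∀ z ∈ M, fderiv ℝ ρ z ≠ 0

/-- the fibre `T^{1,0}_z M`, as a space of coefficient vectors -/
def T10 (ρ : Cn n → ℝ) (z : Cn n) : Set (Cn n) :=
  {v | ∑ j, dz j (fun w => (ρ w : ℂ)) z * v j = 0}

/-- the Levi form `λ(v, w) = ∑ ρ_{z_j z̄_l} v_j w̄_l` -/
noncomputable def leviForm (ρ : Cn n → ℝ) (z v w : Cn n) : ℂ :=
  ∑ j, ∑ l, dzb l (dz j (fun u => (ρ u : ℂ))) z * v j * (starRingEnd ℂ) (w l)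

/-- `M` is pseudoconvex: the Levi form of `ρ` or of `-ρ` is nonnegative on `T^{1,0}M` -/
def Pseudoconvex (ρ : Cn n → ℝ) (M : Set (Cn n)) : Prop :=
  (∀ z ∈ M, ∀ v ∈ T10 ρ z, 0 ≤ (leviForm ρ z v v).re) ∨
    (∀ z ∈ M, ∀ v ∈ T10 ρ z, (leviForm ρ z v v).re ≤ 0)

/-- `B` is a smooth complex subbundle of rank `s` of `T^{1,0}M` -/
structure IsSubbundle (M : Set (Cn n)) (ρ : Cn n → ℝ) (s : ℕ)
    (B : Cn n → Submodule ℂ (Cn n)) : Prop where
  sub : ∀ z ∈ M, ∀ v ∈ B z, v ∈ T10 ρ z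
  rank : ∀ z ∈ M, Module.finrank ℂ (B z) = s
  smooth : ∀ z ∈ M, ∃ W : Set (Cn n), IsOpen W ∧ z ∈ W ∧ ∃ K : Fin s → Cn n → Cn n,
    (∀ j, ContDiffOn ℝ ∞ (K j) W) ∧ ∀ w ∈ M ∩ W, B w = Submodule.span ℂ (Set.range fun j => K j w)

/-- smooth sections of `B` over `M ∩ V` (extended smoothly to `V`) -/
def IsSection (V M : Set (Cn n)) (B : Cn n → Submodule ℂ (Cn n)) (L : Cn n → Cn n) : Prop :=
  ContDiffOn ℝ ∞ L V ∧ ∀ z ∈ M ∩ V, L z ∈ B z

/-- the module `M_1(B)` over `M ∩ V`: smooth sections of `B ⊕ B̄` -/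
def IsM1 (V M : Set (Cn n)) (B : Cn n → Submodule ℂ (Cn n)) (X : VF n) : Prop :=
  IsSection V M B X.a ∧ IsSection V M B (fun z j => (starRingEnd ℂ) (X.b z j))

/-- the module `M_μ(B)` over `M ∩ V` -/
inductive InMod (V M : Set (Cn n)) (B : Cn n → Submodule ℂ (Cn n)) (μ : ℕ) : VF n → Prop
  | base {X : VF n} : IsM1 V M B X → InMod V M B μ X
  | comm {l : List (VF n)} : 2 ≤ l.length → l.length ≤ μ → (∀ X ∈ l, IsM1 V M B X) →
      InMod V M B μ (iterBr l)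
  | add {X Y : VF n} : InMod V M B μ X → InMod V M B μ Y →
      InMod V M B μ ⟨fun z => X.a z + Y.a z, fun z => X.b z + Y.b z⟩
  | smul {X : VF n} (f : Cn n → ℂ) : ContDiffOn ℝ ∞ f V → InMod V M B μ X →
      InMod V M B μ ⟨fun z => f z • X.a z, fun z => f z • X.b z⟩

/-- the commutator type `t(B, p)` -/
noncomputable def commType (V M : Set (Cn n)) (ρ : Cn n → ℝ) (B : Cn n → Submodule ℂ (Cn n))
    (p : Cn n) : ℕ∞ :=
  sInf {k : ℕ∞ | ∃ m : ℕ, 1 ≤ m ∧ k = m ∧ ∃ G : VF n, InMod V M B m G ∧ G.dpair ρ p ≠ 0}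

/-- the function `λ(L, L)` -/
noncomputable def lev (ρ : Cn n → ℝ) (L : Cn n → Cn n) : Cn n → ℂ := fun z =>
  leviForm ρ z (L z) (L z)

/-- the Levi-form type equals `m`, as in the definition -/
def HasLeviType (V M : Set (Cn n)) (ρ : Cn n → ℝ) (B : Cn n → Submodule ℂ (Cn n))
    (p : Cn n) (m : ℕ) : Prop :=
  2 ≤ m ∧
  (∀ l : List (VF n), l.length + 3 = m → (∀ F ∈ l, IsM1 V M B F) →
    ∀ L, IsSection V M B L → L p ≠ 0 → iterAct l (lev ρ L) p = 0) ∧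
  ∃ l : List (VF n), l.length + 2 = m ∧ (∀ F ∈ l, IsM1 V M B F) ∧
    ∃ L, IsSection V M B L ∧ L p ≠ 0 ∧ iterAct l (lev ρ L) p ≠ 0

/-- the Levi-form type `c(B, p)`: the `m` with `HasLeviType m`, and `∞` if there is none -/
noncomputable def leviType (V M : Set (Cn n)) (ρ : Cn n → ℝ) (B : Cn n → Submodule ℂ (Cn n))
    (p : Cn n) : ℕ∞ :=
  sInf {k : ℕ∞ | ∃ m : ℕ, k = m ∧ HasLeviType V M ρ B p m}

end Pool.Agent.W737.Sub.FT
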