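import Pool.Agent.W737.Sub.Class

/-! The Levi form of the lifted field; the lifted CR structure. -/

set_option autoImplicit false

open scoped ContDiff Topology BigOperators
open Finset Filter DAng

namespace Pool.Agent.W737.Sub

variable {d r : ℕ} {p : E d} {K : Fin r → CVF d}

/-- the Levi form coefficients -/
noncomputable def lam (η : E d → Fin d → ℝ) (K : Fin r → CVF d) (i j : Fin r) : CF d :=
  pair η (lieBr (K i) (cjVF (K j)))

lemma pair_add {m : ℕ} (η : E m → Fin m → ℝ) (U V : CVF m) (y : E m) :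
    pair η (fun y i => U y i + V y i) y = pair η U y + pair η V y := by
  simp only [pair, mul_add, Finset.sum_add_distrib]

lemma pair_sum {m : ℕ} {ι : Type*} (s : Finset ι) (η : E m → Fin m → ℝ) (U : ι → CVF m) (y : E m) :
    pair η (fun y i => ∑ a ∈ s, U a y i) y = ∑ a ∈ s, pair η (U a) y := by
  simp only [pair, Finset.mul_sum]
  rw [Finset.sum_comm]

lemma pair_smul' {m : ℕ} (η : E m → Fin m → ℝ) (c : ℂ) (U : CVF m) (y : E m) :
    pair η (fun y i => c * U y i) y = c * pair η U y := by
  simp only [pair, Finset.mul_sum]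
  exact Finset.sum_congr rfl fun i _ => by ring

lemma pair_congr_at {m : ℕ} (η : E m → Fin m → ℝ) {U V : CVF m} {y : E m} (h : U y = V y) :
    pair η U y = pair η V y := by
  simp only [pair, h]

lemma pair_cj {m : ℕ} (η : E m → Fin m → ℝ) (U : CVF m) (y : E m) :
    pair η (cjVF U) y = (starRingEnd ℂ) (pair η U y) := by
  simp only [pair, cjVF, map_sum, map_mul, Complex.conj_ofReal]

lemma levi_lift (hK : ∀ j, Sm p (K j)) (η : E d → Fin d → ℝ)
    (hann : ∀ j, ∀ᶠ x in 𝓝 p, pair η (K j) x = 0) :
    pair (liftη η) (lieBr (LL K) (cjVF (LL K))) =ᶠ[𝓝 (inc p)]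
      fun y => ∑ j, ∑ i, mo (mu j false + mu i true) y * lam η K i j (pr y) := by
  have hann' : ∀ᶠ y in 𝓝 (inc p), ∀ j, pair η (K j) (pr y) = 0 := by
    have h1 : ∀ᶠ x in 𝓝 p, ∀ j, pair η (K j) x = 0 := eventually_all.2 hann
    exact tendsto_pr.eventually h1
  have hsT : ∀ j, Sm (inc p) (T (mu j false) (LX (K j) false)) := fun j => sm_T ((hK j).LX false) _
  have hsum : Sm (inc p) (fun y i => ∑ j, T (mu j false) (LX (K j) false) y i) :=
    Sm.of_apply fun i => Sm.sum fun j _ => (hsT j).comp_apply i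
  have e0 : cjVF (LL K) = fun y i => LX Zf false y i + ∑ j, T (mu j false) (LX (K j) false) y i := by
    have := LX_LL K false
    exact this
  have e1 : lieBr (LL K) (cjVF (LL K)) =ᶠ[𝓝 (inc p)] fun y i => lieBr (LX (LL K) true) (LX Zf false) y i +
      lieBr (LX (LL K) true) (fun y i => ∑ j, T (mu j false) (LX (K j) false) y i) y i := by
    rw [e0]
    exact lieBr_add_right (sm_LXZ _ false) hsum
  have e2 : lieBr (LX (LL K) true) (fun y i => ∑ j, T (mu j false) (LX (K j) false) y i)
      =ᶠ[𝓝 (inc p)] fun y i => ∑ j, lieBr (LX (LL K) true) (T (mu j false) (LX (K j) false)) y i := by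
    have : ∀ s : Finset (Fin r), lieBr (LX (LL K) true)
        (fun y i => ∑ j ∈ s, T (mu j false) (LX (K j) false) y i)
        =ᶠ[𝓝 (inc p)] fun y i => ∑ j ∈ s, lieBr (LX (LL K) true) (T (mu j false) (LX (K j) false)) y i := by
      intro s
      classical
      induction s using Finset.induction_on with
      | empty =>
        simp only [Finset.sum_empty]
        rw [lieBr_zero_right]
      | insert a s ha ih =>
        simp only [Finset.sum_insert ha]
        have h1 := lieBr_add_right (X := LX (LL K) true) (hsT a)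
          (Sm.of_apply fun i => Sm.sum fun j (_ : j ∈ s) => (hsT j).comp_apply i)
        filter_upwards [h1, ih] with y h1 h2
        rw [h1, h2]
    exact this _
  filter_upwards [e1, e2, eventually_diff_pr hK, hann',
    eventually_all.2 fun j => eventually_diff_pr' ((hK j).LX false)] with y h1 h2 h3 h4 h5
  have h6 : lieBr (LL K) (cjVF (LL K)) y = fun i =>
      (- ∑ j, mu j true false * T (dec (mu j true) false) (LX (K j) true) y i) +
      ∑ j, (mu j false true * T (dec (mu j false) true) (LX (K j) false) y i +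
        ∑ i', T (mu j false + mu i' true) (lieBr (LX (K i') true) (LX (K j) false)) y i) := by
    rw [h1, h2]
    funext i
    rw [base_br K true false h3 i]
    congr 1
    refine Finset.sum_congr rfl fun j _ => ?_
    rw [step_br K true _ h3 (h5 j) i]
  have h7 : pair (liftη η) (lieBr (LL K) (cjVF (LL K))) y =
      pair (liftη η) (fun y i =>
      (- ∑ j, mu j true false * T (dec (mu j true) false) (LX (K j) true) y i) +
      ∑ j, (mu j false true * T (dec (mu j false) true) (LX (K j) false) y i +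
        ∑ i', T (mu j false + mu i' true) (lieBr (LX (K i') true) (LX (K j) false)) y i)) y :=
    pair_congr_at _ h6
  have k1 : ∀ j, pair η (LX (K j) true) (pr y) = 0 := h4
  have k2 : ∀ j, pair η (LX (K j) false) (pr y) = 0 := by
    intro j
    have : pair η (cjVF (K j)) (pr y) = 0 := by rw [pair_cj, h4 j, map_zero]
    exact this
  rw [h7]
  simp only [pair_liftη, T, hX_left]
  simp only [mul_add, Finset.sum_add_distrib, mul_neg, Finset.sum_neg_distrib]
  have z1 : ∑ i, (η (pr y) i : ℂ) * ∑ j, (mu j true false : ℂ) *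
      (mo (dec (mu j true) false) y * LX (K j) true (pr y) i) = 0 := by
    simp only [Finset.mul_sum]
    rw [Finset.sum_comm]
    refine Finset.sum_eq_zero fun j _ => ?_
    have : ∑ i, (η (pr y) i : ℂ) * ((mu j true false : ℂ) *
        (mo (dec (mu j true) false) y * LX (K j) true (pr y) i)) =
        mu j true false * mo (dec (mu j true) false) y * pair η (LX (K j) true) (pr y) := by
      simp only [pair, Finset.mul_sum]
      exact Finset.sum_congr rfl fun i _ => by ring
    rw [this, k1, mul_zero]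
  have z2 : ∑ i, (η (pr y) i : ℂ) * ∑ j, (mu j false true : ℂ) *
      (mo (dec (mu j false) true) y * LX (K j) false (pr y) i) = 0 := by
    simp only [Finset.mul_sum]
    rw [Finset.sum_comm]
    refine Finset.sum_eq_zero fun j _ => ?_
    have : ∑ i, (η (pr y) i : ℂ) * ((mu j false true : ℂ) *
        (mo (dec (mu j false) true) y * LX (K j) false (pr y) i)) =
        mu j false true * mo (dec (mu j false) true) y * pair η (LX (K j) false) (pr y) := by
      simp only [pair, Finset.mul_sum]
      exact Finset.sum_congr rfl fun i _ => by ring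
    rw [this, k2, mul_zero]
  rw [z1, z2, neg_zero, zero_add, zero_add]
  simp only [Finset.mul_sum]
  rw [Finset.sum_comm]
  refine Finset.sum_congr rfl fun j _ => ?_
  rw [Finset.sum_comm]
  refine Finset.sum_congr rfl fun i' _ => ?_
  simp only [lam, pair, Finset.mul_sum]
  refine Finset.sum_congr rfl fun i _ => ?_
  show _ * (_ * lieBr (K i') (cjVF (K j)) (pr y) i) = _
  ring

/-- the set of Levi coefficients -/
def GG (η : E d → Fin d → ℝ) (K : Fin r → CVF d) : Set (CF d) :=
  Set.range fun ij : Fin r × Fin r => lam η K ij.1 ij.2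

lemma sm_lam (hK : ∀ j, Sm p (K j)) {η : E d → Fin d → ℝ} (hη : Sm p η) (i j : Fin r) :
    Sm p (lam η K i j) := hη.pair ((hK i).lieBr (hK j).cjVF)

lemma sm_GG (hK : ∀ j, Sm p (K j)) {η : E d → Fin d → ℝ} (hη : Sm p η) :
    ∀ g ∈ GG η K, Sm p g := by
  rintro _ ⟨ij, rfl⟩
  exact sm_lam hK hη _ _

lemma levi_FC (hK : ∀ j, Sm p (K j)) (η : E d → Fin d → ℝ)
    (hann : ∀ j, ∀ᶠ x in 𝓝 p, pair η (K j) x = 0) :
    FC p K (GG η K) 0 0 (pair (liftη η) (lieBr (LL K) (cjVF (LL K)))) := by
  have h1 : FC p K (GG η K) 0 0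
      (fun y => ∑ j, ∑ i, 1 * (mo (mu j false + mu i true) y * opK K [] (lam η K i j) (pr y))) := by
    refine FC.sum _ fun j _ => FC.sum _ fun i _ => FC.mono _ _ _ _ ⟨(i, j), rfl⟩ (by simp) ?_
    have h2 := mu_sum j false
    have h3 := mu_sum i true
    simp only [List.length_nil, Pi.add_apply]
    omega
  refine h1.congr ?_
  filter_upwards [levi_lift hK η hann] with y hy
  rw [hy]
  simp only [one_mul]
  rfl

/-- (ii): lower bound for the Levi type of `L'` -/
theorem lower_op (hK : ∀ j, Sm p (K j)) {η : E d → Fin d → ℝ} (hη : Sm p η)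
    (hann : ∀ j, ∀ᶠ x in 𝓝 p, pair η (K j) x = 0) {m : ℕ}
    (h0 : ∀ w : List (Lt r), w.length + 2 ≤ m → ∀ i j, opK K w (lam η K i j) p = 0)
    (W : List Bool) (hWm : W.length + 2 < (2 * r + 1) * (m + 1)) :
    op (LL K) W (pair (liftη η) (lieBr (LL K) (cjVF (LL K)))) (inc p) = 0 := by
  refine (FC.word hK (sm_GG hK hη) W (levi_FC hK η hann)).zero_at ?_
  rintro _ ⟨ij, rfl⟩ w hle
  refine h0 w ?_ _ _
  by_contra hcon
  push Not at hcon
  have h1 : (2 * r + 1) * (m + 1) ≤ (2 * r + 1) * (w.length + 2) := Nat.mul_le_mul_left _ hcon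
  have h2 : (2 * r + 1) * (w.length + 2) = (2 * r + 1) * w.length + (4 * r + 2) := by ring
  omega

/-! ### the lifted structure -/

lemma lieBr_hX (X Y : CVF d) {y : E (d + 2)}
    (hX' : ∀ i, DifferentiableAt ℝ (fun x => X x i) (pr y))
    (hY' : ∀ i, DifferentiableAt ℝ (fun x => Y x i) (pr y)) :
    lieBr (hX X) (hX Y) y = hX (lieBr X Y) y := by
  funext i
  simp only [lieBr]
  refine Fin.addCases (fun i => ?_) (fun i => ?_) i
  · simp only [hX_left]
    rw [act_hX_comp_pr X (f := fun x => Y x i) (hY' i), act_hX_comp_pr Y (f := fun x => X x i) (hX' i)]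
    rfl
  · simp only [hX_right]
    rw [act_const, act_const, sub_zero]

lemma lieBr_Z_hX (ε : Bool) (X : CVF d) {y : E (d + 2)}
    (hX' : ∀ i, DifferentiableAt ℝ (fun x => X x i) (pr y)) :
    lieBr (LX Zf ε) (hX X) y = 0 := by
  funext i
  have hc : (fun y : E (d + 2) => LX Zf ε y i) = fun _ => LX Zf ε y i := by
    funext y'; cases ε <;> rfl
  simp only [lieBr, hc, act_const, sub_zero, Pi.zero_apply]
  refine Fin.addCases (fun i => ?_) (fun i => ?_) i
  · simp only [hX_left]
    exact act_LXZ_comp_pr ε (f := fun x => X x i) (hX' i)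
  · simp only [hX_right]
    rw [act_const]

lemma lieBr_Z_Z (ε ε' : Bool) (y : E (d + 2)) : lieBr (LX Zf ε) (LX Zf ε') y = 0 := by
  funext i
  have hc : (fun y : E (d + 2) => LX Zf ε y i) = fun _ => LX Zf ε y i := by
    funext y'; cases ε <;> rfl
  have hc' : (fun y : E (d + 2) => LX Zf ε' y i) = fun _ => LX Zf ε' y i := by
    funext y'; cases ε' <;> rfl
  simp only [lieBr, hc, hc', act_const, sub_zero, Pi.zero_apply]

lemma cj_hX_field (X : CVF d) : cjVF (hX X) = hX (cjVF X) := by
  funext y i
  exact cj_hX X y i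

end Pool.Agent.W737.Sub
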