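import Pool.Agent.DAng.Main1

/-! Lifting complex vector fields from `ℝ^d` to `ℝ^d × ℂ`. -/

set_option autoImplicit false

open scoped ContDiff Topology BigOperators
open Finset Filter DAng

namespace Pool.Agent.W737.Sub

variable {d : ℕ}

/-! ### index bookkeeping -/

/-- projection `ℝ^d × ℂ → ℝ^d` -/
def pr (y : E (d + 2)) : E d := fun i => y (Fin.castAdd 2 i)

/-- inclusion of the slice `ζ = 0` -/
def inc (x : E d) : E (d + 2) := Fin.addCases (motive := fun _ => ℝ) x (fun _ => 0)

/-- the coordinate `ζ` of the factor `ℂ` -/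
noncomputable def zt (y : E (d + 2)) : ℂ := (y (Fin.natAdd d 0) : ℂ) + Complex.I * (y (Fin.natAdd d 1) : ℂ)

@[simp] lemma pr_inc (x : E d) : pr (inc x) = x := by
  funext i; simp [pr, inc]

@[simp] lemma zt_inc (x : E d) : zt (inc x) = 0 := by
  simp [zt, inc]

/-- projection as a linear map -/
def prL : E (d + 2) →L[ℝ] E d := ContinuousLinearMap.pi fun i => ContinuousLinearMap.proj (Fin.castAdd 2 i)

@[simp] lemma prL_apply (y : E (d + 2)) : prL y = pr y := by
  funext i; simp [prL, pr]

/-- inclusion as a linear map -/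
def incL : E d →L[ℝ] E (d + 2) :=
  ContinuousLinearMap.pi fun i => Fin.addCases (motive := fun _ => (E d →L[ℝ] ℝ))
    (fun i => ContinuousLinearMap.proj i) (fun _ => 0) i

@[simp] lemma incL_apply (x : E d) : incL x = inc x := by
  funext i
  simp only [incL, ContinuousLinearMap.coe_pi', inc]
  refine Fin.addCases (fun i => ?_) (fun i => ?_) i
  · simp
  · simp

/-- `ζ` as a linear map -/
noncomputable def ztL : E (d + 2) →L[ℝ] ℂ :=
  Complex.ofRealCLM.comp (ContinuousLinearMap.proj (Fin.natAdd d 0)) +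
    Complex.I • Complex.ofRealCLM.comp (ContinuousLinearMap.proj (Fin.natAdd d 1))

@[simp] lemma ztL_apply (y : E (d + 2)) : ztL y = zt y := by
  simp [ztL, zt]

lemma continuous_pr : Continuous (pr : E (d + 2) → E d) := by
  have : (pr : E (d + 2) → E d) = prL := by funext y; simp
  rw [this]; exact prL.continuous

lemma continuous_inc : Continuous (inc : E d → E (d + 2)) := by
  have : (inc : E d → E (d + 2)) = incL := by funext y; simp
  rw [this]; exact incL.continuous

lemma tendsto_pr {p : E d} : Tendsto (pr : E (d + 2) → E d) (𝓝 (inc p)) (𝓝 p) := by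
  have := (continuous_pr (d := d)).tendsto (inc p)
  rwa [pr_inc] at this

lemma tendsto_inc {p : E d} : Tendsto (inc : E d → E (d + 2)) (𝓝 p) (𝓝 (inc p)) :=
  continuous_inc.tendsto p

lemma sum_split {M : Type*} [AddCommMonoid M] (F : Fin (d + 2) → M) :
    ∑ i, F i = ∑ i : Fin d, F (Fin.castAdd 2 i) + (F (Fin.natAdd d 0) + F (Fin.natAdd d 1)) := by
  rw [Fin.sum_univ_add, Fin.sum_univ_two]

lemma pr_single_left (i : Fin d) : pr (Pi.single (Fin.castAdd 2 i) (1 : ℝ)) = Pi.single i 1 := by
  funext k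
  simp only [pr, Pi.single_apply]
  congr 1
  simp [Fin.ext_iff]

lemma pr_single_right (i : Fin 2) : pr (Pi.single (Fin.natAdd d i) (1 : ℝ)) = 0 := by
  funext k
  simp only [pr, Pi.single_apply, Pi.zero_apply, ite_eq_right_iff]
  intro h
  exfalso
  have := congrArg Fin.val h
  simp at this
  omega

lemma inc_single (i : Fin d) : inc (Pi.single i (1 : ℝ)) = Pi.single (Fin.castAdd 2 i) 1 := by
  funext k
  refine Fin.addCases (fun k => ?_) (fun k => ?_) k
  · simp only [inc, Fin.addCases_left, Pi.single_apply]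
    congr 1
    simp [Fin.ext_iff]
  · simp only [inc, Fin.addCases_right, Pi.single_apply]
    symm
    rw [if_neg]
    intro h
    have := congrArg Fin.val h
    simp at this
    omega

lemma zt_single_left (i : Fin d) : zt (Pi.single (Fin.castAdd 2 i) (1 : ℝ)) = 0 := by
  have h : ∀ j : Fin 2, Fin.natAdd d j ≠ Fin.castAdd 2 i := by
    intro j h
    have := congrArg Fin.val h
    simp at this
    omega
  simp [zt, Pi.single_apply, h]

lemma zt_single_zero : zt (Pi.single (Fin.natAdd d 0) (1 : ℝ)) = 1 := by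
  simp [zt, Pi.single_apply]

lemma zt_single_one : zt (Pi.single (Fin.natAdd d 1) (1 : ℝ)) = Complex.I := by
  simp [zt, Pi.single_apply]

/-! ### lifts of functions and fields -/

lemma pd_comp_pr_left {f : CF d} {y : E (d + 2)} (hf : DifferentiableAt ℝ f (pr y)) (i : Fin d) :
    pd (Fin.castAdd 2 i) (fun y => f (pr y)) y = pd i f (pr y) := by
  have h1 : HasFDerivAt (fun y : E (d + 2) => f (pr y)) ((fderiv ℝ f (pr y)).comp prL) y := by
    have h2 : HasFDerivAt (pr : E (d + 2) → E d) prL y := by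
      have : (pr : E (d + 2) → E d) = prL := by funext y; simp
      rw [this]; exact prL.hasFDerivAt
    exact hf.hasFDerivAt.comp y h2
  simp only [pd]
  rw [h1.fderiv]
  simp [pr_single_left]

lemma pd_comp_pr_right {f : CF d} {y : E (d + 2)} (hf : DifferentiableAt ℝ f (pr y)) (i : Fin 2) :
    pd (Fin.natAdd d i) (fun y => f (pr y)) y = 0 := by
  have h1 : HasFDerivAt (fun y : E (d + 2) => f (pr y)) ((fderiv ℝ f (pr y)).comp prL) y := by
    have h2 : HasFDerivAt (pr : E (d + 2) → E d) prL y := by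
      have : (pr : E (d + 2) → E d) = prL := by funext y; simp
      rw [this]; exact prL.hasFDerivAt
    exact hf.hasFDerivAt.comp y h2
  simp only [pd]
  rw [h1.fderiv]
  simp [pr_single_right]

lemma hasFDerivAt_zt (y : E (d + 2)) : HasFDerivAt (zt : E (d + 2) → ℂ) ztL y := by
  have : (zt : E (d + 2) → ℂ) = ztL := by funext y; simp
  rw [this]; exact ztL.hasFDerivAt

lemma differentiableAt_zt (y : E (d + 2)) : DifferentiableAt ℝ (zt : E (d + 2) → ℂ) y :=
  (hasFDerivAt_zt y).differentiableAt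

lemma pd_zt_left (y : E (d + 2)) (i : Fin d) : pd (Fin.castAdd 2 i) (zt : CF (d + 2)) y = 0 := by
  simp only [pd]
  rw [(hasFDerivAt_zt y).fderiv]
  simp [zt_single_left]

lemma pd_zt_zero (y : E (d + 2)) : pd (Fin.natAdd d 0) (zt : CF (d + 2)) y = 1 := by
  simp only [pd]
  rw [(hasFDerivAt_zt y).fderiv]
  simp [zt_single_zero]

lemma pd_zt_one (y : E (d + 2)) : pd (Fin.natAdd d 1) (zt : CF (d + 2)) y = Complex.I := by
  simp only [pd]
  rw [(hasFDerivAt_zt y).fderiv]
  simp [zt_single_one]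

lemma sm_zt (q : E (d + 2)) : Sm q (zt : CF (d + 2)) := by
  have : (zt : E (d + 2) → ℂ) = ztL := by funext y; simp
  rw [this]
  exact Eventually.of_forall fun x => ztL.contDiff.contDiffAt

lemma Sm.comp_pr {F : Type*} [NormedAddCommGroup F] [NormedSpace ℝ F] {p : E d} {f : E d → F}
    (hf : Sm p f) : Sm (inc p) (fun y => f (pr y)) := by
  have h1 := tendsto_pr.eventually hf
  filter_upwards [h1] with y hy
  have : (pr : E (d + 2) → E d) = prL := by funext y; simp
  have h2 : ContDiffAt ℝ ∞ (pr : E (d + 2) → E d) y := by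
    rw [this]; exact prL.contDiff.contDiffAt
  exact hy.comp y h2

lemma Sm.comp_inc {F : Type*} [NormedAddCommGroup F] [NormedSpace ℝ F] {p : E d} {f : E (d + 2) → F}
    (hf : Sm (inc p) f) : Sm p (fun x => f (inc x)) := by
  have h1 := tendsto_inc.eventually hf
  filter_upwards [h1] with y hy
  have : (inc : E d → E (d + 2)) = incL := by funext y; simp
  have h2 : ContDiffAt ℝ ∞ (inc : E d → E (d + 2)) y := by
    rw [this]; exact incL.contDiff.contDiffAt
  exact hy.comp y h2

/-- horizontal lift of a field -/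
def hX (X : CVF d) : CVF (d + 2) := fun y => Fin.addCases (motive := fun _ => ℂ) (X (pr y)) (fun _ => 0)

@[simp] lemma hX_left (X : CVF d) (y : E (d + 2)) (i : Fin d) : hX X y (Fin.castAdd 2 i) = X (pr y) i := by
  simp [hX]

@[simp] lemma hX_right (X : CVF d) (y : E (d + 2)) (i : Fin 2) : hX X y (Fin.natAdd d i) = 0 := by
  simp [hX]

/-- the field `∂/∂ζ` -/
noncomputable def Zf : CVF (d + 2) :=
  fun _ => Fin.addCases (motive := fun _ => ℂ) (fun _ => 0) ![1 / 2, -Complex.I / 2]

@[simp] lemma Zf_left (y : E (d + 2)) (i : Fin d) : Zf y (Fin.castAdd 2 i) = 0 := by simp [Zf]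
@[simp] lemma Zf_zero (y : E (d + 2)) : Zf y (Fin.natAdd d 0) = 1 / 2 := by simp [Zf]
@[simp] lemma Zf_one (y : E (d + 2)) : Zf y (Fin.natAdd d 1) = -Complex.I / 2 := by simp [Zf]

lemma sm_Zf (q : E (d + 2)) : Sm q (Zf : CVF (d + 2)) := by
  exact Eventually.of_forall fun x => contDiffAt_const

lemma sm_hX {p : E d} {X : CVF d} (hX' : Sm p X) : Sm (inc p) (hX X) := by
  refine Sm.of_apply fun i => ?_
  refine Fin.addCases (fun i => ?_) (fun i => ?_) i
  · simp only [hX_left]
    exact Sm.comp_pr (hX'.comp_apply i)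
  · simp only [hX_right]
    exact Sm.const 0

lemma act_hX (X : CVF d) (g : CF (d + 2)) (y : E (d + 2)) :
    act (hX X) g y = ∑ i, X (pr y) i * pd (Fin.castAdd 2 i) g y := by
  simp only [act]
  rw [sum_split]
  simp

lemma act_Zf (g : CF (d + 2)) (y : E (d + 2)) :
    act Zf g y = 1 / 2 * pd (Fin.natAdd d 0) g y + -Complex.I / 2 * pd (Fin.natAdd d 1) g y := by
  simp only [act]
  rw [sum_split]
  simp

lemma cjZf_left (y : E (d + 2)) (i : Fin d) : cjVF (Zf : CVF (d + 2)) y (Fin.castAdd 2 i) = 0 := by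
  simp [cjVF]
lemma cjZf_zero (y : E (d + 2)) : cjVF (Zf : CVF (d + 2)) y (Fin.natAdd d 0) = 1 / 2 := by
  have h : (starRingEnd ℂ) (2 : ℂ) = 2 := map_ofNat _ 2
  simp [cjVF, h]
lemma cjZf_one (y : E (d + 2)) : cjVF (Zf : CVF (d + 2)) y (Fin.natAdd d 1) = Complex.I / 2 := by
  have h : (starRingEnd ℂ) (2 : ℂ) = 2 := map_ofNat _ 2
  simp [cjVF, h]

lemma act_cjZf (g : CF (d + 2)) (y : E (d + 2)) :
    act (cjVF Zf) g y = 1 / 2 * pd (Fin.natAdd d 0) g y + Complex.I / 2 * pd (Fin.natAdd d 1) g y := by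
  simp only [act]
  rw [sum_split]
  simp only [cjZf_left, cjZf_zero, cjZf_one]
  simp

lemma act_hX_comp_pr (X : CVF d) {f : CF d} {y : E (d + 2)} (hf : DifferentiableAt ℝ f (pr y)) :
    act (hX X) (fun y => f (pr y)) y = act X f (pr y) := by
  rw [act_hX]
  simp only [pd_comp_pr_left hf, act]

lemma act_LXZ_comp_pr (ε : Bool) {f : CF d} {y : E (d + 2)} (hf : DifferentiableAt ℝ f (pr y)) :
    act (LX Zf ε) (fun y => f (pr y)) y = 0 := by
  cases ε
  · show act (cjVF Zf) _ y = 0
    rw [act_cjZf, pd_comp_pr_right hf, pd_comp_pr_right hf]; ring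
  · show act Zf _ y = 0
    rw [act_Zf, pd_comp_pr_right hf, pd_comp_pr_right hf]; ring

lemma act_pow {X : CVF d} {f : CF d} {x : E d} (hf : DifferentiableAt ℝ f x) :
    ∀ a : ℕ, act X (fun x => f x ^ a) x = a * f x ^ (a - 1) * act X f x
  | 0 => by simp [act_const]
  | 1 => by simp
  | a + 2 => by
    have h1 : act X (fun x => f x ^ (a + 1) * f x) x = _ := act_mul (hf.pow (a + 1)) hf
    have h2 : (fun x => f x ^ (a + 2)) = fun x => f x ^ (a + 1) * f x := by
      funext x; rw [pow_succ]
    rw [h2, h1, act_pow hf (a + 1)]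
    simp only [Nat.add_sub_cancel]
    have : a + 2 - 1 = a + 1 := rfl
    rw [this]
    push_cast
    ring

/-- the monomial `ζ^{e true} ζ̄^{e false}` -/
noncomputable def mo (e : Bool → ℕ) : CF (d + 2) :=
  fun y => zt y ^ e true * (starRingEnd ℂ) (zt y) ^ e false

/-- decrease an exponent -/
def dec (e : Bool → ℕ) (ε : Bool) : Bool → ℕ := Function.update e ε (e ε - 1)

lemma mo_add (e e' : Bool → ℕ) (y : E (d + 2)) : mo (e + e') y = mo e y * mo e' y := by
  simp only [mo, Pi.add_apply]; ring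

lemma sm_mo (q : E (d + 2)) (e : Bool → ℕ) : Sm q (mo e : CF (d + 2)) :=
  ((sm_zt q).pow _).mul ((sm_zt q).conj.pow _)

lemma differentiableAt_mo (y : E (d + 2)) (e : Bool → ℕ) : DifferentiableAt ℝ (mo e : CF (d + 2)) y :=
  (sm_mo y e).self.differentiableAt (by simp)

lemma differentiableAt_cjzt (y : E (d + 2)) :
    DifferentiableAt ℝ (fun y : E (d + 2) => (starRingEnd ℂ) (zt y)) y :=
  (sm_zt y).conj.self.differentiableAt (by simp)

lemma act_mo_gen (X : CVF (d + 2)) (e : Bool → ℕ) (y : E (d + 2)) :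
    act X (mo e) y = zt y ^ e true * (e false * (starRingEnd ℂ) (zt y) ^ (e false - 1) *
      act X (fun y => (starRingEnd ℂ) (zt y)) y) +
      (e true * zt y ^ (e true - 1) * act X zt y) * (starRingEnd ℂ) (zt y) ^ e false := by
  have h1 := act_mul (X := X) (f := fun y => zt y ^ e true)
    (g := fun y => (starRingEnd ℂ) (zt y) ^ e false) (x := y)
    ((differentiableAt_zt y).pow _) ((differentiableAt_cjzt y).pow _)
  have h2 : (mo e : CF (d + 2)) = fun y => zt y ^ e true * (starRingEnd ℂ) (zt y) ^ e false := rfl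
  rw [h2, h1, act_pow (differentiableAt_zt y), act_pow (f := fun y => (starRingEnd ℂ) (zt y))
    (differentiableAt_cjzt y)]

lemma act_hX_zt (X : CVF d) (y : E (d + 2)) : act (hX X) zt y = 0 := by
  rw [act_hX]
  simp [pd_zt_left]

lemma act_hX_cjzt (X : CVF d) (y : E (d + 2)) :
    act (hX X) (fun y => (starRingEnd ℂ) (zt y)) y = 0 := by
  rw [act_hX]
  refine Finset.sum_eq_zero fun i _ => ?_
  rw [pd_conj (differentiableAt_zt y), pd_zt_left]
  simp

lemma act_hX_mo (X : CVF d) (e : Bool → ℕ) (y : E (d + 2)) : act (hX X) (mo e) y = 0 := by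
  rw [act_mo_gen, act_hX_zt, act_hX_cjzt]; ring

lemma act_Z_mo (ε : Bool) (e : Bool → ℕ) (y : E (d + 2)) :
    act (LX Zf ε) (mo e) y = e ε * mo (dec e ε) y := by
  rw [act_mo_gen]
  cases ε
  · show zt y ^ e true * (e false * (starRingEnd ℂ) (zt y) ^ (e false - 1) *
      act (cjVF Zf) (fun y => (starRingEnd ℂ) (zt y)) y) +
      (e true * zt y ^ (e true - 1) * act (cjVF Zf) zt y) * (starRingEnd ℂ) (zt y) ^ e false = _
    rw [act_cjZf, act_cjZf, pd_conj (differentiableAt_zt y), pd_conj (differentiableAt_zt y),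
      pd_zt_zero, pd_zt_one]
    have e1 : (1 / 2 * (starRingEnd ℂ) 1 + Complex.I / 2 * (starRingEnd ℂ) Complex.I : ℂ) = 1 := by
      simp only [map_one, Complex.conj_I]
      linear_combination (-1 / 2 : ℂ) * Complex.I_mul_I
    have e2 : (1 / 2 * 1 + Complex.I / 2 * Complex.I : ℂ) = 0 := by
      linear_combination (1 / 2 : ℂ) * Complex.I_mul_I
    rw [e1, e2]
    simp only [mo, dec, Function.update_self]
    rw [Function.update_of_ne (by simp)]
    ring
  · show zt y ^ e true * (e false * (starRingEnd ℂ) (zt y) ^ (e false - 1) *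
      act Zf (fun y => (starRingEnd ℂ) (zt y)) y) +
      (e true * zt y ^ (e true - 1) * act Zf zt y) * (starRingEnd ℂ) (zt y) ^ e false = _
    rw [act_Zf, act_Zf, pd_conj (differentiableAt_zt y), pd_conj (differentiableAt_zt y),
      pd_zt_zero, pd_zt_one]
    have e1 : (1 / 2 * (starRingEnd ℂ) 1 + -Complex.I / 2 * (starRingEnd ℂ) Complex.I : ℂ) = 0 := by
      simp only [map_one, Complex.conj_I]
      linear_combination (1 / 2 : ℂ) * Complex.I_mul_I
    have e2 : (1 / 2 * 1 + -Complex.I / 2 * Complex.I : ℂ) = 1 := by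
      linear_combination (-1 / 2 : ℂ) * Complex.I_mul_I
    rw [e1, e2]
    simp only [mo, dec, Function.update_self]
    rw [Function.update_of_ne (by simp)]
    ring

lemma mo_inc (e : Bool → ℕ) (x : E d) (h : e true + e false ≠ 0) : mo e (inc x) = 0 := by
  simp only [mo, zt_inc]
  by_cases h1 : e true = 0
  · have h2 : e false ≠ 0 := by omega
    simp [h2]
  · simp [h1]

lemma mo_inc_zero (e : Bool → ℕ) (x : E d) (h : e true + e false = 0) : mo e (inc x) = 1 := by
  have h1 : e true = 0 := by omega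
  have h2 : e false = 0 := by omega
  simp [mo, h1, h2]

/-! ### rules for fields -/

lemma act_add_field' {m : ℕ} (X Y : CVF m) (f : CF m) (x : E m) :
    act (fun y i => X y i + Y y i) f x = act X f x + act Y f x := by
  simp only [act, add_mul, Finset.sum_add_distrib]

lemma act_fmul_field {m : ℕ} (c : CF m) (X : CVF m) (f : CF m) (x : E m) :
    act (fun y i => c y * X y i) f x = c x * act X f x := by
  simp only [act, Finset.mul_sum, mul_assoc]

lemma act_sum_field' {m : ℕ} {ι : Type*} (s : Finset ι) (X : ι → CVF m) (f : CF m) (x : E m) :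
    act (fun y i => ∑ a ∈ s, X a y i) f x = ∑ a ∈ s, act (X a) f x := by
  simp only [act, Finset.sum_mul]
  rw [Finset.sum_comm]

end Pool.Agent.W737.Sub
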