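import Pool.Agent.W737.Sub.LeviLift

/-! The CR structure on `M × ℂ`. -/

set_option autoImplicit false

open scoped ContDiff Topology BigOperators
open Finset Filter DAng

namespace Pool.Agent.W737.Sub

variable {n r : ℕ} {p : E (2 * n + 1)}

/-- the frame of the lifted structure -/
noncomputable def frm (F : Fin n → CVF (2 * n + 1)) : Fin (n + 1) → CVF (2 * n + 1 + 2) :=
  Fin.snoc (α := fun _ => CVF (2 * n + 1 + 2)) (fun j => hX (F j)) Zf

@[simp] lemma frm_castSucc (F : Fin n → CVF (2 * n + 1)) (j : Fin n) : frm F j.castSucc = hX (F j) := by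
  simp [frm]

@[simp] lemma frm_last (F : Fin n → CVF (2 * n + 1)) : frm F (Fin.last n) = Zf := by
  simp [frm]

lemma sm_frm {F : Fin n → CVF (2 * n + 1)} (hF : ∀ j, Sm p (F j)) (j : Fin (n + 1)) :
    Sm (inc p) (frm F j) := by
  refine Fin.lastCases ?_ (fun j => ?_) j
  · rw [frm_last]; exact sm_Zf _
  · rw [frm_castSucc]; exact sm_hX (hF j)

lemma liftη_ne {η : E (2 * n + 1) → Fin (2 * n + 1) → ℝ} (h : η p ≠ 0) :
    liftη η (inc p) ≠ 0 := by
  intro h0
  apply h
  funext i
  have := congrFun h0 (Fin.castAdd 2 i)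
  simpa [liftη] using this

lemma sm_liftη {d : ℕ} {q : E d} {η : E d → Fin d → ℝ} (h : Sm q η) : Sm (inc q) (liftη η) := by
  have h1 : ∀ i, Sm (inc q) (fun y => liftη η y i) := by
    intro i
    refine Fin.addCases (fun i => ?_) (fun i => ?_) i
    · have : (fun y : E (d + 2) => liftη η y (Fin.castAdd 2 i)) = fun y => (fun x => η x i) (pr y) := by
        funext y; simp [liftη]
      rw [this]
      exact Sm.comp_pr (h.comp_apply_real i)
    · have : (fun y : E (d + 2) => liftη η y (Fin.natAdd d i)) = fun _ => (0 : ℝ) := by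
        funext y; simp [liftη]
      rw [this]
      exact Sm.const 0
  have h2 := eventually_all.2 h1
  filter_upwards [h2] with y hy
  exact contDiffAt_pi.2 hy

lemma indep_lift {F : Fin n → CVF (2 * n + 1)}
    (h : LinearIndependent ℂ (Sum.elim (fun j => F j p) (fun j => cjVF (F j) p))) :
    LinearIndependent ℂ (Sum.elim (fun j => frm F j (inc p)) (fun j => cjVF (frm F j) (inc p))) := by
  rw [Fintype.linearIndependent_iff] at h ⊢
  intro g hg
  rw [Fintype.sum_sum_type] at hg
  simp only [Sum.elim_inl, Sum.elim_inr] at hg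
  rw [Fin.sum_univ_castSucc, Fin.sum_univ_castSucc] at hg
  simp only [frm_castSucc, frm_last] at hg
  have h1 : ∀ i, ∑ j : Fin n, g (Sum.inl j.castSucc) * F j p i +
      ∑ j : Fin n, g (Sum.inr j.castSucc) * cjVF (F j) p i = 0 := by
    intro i
    have h2 := congrFun hg (Fin.castAdd 2 i)
    simp only [Pi.add_apply, Finset.sum_apply, Pi.smul_apply, smul_eq_mul, hX_left, Zf_left,
      mul_zero, add_zero, cj_hX_field, pr_inc, cjZf_left, Pi.zero_apply] at h2
    exact h2
  have h3 := h (fun s => Sum.elim (fun j => g (Sum.inl j.castSucc)) (fun j => g (Sum.inr j.castSucc)) s)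
    (by
      rw [Fintype.sum_sum_type]
      funext i
      simp only [Sum.elim_inl, Sum.elim_inr, Pi.add_apply, Finset.sum_apply, Pi.smul_apply,
        smul_eq_mul, Pi.zero_apply]
      exact h1 i)
  have h4 : ∀ j : Fin n, g (Sum.inl j.castSucc) = 0 := fun j => h3 (Sum.inl j)
  have h5 : ∀ j : Fin n, g (Sum.inr j.castSucc) = 0 := fun j => h3 (Sum.inr j)
  have h6 := congrFun hg (Fin.natAdd (2 * n + 1) 0)
  have h7 := congrFun hg (Fin.natAdd (2 * n + 1) 1)
  simp only [Pi.add_apply, Finset.sum_apply, Pi.smul_apply, smul_eq_mul, hX_right, Zf_zero, Zf_one,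
      mul_zero, cj_hX_field, Finset.sum_const_zero, zero_add, cjZf_zero, cjZf_one, Pi.zero_apply] at h6 h7
  have h8 : g (Sum.inl (Fin.last n)) = 0 := by
    have e1 := Complex.I_mul_I
    linear_combination h6 + Complex.I * h7 + (1 / 2) * (g (Sum.inl (Fin.last n)) - g (Sum.inr (Fin.last n))) * e1
  have h9 : g (Sum.inr (Fin.last n)) = 0 := by
    rw [h8] at h6
    linear_combination 2 * h6
  rintro (j | j)
  · exact Fin.lastCases h8 h4 j
  · exact Fin.lastCases h9 h5 j

lemma hX_mem_span {F : Fin n → CVF (2 * n + 1)} {X : CVF (2 * n + 1)} {y : E (2 * n + 1 + 2)}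
    (h : X (pr y) ∈ Submodule.span ℂ (Set.range fun l => F l (pr y))) :
    hX X y ∈ Submodule.span ℂ (Set.range fun l => frm F l y) := by
  obtain ⟨c, hc⟩ := (Submodule.mem_span_range_iff_exists_fun ℂ).1 h
  have h1 : hX X y = ∑ j, c j • frm F j.castSucc y := by
    funext i
    rw [Finset.sum_apply]
    simp only [frm_castSucc, Pi.smul_apply, smul_eq_mul]
    refine Fin.addCases (fun i => ?_) (fun i => ?_) i
    · simp only [hX_left]
      rw [← hc, Finset.sum_apply]
      rfl
    · simp
  rw [h1]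
  exact Submodule.sum_mem _ fun j _ => Submodule.smul_mem _ _ (Submodule.subset_span ⟨j.castSucc, rfl⟩)

lemma LL_mem_span {F : Fin n → CVF (2 * n + 1)} {K : Fin r → CVF (2 * n + 1)}
    {y : E (2 * n + 1 + 2)}
    (h : ∀ j, K j (pr y) ∈ Submodule.span ℂ (Set.range fun l => F l (pr y))) :
    LL K y ∈ Submodule.span ℂ (Set.range fun l => frm F l y) := by
  have h1 : LL K y = frm F (Fin.last n) y + ∑ j, mo (mu j true) y • hX (K j) y := by
    funext i
    rw [frm_last, Pi.add_apply, Finset.sum_apply]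
    rfl
  rw [h1]
  exact Submodule.add_mem _ (Submodule.subset_span ⟨Fin.last n, rfl⟩)
    (Submodule.sum_mem _ fun j _ => Submodule.smul_mem _ _ (hX_mem_span (h j)))

lemma pair_liftη_hX (η : E (2 * n + 1) → Fin (2 * n + 1) → ℝ) (X : CVF (2 * n + 1))
    (y : E (2 * n + 1 + 2)) : pair (liftη η) (hX X) y = pair η X (pr y) := by
  rw [pair_liftη]; simp [pair]

lemma pair_liftη_zero (η : E (2 * n + 1) → Fin (2 * n + 1) → ℝ) (U : CVF (2 * n + 1 + 2))
    (y : E (2 * n + 1 + 2)) (h : U y = 0) : pair (liftη η) U y = 0 := by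
  simp [pair, h]

/-- the lifted structure `M × ℂ` -/
noncomputable def liftC (C : LCR n p) : LCR (n + 1) (inc p : E (2 * n + 1 + 2)) where
  K := frm C.K
  η := liftη C.η
  smK := sm_frm C.smK
  smη := sm_liftη C.smη
  indep := indep_lift C.indep
  ann := by
    intro j
    have h1 : ∀ᶠ y in 𝓝 (inc p), ∀ j, pair C.η (C.K j) (pr y) = 0 :=
      tendsto_pr.eventually (eventually_all.2 C.ann)
    filter_upwards [h1] with y hy
    refine Fin.lastCases ?_ (fun j => ?_) j
    · show pair (liftη C.η) (frm C.K (Fin.last n)) y = 0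
      rw [frm_last, pair_liftη]
      simp
    · show pair (liftη C.η) (frm C.K j.castSucc) y = 0
      rw [frm_castSucc, pair_liftη_hX]
      exact hy j
  ne := liftη_ne C.ne
  integ := by
    intro i j
    have h1 : ∀ᶠ y in 𝓝 (inc p), ∀ i j, lieBr (C.K i) (C.K j) (pr y) ∈
        Submodule.span ℂ (Set.range fun l => C.K l (pr y)) :=
      tendsto_pr.eventually (eventually_all.2 fun i => eventually_all.2 fun j => C.integ i j)
    filter_upwards [h1, eventually_diff_pr C.smK] with y hy hd
    show lieBr (frm C.K i) (frm C.K j) y ∈ Submodule.span ℂ (Set.range fun l => frm C.K l y)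
    refine Fin.lastCases ?_ (fun i => ?_) i <;> refine Fin.lastCases ?_ (fun j => ?_) j
    · rw [frm_last]
      have : lieBr (Zf : CVF (2 * n + 1 + 2)) Zf y = 0 := lieBr_Z_Z true true y
      rw [this]; exact Submodule.zero_mem _
    · rw [frm_last, frm_castSucc]
      have : lieBr (Zf : CVF (2 * n + 1 + 2)) (hX (C.K j)) y = 0 := lieBr_Z_hX true (C.K j) (hd j)
      rw [this]; exact Submodule.zero_mem _
    · rw [frm_last, frm_castSucc]
      have h2 : lieBr (Zf : CVF (2 * n + 1 + 2)) (hX (C.K i)) y = 0 := lieBr_Z_hX true (C.K i) (hd i)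
      have h3 : lieBr (hX (C.K i)) (Zf : CVF (2 * n + 1 + 2)) y = 0 := by
        rw [lieBr_antisymm]
        funext k
        show (-1 : ℂ) * lieBr Zf (hX (C.K i)) y k = 0
        rw [h2]; simp
      rw [h3]; exact Submodule.zero_mem _
    · rw [frm_castSucc, frm_castSucc, lieBr_hX _ _ (hd i) (hd j)]
      exact hX_mem_span (hy i j)
  psc := by
    have h1 : ∀ᶠ y in 𝓝 (inc p), ∀ κ : Fin n → ℂ,
        0 ≤ (Complex.I * ∑ i, ∑ j, κ i * (starRingEnd ℂ) (κ j) *
          pair C.η (lieBr (C.K i) (cjVF (C.K j))) (pr y)).re := tendsto_pr.eventually C.psc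
    filter_upwards [h1, eventually_diff_pr C.smK] with y hy hd κ
    have hdc : ∀ j i, DifferentiableAt ℝ (fun x => cjVF (C.K j) x i) (pr y) := by
      intro j i
      exact (Complex.conjCLE.differentiableAt).comp _ (hd j i)
    refine (hy (fun j => κ j.castSucc)).trans_eq ?_
    congr 2
    rw [Fin.sum_univ_castSucc]
    have z1 : ∀ j : Fin (n + 1), pair (liftη C.η) (lieBr (frm C.K (Fin.last n)) (cjVF (frm C.K j))) y = 0 := by
      intro j
      apply pair_liftη_zero
      rw [frm_last]
      refine Fin.lastCases ?_ (fun j => ?_) j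
      · rw [frm_last]; exact lieBr_Z_Z true false y
      · rw [frm_castSucc, cj_hX_field]
        exact lieBr_Z_hX true _ (hdc j)
    have z2 : ∀ i : Fin n, pair (liftη C.η) (lieBr (frm C.K i.castSucc) (cjVF (frm C.K (Fin.last n)))) y = 0 := by
      intro i
      apply pair_liftη_zero
      rw [frm_last, frm_castSucc, lieBr_antisymm]
      funext k
      show (-1 : ℂ) * lieBr (LX Zf false) (hX (C.K i)) y k = 0
      rw [lieBr_Z_hX false _ (hd i)]
      simp
    have z3 : ∀ i j : Fin n, pair (liftη C.η) (lieBr (frm C.K i.castSucc) (cjVF (frm C.K j.castSucc))) y =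
        pair C.η (lieBr (C.K i) (cjVF (C.K j))) (pr y) := by
      intro i j
      rw [frm_castSucc, frm_castSucc, cj_hX_field, ← pair_liftη_hX]
      exact pair_congr_at _ (lieBr_hX _ _ (hd i) (hdc j))
    have z4 : ∑ j : Fin (n + 1), κ (Fin.last n) * (starRingEnd ℂ) (κ j) *
        pair (liftη C.η) (lieBr (frm C.K (Fin.last n)) (cjVF (frm C.K j))) y = 0 := by
      refine Finset.sum_eq_zero fun j _ => ?_
      rw [z1, mul_zero]
    rw [z4, add_zero]
    refine Finset.sum_congr rfl fun i _ => ?_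
    rw [Fin.sum_univ_castSucc, z2, mul_zero, add_zero]
    refine Finset.sum_congr rfl fun j _ => ?_
    rw [z3]

end Pool.Agent.W737.Sub
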