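import Pool.Agent.W737.Sub.Lift

/-! The lifted field `L' = ∂_ζ + ∑_j ζ^{p_j} ζ̄^{q_j} K_j`. -/

set_option autoImplicit false

open scoped ContDiff Topology BigOperators
open Finset Filter DAng

namespace Pool.Agent.W737.Sub

variable {d r : ℕ}

/-- letters: `(j, true)` is `K_j`, `(j, false)` is its conjugate -/
abbrev Lt (r : ℕ) := Fin r × Bool

/-- the field of a letter -/
noncomputable def KL (K : Fin r → CVF d) (κ : Lt r) : CVF d := LX (K κ.1) κ.2

/-- iterated derivatives, the head acts first -/
noncomputable def opK (K : Fin r → CVF d) : List (Lt r) → CF d → CF d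
  | [], f => f
  | κ :: w, f => opK K w (act (KL K κ) f)

/-- iterated brackets, the head is outermost -/
noncomputable def brK (K : Fin r → CVF d) : List (Lt r) → CVF d
  | [] => 0
  | [κ] => KL K κ
  | κ :: κ' :: w => lieBr (KL K κ) (brK K (κ' :: w))

/-- exponents of the coefficient of `K_j` (`true`) or of its conjugate (`false`) -/
def mu (j : Fin r) (ε : Bool) : Bool → ℕ := fun b => if b = ε then 2 * r - (j + 1) else j + 1

lemma mu_self (j : Fin r) (ε : Bool) : mu j ε ε = 2 * r - (j + 1) := by simp [mu]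
lemma mu_not (j : Fin r) (ε : Bool) : mu j ε (!ε) = j + 1 := by cases ε <;> simp [mu]

lemma mu_sum (j : Fin r) (ε : Bool) : mu j ε true + mu j ε false = 2 * r := by
  have := j.2
  cases ε
  · simp only [mu]
    simp
    omega
  · simp only [mu]
    simp
    omega

/-- the lifted field -/
noncomputable def LL (K : Fin r → CVF d) : CVF (d + 2) :=
  fun y i => Zf y i + ∑ j, mo (mu j true) y * hX (K j) y i

lemma cj_mo (j : Fin r) (y : E (d + 2)) :
    (starRingEnd ℂ) (mo (mu j true) y) = mo (mu j false) y := by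
  simp only [mo, map_mul, map_pow, Complex.conj_conj, mu]
  simp
  ring

lemma cj_hX (X : CVF d) (y : E (d + 2)) (i : Fin (d + 2)) :
    (starRingEnd ℂ) (hX X y i) = hX (cjVF X) y i := by
  refine Fin.addCases (fun i => ?_) (fun i => ?_) i
  · simp [cjVF]
  · simp

lemma LX_LL (K : Fin r → CVF d) (ε : Bool) : LX (LL K) ε =
    fun y i => LX Zf ε y i + ∑ j, mo (mu j ε) y * hX (LX (K j) ε) y i := by
  cases ε
  · funext y i
    show (starRingEnd ℂ) (LL K y i) = _
    simp only [LL, map_add, map_sum, map_mul, cj_mo, cj_hX]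
    rfl
  · rfl

/-- the field `ζ^a ζ̄^b X` -/
noncomputable def T (e : Bool → ℕ) (X : CVF d) : CVF (d + 2) := fun y i => mo e y * hX X y i

lemma sm_LL {p : E d} {K : Fin r → CVF d} (hK : ∀ j, Sm p (K j)) : Sm (inc p) (LL K) := by
  refine Sm.of_apply fun i => ?_
  refine Sm.add ((sm_Zf _).comp_apply i) (Sm.sum fun j _ => (sm_mo _ _).mul ((sm_hX (hK j)).comp_apply i))

lemma sm_T {p : E d} {X : CVF d} (hX' : Sm p X) (e : Bool → ℕ) : Sm (inc p) (T e X) :=
  Sm.of_apply fun i => (sm_mo _ _).mul ((sm_hX hX').comp_apply i)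

lemma sm_KL {p : E d} {K : Fin r → CVF d} (hK : ∀ j, Sm p (K j)) (κ : Lt r) : Sm p (KL K κ) :=
  (hK κ.1).LX κ.2

lemma sm_opK {p : E d} {K : Fin r → CVF d} (hK : ∀ j, Sm p (K j)) :
    ∀ (w : List (Lt r)) {f : CF d}, Sm p f → Sm p (opK K w f)
  | [], _, hf => hf
  | κ :: w, _, hf => sm_opK hK w ((sm_KL hK κ).act hf)

lemma sm_brK {p : E d} {K : Fin r → CVF d} (hK : ∀ j, Sm p (K j)) :
    ∀ (w : List (Lt r)), Sm p (brK K w)
  | [] => Sm.const (p := p) (0 : Fin d → ℂ)
  | [κ] => sm_KL hK κ
  | κ :: κ' :: w => (sm_KL hK κ).lieBr (sm_brK hK (κ' :: w))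

lemma act_hX_mul {X : CVF d} {f : CF d} {y : E (d + 2)} (e : Bool → ℕ)
    (hf : DifferentiableAt ℝ f (pr y)) :
    act (hX X) (fun y => mo e y * f (pr y)) y = mo e y * act X f (pr y) := by
  have hf' : DifferentiableAt ℝ (fun y : E (d + 2) => f (pr y)) y := by
    have h2 : HasFDerivAt (pr : E (d + 2) → E d) prL y := by
      have : (pr : E (d + 2) → E d) = prL := by funext y; simp
      rw [this]; exact prL.hasFDerivAt
    exact hf.comp y h2.differentiableAt
  rw [act_mul (differentiableAt_mo y e) hf', act_hX_comp_pr X hf, act_hX_mo]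
  ring

lemma act_Z_mul {f : CF d} {y : E (d + 2)} (ε : Bool) (e : Bool → ℕ)
    (hf : DifferentiableAt ℝ f (pr y)) :
    act (LX Zf ε) (fun y => mo e y * f (pr y)) y = e ε * (mo (dec e ε) y * f (pr y)) := by
  have hf' : DifferentiableAt ℝ (fun y : E (d + 2) => f (pr y)) y := by
    have h2 : HasFDerivAt (pr : E (d + 2) → E d) prL y := by
      have : (pr : E (d + 2) → E d) = prL := by funext y; simp
      rw [this]; exact prL.hasFDerivAt
    exact hf.comp y h2.differentiableAt
  rw [act_mul (differentiableAt_mo y e) hf', act_LXZ_comp_pr ε hf, act_Z_mo]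
  ring

lemma act_LL (K : Fin r → CVF d) (ε : Bool) (g : CF (d + 2)) (y : E (d + 2)) :
    act (LX (LL K) ε) g y = act (LX Zf ε) g y + ∑ j, mo (mu j ε) y * act (hX (LX (K j) ε)) g y := by
  rw [LX_LL, act_add_field', act_sum_field']
  simp only [act_fmul_field]

lemma step_fun (K : Fin r → CVF d) (ε : Bool) (e : Bool → ℕ) {f : CF d} {y : E (d + 2)}
    (hf : DifferentiableAt ℝ f (pr y)) :
    act (LX (LL K) ε) (fun y => mo e y * f (pr y)) y =
      e ε * (mo (dec e ε) y * f (pr y)) +
        ∑ j, mo (e + mu j ε) y * act (LX (K j) ε) f (pr y) := by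
  rw [act_LL, act_Z_mul ε e hf]
  congr 1
  refine Finset.sum_congr rfl fun j _ => ?_
  rw [act_hX_mul e hf, mo_add]
  ring

lemma act_zero {m : ℕ} (X : CVF m) (x : E m) : act X (fun _ => (0 : ℂ)) x = 0 := act_const X 0 x

lemma step_br (K : Fin r → CVF d) (ε : Bool) (e : Bool → ℕ) {X : CVF d} {y : E (d + 2)}
    (hK : ∀ j i, DifferentiableAt ℝ (fun x => K j x i) (pr y))
    (hX' : ∀ i, DifferentiableAt ℝ (fun x => X x i) (pr y)) (i : Fin (d + 2)) :
    lieBr (LX (LL K) ε) (T e X) y i =
      e ε * T (dec e ε) X y i + ∑ j, T (e + mu j ε) (lieBr (LX (K j) ε) X) y i := by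
  have hKε : ∀ j i, DifferentiableAt ℝ (fun x => LX (K j) ε x i) (pr y) := by
    intro j i
    cases ε
    · exact (Complex.conjCLE.differentiableAt).comp _ (hK j i)
    · exact hK j i
  simp only [lieBr]
  refine Fin.addCases (fun i => ?_) (fun i => ?_) i
  · have h1 : (fun y => T e X y (Fin.castAdd 2 i)) = fun y => mo e y * X (pr y) i := by
      funext y; simp [T]
    have h2 : (fun y => LX (LL K) ε y (Fin.castAdd 2 i)) =
        fun y => ∑ j, mo (mu j ε) y * LX (K j) ε (pr y) i := by
      funext y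
      rw [LX_LL]
      have : LX Zf ε y (Fin.castAdd 2 i) = 0 := by
        cases ε
        · exact cjZf_left y i
        · exact Zf_left y i
      simp [this]
    rw [h1, h2, step_fun K ε e (f := fun x => X x i) (hX' i)]
    have h3 : act (T e X) (fun y => ∑ j, mo (mu j ε) y * LX (K j) ε (pr y) i) y =
        ∑ j, mo e y * (mo (mu j ε) y * act X (fun x => LX (K j) ε x i) (pr y)) := by
      have h4 : T e X = fun y i => mo e y * hX X y i := rfl
      rw [h4, act_fmul_field, act_sum]
      · rw [Finset.mul_sum]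
        refine Finset.sum_congr rfl fun j _ => ?_
        rw [act_hX_mul (f := fun x => LX (K j) ε x i) _ (hKε j i)]
      · intro j _
        have hf' : DifferentiableAt ℝ (fun y : E (d + 2) => LX (K j) ε (pr y) i) y := by
          have h2 : HasFDerivAt (pr : E (d + 2) → E d) prL y := by
            have : (pr : E (d + 2) → E d) = prL := by funext y; simp
            rw [this]; exact prL.hasFDerivAt
          exact (hKε j i).comp y h2.differentiableAt
        exact (differentiableAt_mo y _).mul hf'
    rw [h3, add_sub_assoc, ← Finset.sum_sub_distrib]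
    simp only [T, hX_left]
    congr 1
    refine Finset.sum_congr rfl fun j _ => ?_
    rw [mo_add]
    simp only [lieBr]
    ring
  · have h1 : (fun y => T e X y (Fin.natAdd d i)) = fun _ => 0 := by
      funext y; simp [T]
    have h2 : (fun y => LX (LL K) ε y (Fin.natAdd d i)) = fun _ => LX Zf ε y (Fin.natAdd d i) := by
      funext y'
      rw [LX_LL]
      simp
      cases ε <;> rfl
    rw [h1, h2, act_zero, act_const]
    simp [T]

/-- bracket with `∂_ζ` or its conjugate -/
lemma base_br (K : Fin r → CVF d) (ε ε' : Bool) {y : E (d + 2)}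
    (hK : ∀ j i, DifferentiableAt ℝ (fun x => K j x i) (pr y)) (i : Fin (d + 2)) :
    lieBr (LX (LL K) ε) (LX Zf ε') y i =
      - ∑ j, mu j ε ε' * T (dec (mu j ε) ε') (LX (K j) ε) y i := by
  have hKε : ∀ j i, DifferentiableAt ℝ (fun x => LX (K j) ε x i) (pr y) := by
    intro j i
    cases ε
    · exact (Complex.conjCLE.differentiableAt).comp _ (hK j i)
    · exact hK j i
  have hc : ∀ i, (fun y : E (d + 2) => LX Zf ε' y i) = fun _ => LX Zf ε' y i := by
    intro i; funext y'; cases ε' <;> rfl
  simp only [lieBr]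
  rw [hc i, act_const, zero_sub]
  congr 1
  refine Fin.addCases (fun i => ?_) (fun i => ?_) i
  · have h2 : (fun y => LX (LL K) ε y (Fin.castAdd 2 i)) =
        fun y => ∑ j, mo (mu j ε) y * LX (K j) ε (pr y) i := by
      funext y
      rw [LX_LL]
      have : LX Zf ε y (Fin.castAdd 2 i) = 0 := by
        cases ε
        · exact cjZf_left y i
        · exact Zf_left y i
      simp [this]
    rw [h2, act_sum]
    · refine Finset.sum_congr rfl fun j _ => ?_
      rw [act_Z_mul (f := fun x => LX (K j) ε x i) _ _ (hKε j i)]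
      simp [T]
    · intro j _
      have hf' : DifferentiableAt ℝ (fun y : E (d + 2) => LX (K j) ε (pr y) i) y := by
        have h2 : HasFDerivAt (pr : E (d + 2) → E d) prL y := by
          have : (pr : E (d + 2) → E d) = prL := by funext y; simp
          rw [this]; exact prL.hasFDerivAt
        exact (hKε j i).comp y h2.differentiableAt
      exact (differentiableAt_mo y _).mul hf'
  · have h2 : (fun y => LX (LL K) ε y (Fin.natAdd d i)) = fun _ => LX Zf ε y (Fin.natAdd d i) := by
      funext y'
      rw [LX_LL]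
      simp
      cases ε <;> rfl
    rw [h2, act_const]
    simp [T]

end Pool.Agent.W737.Sub
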