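import Pool.Agent.W737.Sub.Upper2

/-! The comparison theorem for tuples of fields. -/

set_option autoImplicit false

open scoped ContDiff Topology BigOperators
open Finset Filter DAng

namespace Pool.Agent.W737.Sub

section lin
variable {d r : ℕ} {p : E d} {K : Fin r → CVF d}

lemma opK_congr (K : Fin r → CVF d) : ∀ (w : List (Lt r)) {f g : CF d}, f =ᶠ[𝓝 p] g →
    opK K w f =ᶠ[𝓝 p] opK K w g
  | [], _, _, h => h
  | _ :: w, _, _, h => opK_congr K w (act_congr EventuallyEq.rfl h)

lemma opK_add (hK : ∀ j, Sm p (K j)) : ∀ (w : List (Lt r)) {f g : CF d}, Sm p f → Sm p g →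
    opK K w (fun x => f x + g x) =ᶠ[𝓝 p] fun x => opK K w f x + opK K w g x
  | [], _, _, _, _ => EventuallyEq.rfl
  | κ :: w, f, g, hf, hg => by
    have h1 : act (KL K κ) (fun x => f x + g x) =ᶠ[𝓝 p] fun x => act (KL K κ) f x + act (KL K κ) g x :=
      act_fun_add hf hg
    have h2 := opK_congr K w h1
    have h3 := opK_add hK w ((sm_KL hK κ).act hf) ((sm_KL hK κ).act hg)
    exact h2.trans h3

lemma opK_smul (hK : ∀ j, Sm p (K j)) (c : ℂ) : ∀ (w : List (Lt r)) {f : CF d}, Sm p f →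
    opK K w (fun x => c * f x) =ᶠ[𝓝 p] fun x => c * opK K w f x
  | [], _, _ => EventuallyEq.rfl
  | κ :: w, f, hf => by
    have h1 : act (KL K κ) (fun x => c * f x) =ᶠ[𝓝 p] fun x => c * act (KL K κ) f x :=
      act_fun_smul c hf
    exact (opK_congr K w h1).trans (opK_smul hK c w ((sm_KL hK κ).act hf))

lemma opK_zero (K : Fin r → CVF d) : ∀ (w : List (Lt r)), opK K w (fun _ => (0 : ℂ)) = fun _ => 0
  | [] => rfl
  | κ :: w => by
    show opK K w (act (KL K κ) fun _ => 0) = _
    have : act (KL K κ) (fun _ => (0 : ℂ)) = fun _ => 0 := by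
      funext x; exact act_const _ 0 x
    rw [this, opK_zero K w]

lemma opK_sum (hK : ∀ j, Sm p (K j)) {ι : Type*} (s : Finset ι) (w : List (Lt r)) {f : ι → CF d}
    (hf : ∀ i, Sm p (f i)) :
    opK K w (fun x => ∑ i ∈ s, f i x) =ᶠ[𝓝 p] fun x => ∑ i ∈ s, opK K w (f i) x := by
  classical
  induction s using Finset.induction_on with
  | empty =>
    simp only [Finset.sum_empty]
    rw [opK_zero]
  | insert a s ha ih =>
    simp only [Finset.sum_insert ha]
    have h1 := opK_add hK w (hf a) (Sm.sum (s := s) fun i _ => hf i)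
    filter_upwards [h1, ih] with x h1 h2
    rw [h1, h2]

/-- the reindexed word -/
def wmap {s r : ℕ} (ι : Fin s → Fin r) (w : List (Lt s)) : List (Lt r) := w.map fun κ => (ι κ.1, κ.2)

lemma opK_wmap {s : ℕ} {K : Fin s → CVF d} {K' : Fin r → CVF d} (ι : Fin s → Fin r)
    (h : ∀ j, K' (ι j) = K j) : ∀ (w : List (Lt s)) (f : CF d), opK K' (wmap ι w) f = opK K w f
  | [], _ => rfl
  | κ :: w, f => by
    show opK K' (wmap ι w) (act (KL K' (ι κ.1, κ.2)) f) = opK K w (act (KL K κ) f)
    have : KL K' (ι κ.1, κ.2) = KL K κ := by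
      simp only [KL, h]
    rw [this, opK_wmap ι h w]

end lin

variable {n r s : ℕ} {p : E (2 * n + 1)}

/-- vanishing of all brackets of length at most `m` -/
def TV (η : E (2 * n + 1) → Fin (2 * n + 1) → ℝ) (p : E (2 * n + 1)) (K : Fin r → CVF (2 * n + 1))
    (m : ℕ) : Prop :=
  ∀ w : List (Lt r), w ≠ [] → w.length ≤ m → pair η (brK K w) p = 0

/-- vanishing of all derivatives of length at most `m - 2` of the Levi coefficients -/
def CV (η : E (2 * n + 1) → Fin (2 * n + 1) → ℝ) (p : E (2 * n + 1)) (K : Fin r → CVF (2 * n + 1))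
    (m : ℕ) : Prop :=
  ∀ w : List (Lt r), w.length + 2 ≤ m → ∀ i j, opK K w (lam η K i j) p = 0

section
variable (C : LCR n p) {K : Fin r → CVF (2 * n + 1)}

lemma ann_of_span (hspan : ∀ j, ∀ᶠ x in 𝓝 p, K j x ∈ Submodule.span ℂ (Set.range fun l => C.K l x)) :
    ∀ j, ∀ᶠ x in 𝓝 p, pair C.η (K j) x = 0 := by
  intro j
  filter_upwards [hspan j, eventually_all.2 C.ann] with x h2 h3
  refine Submodule.span_induction (p := fun v _ => ∑ i, (C.η x i : ℂ) * v i = 0) ?_ ?_ ?_ ?_ h2
  · rintro _ ⟨l, rfl⟩; exact h3 l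
  · simp
  · intro x y _ _ hx hy
    simp only [Pi.add_apply, mul_add, Finset.sum_add_distrib, hx, hy, add_zero]
  · intro a x _ hx
    simp only [Pi.smul_apply, smul_eq_mul]
    rw [show ∀ (g : Fin (2 * n + 1) → ℂ), ∑ i, g i * (a * x i) = a * ∑ i, g i * x i from
      fun g => by rw [Finset.mul_sum]; exact Finset.sum_congr rfl fun i _ => by ring, hx, mul_zero]

lemma lift_span (hspan : ∀ j, ∀ᶠ x in 𝓝 p, K j x ∈ Submodule.span ℂ (Set.range fun l => C.K l x)) :
    ∀ᶠ y in 𝓝 (inc p), LL K y ∈ Submodule.span ℂ (Set.range fun l => (liftC C).K l y) := by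
  have h1 : ∀ᶠ y in 𝓝 (inc p), ∀ j, K j (pr y) ∈ Submodule.span ℂ (Set.range fun l => C.K l (pr y)) :=
    tendsto_pr.eventually (eventually_all.2 hspan)
  filter_upwards [h1] with y hy
  exact LL_mem_span hy

/-- from the Levi form to brackets -/
theorem TV_of_CV (hK : ∀ j, Sm p (K j))
    (hspan : ∀ j, ∀ᶠ x in 𝓝 p, K j x ∈ Submodule.span ℂ (Set.range fun l => C.K l x)) {m : ℕ}
    (h : CV C.η p K m) : TV C.η p K m := by
  intro w hw hwm
  by_contra hne
  have h1 : ∃ W : List Bool, W ≠ [] ∧ W.length = (2 * r + 1) * w.length ∧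
      pair (liftη C.η) (brVF (LL K) W) (inc p) ≠ 0 := by
    by_contra hcon
    push Not at hcon
    exact hne (upper_br hK C.η hw hcon)
  obtain ⟨W, _, hWl, hWne⟩ := h1
  obtain ⟨k, hk, _, _, ⟨W', hW'l, hW'ne⟩, _, _⟩ := key (liftC C) (LL K) (sm_LL hK)
    (lift_span C hspan) _ (Or.inl ⟨W, hWl, hWne⟩)
  refine hW'ne (lower_op hK C.smη (ann_of_span C hspan) h W' ?_)
  rw [hW'l]
  have h2 : (2 * r + 1) * w.length ≤ (2 * r + 1) * m := Nat.mul_le_mul_left _ hwm
  have h3 : (2 * r + 1) * (m + 1) = (2 * r + 1) * m + (2 * r + 1) := by ring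
  omega

/-- from brackets to the trace of the Levi form -/
theorem trace_zero (hK : ∀ j, Sm p (K j))
    (hspan : ∀ j, ∀ᶠ x in 𝓝 p, K j x ∈ Submodule.span ℂ (Set.range fun l => C.K l x)) {m : ℕ}
    (h : TV C.η p K m) (w : List (Lt r)) (hw : w.length + 2 ≤ m) :
    opK K w (fun x => ∑ j, lam C.η K j j x) p = 0 := by
  refine upper_op hK C.smη (ann_of_span C hspan) fun W hW => ?_
  by_contra hne
  obtain ⟨k, hk, hk2, ⟨W', hW'l, hW'ne⟩, _, _, _⟩ := key (liftC C) (LL K) (sm_LL hK)
    (lift_span C hspan) _ (Or.inr ⟨W, hW, hne⟩)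
  refine hW'ne (lower_br hK C.η h W' (by omega) ?_)
  rw [hW'l]
  have h2 : (2 * r + 1) * (w.length + 2) ≤ (2 * r + 1) * m := Nat.mul_le_mul_left _ hw
  have h3 : (2 * r + 1) * (m + 1) = (2 * r + 1) * m + (2 * r + 1) := by ring
  omega

end

/-! ### constant combinations and polarisation -/

/-- constant linear combination of the fields -/
noncomputable def cmb {d : ℕ} (K : Fin s → CVF d) (a : Fin s → ℂ) : CVF d :=
  fun x i => ∑ j, a j * K j x i

lemma sm_cmb {d : ℕ} {p : E d} {K : Fin s → CVF d} (hK : ∀ j, Sm p (K j)) (a : Fin s → ℂ) :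
    Sm p (cmb K a) :=
  Sm.of_apply fun i => Sm.sum fun j _ => (Sm.const _).mul ((hK j).comp_apply i)

lemma cmb_single {d : ℕ} (K : Fin s → CVF d) (j : Fin s) : cmb K (Pi.single j 1) = K j := by
  funext x i
  simp only [cmb]
  rw [Finset.sum_eq_single j]
  · simp
  · intro b _ hb; simp [hb]
  · intro h; exact absurd (Finset.mem_univ _) h

lemma cmb_mem {d n : ℕ} {F : Fin n → CVF d} {K : Fin s → CVF d} {x : E d}
    (h : ∀ j, K j x ∈ Submodule.span ℂ (Set.range fun l => F l x)) (a : Fin s → ℂ) :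
    cmb K a x ∈ Submodule.span ℂ (Set.range fun l => F l x) := by
  have h1 : cmb K a x = ∑ j, a j • K j x := by
    funext i
    rw [Finset.sum_apply]
    rfl
  rw [h1]
  exact Submodule.sum_mem _ fun j _ => Submodule.smul_mem _ _ (h j)

/-- the tuple of combinations -/
noncomputable def KA {d r : ℕ} (K : Fin s → CVF d) (A : Fin r → Fin s → ℂ) : Fin r → CVF d :=
  fun j => cmb K (A j)

/-- the value of the Levi form on a combination -/
noncomputable def lvi (η : E (2 * n + 1) → Fin (2 * n + 1) → ℝ) (K : Fin s → CVF (2 * n + 1))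
    (a : Fin s → ℂ) : CF (2 * n + 1) := pair η (lieBr (cmb K a) (cjVF (cmb K a)))

lemma lvi_eq {K : Fin s → CVF (2 * n + 1)} (hK : ∀ j, Sm p (K j))
    (η : E (2 * n + 1) → Fin (2 * n + 1) → ℝ) (a : Fin s → ℂ) :
    lvi η K a =ᶠ[𝓝 p] fun x => ∑ i, ∑ j, (a i * (starRingEnd ℂ) (a j)) * lam η K i j x := by
  have h1 : ∀ᶠ x in 𝓝 p, ∀ j i, DifferentiableAt ℝ (fun y => K j y i) x :=
    eventually_all.2 fun j => eventually_all.2 fun i => ((hK j).comp_apply i).differentiableAt
  filter_upwards [h1] with x hx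
  exact pair_lieBr_sum η K a hx

lemma opK_lvi {K : Fin s → CVF (2 * n + 1)} (hK : ∀ j, Sm p (K j))
    {η : E (2 * n + 1) → Fin (2 * n + 1) → ℝ} (hη : Sm p η) (w : List (Lt s)) (a : Fin s → ℂ) :
    opK K w (lvi η K a) p = ∑ i, ∑ j, (a i * (starRingEnd ℂ) (a j)) * opK K w (lam η K i j) p := by
  rw [(opK_congr K w (lvi_eq hK η a)).self_of_nhds]
  have h1 : ∀ i j, Sm p (fun x => (a i * (starRingEnd ℂ) (a j)) * lam η K i j x) := fun i j =>
    (Sm.const _).mul (sm_lam hK hη i j)
  rw [(opK_sum hK Finset.univ w (f := fun i x => ∑ j, (a i * (starRingEnd ℂ) (a j)) * lam η K i j x)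
    fun i => Sm.sum fun j _ => h1 i j).self_of_nhds]
  refine Finset.sum_congr rfl fun i _ => ?_
  rw [(opK_sum hK Finset.univ w (f := fun j x => (a i * (starRingEnd ℂ) (a j)) * lam η K i j x)
    fun j => h1 i j).self_of_nhds]
  refine Finset.sum_congr rfl fun j _ => ?_
  rw [(opK_smul hK (a i * (starRingEnd ℂ) (a j)) w (sm_lam hK hη i j)).self_of_nhds]

/-- polarisation of a sesquilinear form -/
lemma polar {q : Fin s → Fin s → ℂ}
    (h : ∀ a : Fin s → ℂ, a ≠ 0 → ∑ i, ∑ j, (a i * (starRingEnd ℂ) (a j)) * q i j = 0)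
    (i j : Fin s) : q i j = 0 := by
  classical
  have hd : ∀ i, q i i = 0 := by
    intro i
    have h1 := h (Pi.single i 1) (by
      intro h0; have := congrFun h0 i; simp at this)
    rw [Finset.sum_eq_single i, Finset.sum_eq_single i] at h1
    · simpa using h1
    · intro b _ hb; simp [hb]
    · intro hh; exact absurd (Finset.mem_univ _) hh
    · intro b _ hb
      refine Finset.sum_eq_zero fun c _ => ?_
      simp [hb]
    · intro hh; exact absurd (Finset.mem_univ _) hh
  by_cases hij : i = j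
  · subst hij; exact hd i
  have key : ∀ c : ℂ, c * q j i + (starRingEnd ℂ) c * q i j = 0 := by
    intro c
    have h1 := h (Pi.single i 1 + Pi.single j c) (by
      intro h0; have := congrFun h0 i; simp [hij] at this)
    have e1 : ∀ k, (Pi.single i 1 + Pi.single j c : Fin s → ℂ) k =
        (if k = i then 1 else 0) + (if k = j then c else 0) := by
      intro k
      simp only [Pi.add_apply, Pi.single_apply]
    simp only [e1, map_add, apply_ite (starRingEnd ℂ), map_one, map_zero, add_mul, mul_add,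
      Finset.sum_add_distrib, ite_mul, mul_ite, one_mul, zero_mul, mul_zero, mul_one,
      Finset.sum_ite_eq', Finset.sum_ite_eq, Finset.mem_univ, if_true, Finset.sum_const_zero] at h1
    simp only [hd, mul_zero, add_zero, zero_add] at h1
    linear_combination h1
  have k1 := key 1
  have k2 := key Complex.I
  simp only [map_one, one_mul, Complex.conj_I] at k1 k2
  have hI := Complex.I_ne_zero
  have k3 : q j i - q i j = 0 := by
    have : Complex.I * (q j i - q i j) = 0 := by linear_combination k2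
    exact (mul_eq_zero.1 this).resolve_left hI
  linear_combination (1 / 2) * k1 - (1 / 2) * k3

/-- from brackets of all combinations to the Levi form -/
theorem CV_of_TV (C : LCR n p) {K : Fin s → CVF (2 * n + 1)} (hK : ∀ j, Sm p (K j))
    (hspan : ∀ j, ∀ᶠ x in 𝓝 p, K j x ∈ Submodule.span ℂ (Set.range fun l => C.K l x)) {m : ℕ}
    (h : ∀ (r : ℕ) (A : Fin r → Fin s → ℂ), TV C.η p (KA K A) m) : CV C.η p K m := by
  intro w hw i j
  refine polar (q := fun i j => opK K w (lam C.η K i j) p) (fun a _ => ?_) i j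
  rw [← opK_lvi hK C.smη w a]
  -- traces of the enlarged tuples
  have hA : ∀ (r : ℕ) (A : Fin r → Fin s → ℂ) (ι : Fin s → Fin r), (∀ j, A (ι j) = Pi.single j 1) →
      opK K w (fun x => ∑ j, lam C.η (KA K A) j j x) p = 0 := by
    intro r A ι hι
    have h1 := trace_zero C (K := KA K A) (fun j => sm_cmb hK _)
      (fun j => by
        filter_upwards [eventually_all.2 hspan] with x hx
        exact cmb_mem hx _) (h r A) (wmap ι w) (by simpa [wmap] using hw)
    rw [opK_wmap (K := K) ι (fun j => by simp only [KA, hι, cmb_single])] at h1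
    exact h1
  let A1 : Fin (s + 1) → Fin s → ℂ := Fin.snoc (α := fun _ => Fin s → ℂ) (fun j => Pi.single j 1) a
  let A2 : Fin (s + 2) → Fin s → ℂ := Fin.snoc (α := fun _ => Fin s → ℂ) A1 a
  have h1 := hA _ A1 Fin.castSucc (fun j => by simp [A1])
  have h2 := hA _ A2 (fun j => j.castSucc.castSucc) (fun j => by simp [A2, A1])
  have e1 : (fun x => ∑ j, lam C.η (KA K A2) j j x) =
      fun x => (∑ j, lam C.η (KA K A1) j j x) + lvi C.η K a x := by
    funext x
    rw [Fin.sum_univ_castSucc]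
    congr 1
    · refine Finset.sum_congr rfl fun j _ => ?_
      simp [lam, KA, A2]
    · simp [lam, KA, A2, lvi]
  have hs1 : Sm p (fun x => ∑ j, lam C.η (KA K A1) j j x) :=
    Sm.sum fun j _ => sm_lam (fun j => sm_cmb hK _) C.smη j j
  have hs2 : Sm p (lvi C.η K a) := C.smη.pair ((sm_cmb hK a).lieBr (sm_cmb hK a).cjVF)
  rw [e1, (opK_add hK w hs1 hs2).self_of_nhds] at h2
  simp only [h1, zero_add] at h2
  exact h2

end Pool.Agent.W737.Sub
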