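import Pool.Agent.W737.Sub.LeviLift

/-! Lie words in `L'` whose value on the slice `ζ = 0` is a letter. -/

set_option autoImplicit false

open scoped ContDiff Topology BigOperators
open Finset Filter DAng

namespace Pool.Agent.W737.Sub

variable {d r : ℕ} {p : E d} {K : Fin r → CVF d}

/-! ### leading terms -/

/-- `U` has leading terms `∑ c κ ζ^{..} ζ̄^{..} K_κ` -/
def Ld (p : E d) (K : Fin r → CVF d) (k : ℕ) (c : Lt r → ℂ) (e : Lt r → Bool → ℕ)
    (U : CVF (d + 2)) : Prop :=
  (∀ κ, c κ = 0 ∨ e κ true + e κ false + k = 2 * r + 1) ∧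
    ∃ V, VC p K 2 k V ∧ U =ᶠ[𝓝 (inc p)] fun y i => ∑ κ, c κ * T (e κ) (KL K κ) y i + V y i

lemma lieBr_sum_right {m : ℕ} {q : E m} {ι : Type*} (s : Finset ι) {X : CVF m} {U : ι → CVF m}
    (hU : ∀ a, Sm q (U a)) :
    lieBr X (fun y i => ∑ a ∈ s, U a y i) =ᶠ[𝓝 q] fun y i => ∑ a ∈ s, lieBr X (U a) y i := by
  classical
  induction s using Finset.induction_on with
  | empty =>
    simp only [Finset.sum_empty]
    rw [lieBr_zero_right]
  | insert a s ha ih =>
    simp only [Finset.sum_insert ha]
    have h1 := lieBr_add_right (X := X) (hU a)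
      (Sm.of_apply fun i => Sm.sum fun j (_ : j ∈ s) => (hU j).comp_apply i)
    filter_upwards [h1, ih] with y h1 h2
    rw [h1, h2]

lemma dec_self (e : Bool → ℕ) (ε : Bool) : dec e ε ε = e ε - 1 := Function.update_self _ _ _
lemma dec_not (e : Bool → ℕ) (ε : Bool) : dec e ε (!ε) = e (!ε) :=
  Function.update_of_ne (by cases ε <;> simp) _ _

lemma Ld.step (hK : ∀ j, Sm p (K j)) {k : ℕ} {c : Lt r → ℂ} {e : Lt r → Bool → ℕ}
    {U : CVF (d + 2)} (ε : Bool) (h : Ld p K k c e U) :
    Ld p K (k + 1) (fun κ => c κ * e κ ε) (fun κ => dec (e κ) ε) (lieBr (LX (LL K) ε) U) := by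
  obtain ⟨hc, V, hV, hU⟩ := h
  refine ⟨?_, ?_⟩
  · intro κ
    show c κ * (e κ ε : ℂ) = 0 ∨ dec (e κ) ε true + dec (e κ) ε false + (k + 1) = 2 * r + 1
    rcases hc κ with h1 | h1
    · left; rw [h1, zero_mul]
    · by_cases h2 : e κ ε = 0
      · left; rw [h2]; simp
      · right
        cases ε
        · have h3 : dec (e κ) false true = e κ true := dec_not (e κ) false
          have h4 := dec_self (e κ) false
          rw [h3, h4]; omega
        · have h3 : dec (e κ) true false = e κ false := dec_not (e κ) true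
          have h4 := dec_self (e κ) true
          rw [h3, h4]; omega
  · refine ⟨fun y i => ∑ κ : Lt r, ∑ j, c κ * T (e κ + mu j ε) (brK K [(j, ε), κ]) y i +
      lieBr (LX (LL K) ε) V y i, VC.add (VC.sum _ fun κ _ => ?_) (hV.step hK ε), ?_⟩
    · rcases hc κ with h1 | h1
      · rw [h1]
        simpa using VC.zero
      · refine VC.sum _ fun j _ => VC.mono _ _ _ (by simp) (by simp) ?_
        have := mu_sum j ε
        simp only [List.length_cons, List.length_nil, Pi.add_apply]
        omega
    · have hT : ∀ κ : Lt r, Sm (inc p) (fun y i => c κ * T (e κ) (KL K κ) y i) := fun κ =>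
        Sm.of_apply fun i => (Sm.const _).mul ((sm_T (sm_KL hK κ) _).comp_apply i)
      have h1 : lieBr (LX (LL K) ε) U =ᶠ[𝓝 (inc p)] _ := lieBr_congr EventuallyEq.rfl hU
      have h2 := lieBr_add_right (X := LX (LL K) ε)
        (U := fun y i => ∑ κ, c κ * T (e κ) (KL K κ) y i)
        (Sm.of_apply fun i => Sm.sum fun κ _ => (hT κ).comp_apply i) (hV.sm hK)
      have h3 := lieBr_sum_right (q := inc p) Finset.univ (X := LX (LL K) ε) hT
      have h4 : ∀ κ : Lt r, lieBr (LX (LL K) ε) (fun y i => c κ * T (e κ) (KL K κ) y i)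
          =ᶠ[𝓝 (inc p)] _ := fun κ => lieBr_smul_right (c κ) (sm_T (sm_KL hK κ) _)
      filter_upwards [h1, h2, h3, eventually_all.2 h4, eventually_diff_pr hK,
        eventually_all.2 fun κ => eventually_diff_pr' (sm_KL hK κ)] with y h1 h2 h3 h4 h5 h6
      rw [h1, h2]
      funext i
      simp only [h3, h4]
      rw [← add_assoc, ← Finset.sum_add_distrib]
      congr 1
      refine Finset.sum_congr rfl fun κ _ => ?_
      rw [step_br K ε _ h5 (h6 κ) i, mul_add, Finset.mul_sum]
      congr 1
      ring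

/-- iterated adjoint action of a word -/
noncomputable def adw (L : CVF d) : List Bool → CVF d → CVF d
  | [], U => U
  | a :: w, U => lieBr (LX L a) (adw L w U)

lemma Ld.rep (hK : ∀ j, Sm p (K j)) {k : ℕ} {c : Lt r → ℂ} {e : Lt r → Bool → ℕ}
    {U : CVF (d + 2)} (ε : Bool) (h : Ld p K k c e U) : ∀ s : ℕ,
    Ld p K (k + s) (fun κ => c κ * ((e κ ε).descFactorial s : ℕ))
      (fun κ => Function.update (e κ) ε (e κ ε - s)) (adw (LL K) (List.replicate s ε) U)
  | 0 => by
    have h1 : (fun κ => c κ * ((e κ ε).descFactorial 0 : ℕ)) = c := by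
      funext κ; simp
    have h2 : (fun κ => Function.update (e κ) ε (e κ ε - 0)) = e := by
      funext κ; simp
    rw [h1, h2]; exact h
  | s + 1 => by
    have h1 := (Ld.rep hK ε h s).step hK ε
    have h2 : (fun κ => c κ * ((e κ ε).descFactorial s : ℕ) *
        ((Function.update (e κ) ε (e κ ε - s) ε : ℕ) : ℂ)) =
        (fun κ => c κ * ((e κ ε).descFactorial (s + 1) : ℕ)) := by
      funext κ
      rw [Function.update_self, Nat.descFactorial_succ]
      push_cast
      ring
    have h3 : (fun κ => dec (Function.update (e κ) ε (e κ ε - s)) ε) =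
        (fun κ => Function.update (e κ) ε (e κ ε - (s + 1))) := by
      funext κ
      rw [dec, Function.update_self, Function.update_idem]
      congr 1
    rw [h2, h3] at h1
    exact h1

/-- initial exponents -/
def e0 (ε : Bool) (κ : Lt r) : Bool → ℕ :=
  if κ.2 = ε then dec (mu κ.1 ε) (!ε) else dec (mu κ.1 (!ε)) ε

/-- initial coefficients -/
noncomputable def c0 (ε : Bool) (κ : Lt r) : ℂ := (if κ.2 = ε then -1 else 1) * ((κ.1 : ℕ) + 1 : ℂ)

lemma Ld.base (hK : ∀ j, Sm p (K j)) (ε : Bool) :
    Ld p K 2 (c0 ε) (e0 ε) (lieBr (LX (LL K) ε) (LX (LL K) (!ε))) := by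
  refine ⟨?_, ?_⟩
  · rintro ⟨j, b⟩
    right
    have hj := j.2
    simp only [e0]
    by_cases hb : b = ε
    · subst hb
      simp only [if_true]
      have h1 := mu_sum j b
      have h2 := dec_self (mu j b) (!b)
      have h3 : dec (mu j b) (!b) b = mu j b b := by
        have := dec_not (mu j b) (!b)
        simpa using this
      rw [mu_not] at h2
      rw [mu_self] at h3
      cases b
      · simp only [Bool.not_false] at *
        omega
      · simp only [Bool.not_true] at *
        omega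
    · simp only [if_neg hb]
      have h1 := mu_sum j (!ε)
      have h2 := dec_self (mu j (!ε)) ε
      have h3 := dec_not (mu j (!ε)) ε
      have h4 : mu j (!ε) ε = j + 1 := by
        have := mu_not j (!ε)
        simpa using this
      rw [h4] at h2
      rw [mu_self] at h3
      cases ε
      · simp only [Bool.not_false] at *
        omega
      · simp only [Bool.not_true] at *
        omega
  · refine ⟨fun y i => ∑ j, ∑ i', 1 * T (mu j (!ε) + mu i' ε) (brK K [(i', ε), (j, !ε)]) y i,
      VC.sum _ fun j _ => VC.sum _ fun i' _ => VC.mono _ _ _ (by simp) (by simp) ?_, ?_⟩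
    · have h1 := mu_sum j (!ε)
      have h2 := mu_sum i' ε
      simp only [List.length_cons, List.length_nil, Pi.add_apply]
      omega
    · have hT : ∀ j, Sm (inc p) (T (mu j (!ε)) (LX (K j) (!ε))) := fun j => sm_T ((hK j).LX _) _
      have hLX : LX (LL K) (!ε) = fun y i => LX Zf (!ε) y i + ∑ j, T (mu j (!ε)) (LX (K j) (!ε)) y i :=
        LX_LL K (!ε)
      have h1 : lieBr (LX (LL K) ε) (LX (LL K) (!ε)) =ᶠ[𝓝 (inc p)] fun y i =>
          lieBr (LX (LL K) ε) (LX Zf (!ε)) y i +
          lieBr (LX (LL K) ε) (fun y i => ∑ j, T (mu j (!ε)) (LX (K j) (!ε)) y i) y i := by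
        rw [hLX]
        exact lieBr_add_right (sm_LXZ _ _) (Sm.of_apply fun i => Sm.sum fun j _ => (hT j).comp_apply i)
      have h2 := lieBr_sum_right (q := inc p) Finset.univ (X := LX (LL K) ε) hT
      filter_upwards [h1, h2, eventually_diff_pr hK,
        eventually_all.2 fun j => eventually_diff_pr' ((hK j).LX (!ε))] with y h1 h2 h3 h4
      rw [h1, h2]
      funext i
      simp only
      rw [base_br K ε (!ε) h3 i]
      have h5 : ∀ j, lieBr (LX (LL K) ε) (T (mu j (!ε)) (LX (K j) (!ε))) y i = _ :=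
        fun j => step_br K ε _ h3 (h4 j) i
      simp only [h5]
      rw [Finset.sum_add_distrib, ← add_assoc]
      congr 1
      · rw [Fintype.sum_prod_type]
        simp only [Fintype.sum_bool]
        rw [← Finset.sum_neg_distrib, ← Finset.sum_add_distrib]
        refine Finset.sum_congr rfl fun j _ => ?_
        have h6 : mu j (!ε) ε = j + 1 := by
          have := mu_not j (!ε)
          simpa using this
        rw [mu_not, h6]
        simp only [c0, e0, KL]
        cases ε
        · simp
          ring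
        · simp
          ring
      · refine Finset.sum_congr rfl fun j _ => Finset.sum_congr rfl fun i' _ => ?_
        rw [one_mul]; rfl

/-- the word of the letter `κ` -/
def WΛ (κ : Lt r) : List Bool :=
  List.replicate (2 * r - (κ.1 + 1)) κ.2 ++ (List.replicate κ.1 (!κ.2) ++ [κ.2, !κ.2])

lemma length_WΛ (κ : Lt r) : (WΛ κ).length = 2 * r + 1 := by
  have := κ.1.2
  simp only [WΛ, List.length_append, List.length_replicate, List.length_cons, List.length_nil]
  omega

lemma WΛ_ne (κ : Lt r) : WΛ κ ≠ ([] : List Bool) := by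
  intro h
  have := length_WΛ κ
  rw [h] at this
  simp at this

lemma brVF_append (L : CVF d) : ∀ (v w : List Bool), w ≠ [] → brVF L (v ++ w) = adw L v (brVF L w)
  | [], _, _ => rfl
  | a :: v, w, hw => by
    have h1 := brVF_append L v w hw
    cases h : v ++ w with
    | nil => exact absurd (List.append_eq_nil_iff.1 h).2 hw
    | cons b t =>
      rw [List.cons_append, h]
      show lieBr (LX L a) (brVF L (b :: t)) = lieBr (LX L a) (adw L v (brVF L w))
      rw [← h1, h]

/-- the leading coefficient -/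
noncomputable def cΛ (κ : Lt r) : ℂ :=
  -((κ.1 : ℕ) + 1 : ℂ) * (((κ.1 : ℕ).descFactorial κ.1 : ℕ) : ℂ) *
    (((2 * r - (κ.1 + 1)).descFactorial (2 * r - (κ.1 + 1)) : ℕ) : ℂ)

lemma cΛ_ne (κ : Lt r) : cΛ κ ≠ 0 := by
  have h1 : ((κ.1 : ℕ) + 1 : ℂ) ≠ 0 := Nat.cast_add_one_ne_zero _
  have h2 : (((κ.1 : ℕ).descFactorial κ.1 : ℕ) : ℂ) ≠ 0 := by
    rw [Nat.descFactorial_self]; exact_mod_cast Nat.factorial_ne_zero _
  have h3 : (((2 * r - (κ.1 + 1)).descFactorial (2 * r - (κ.1 + 1)) : ℕ) : ℂ) ≠ 0 := by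
    rw [Nat.descFactorial_self]; exact_mod_cast Nat.factorial_ne_zero _
  exact mul_ne_zero (mul_ne_zero (neg_ne_zero.2 h1) h2) h3

/-- horizontal fields with given restriction to the slice -/
def HorEq (p : E d) (U : CVF (d + 2)) (X : CVF d) : Prop :=
  (∀ᶠ y in 𝓝 (inc p), ∀ i : Fin 2, U y (Fin.natAdd d i) = 0) ∧
    ∀ᶠ x in 𝓝 p, ∀ i : Fin d, U (inc x) (Fin.castAdd 2 i) = X x i

lemma VC.hor {ℓ k : ℕ} {U : CVF (d + 2)} (h : VC p K ℓ k U) :
    ∀ᶠ y in 𝓝 (inc p), ∀ i : Fin 2, U y (Fin.natAdd d i) = 0 := by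
  induction h with
  | zero => exact Eventually.of_forall fun y i => rfl
  | mono e w c hw hl h => exact Eventually.of_forall fun y i => by simp [T]
  | add _ _ h1 h2 =>
    filter_upwards [h1, h2] with y h1 h2 i
    rw [h1, h2, add_zero]
  | congr _ h1 h2 =>
    filter_upwards [h1, h2] with y h1 h2 i
    rw [h1, h2]

lemma VC.slice {ℓ k : ℕ} {U : CVF (d + 2)} (h : VC p K ℓ k U) (hk : k < (2 * r + 1) * ℓ) :
    ∀ᶠ x in 𝓝 p, ∀ i : Fin d, U (inc x) (Fin.castAdd 2 i) = 0 := by
  induction h with
  | zero => exact Eventually.of_forall fun y i => rfl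
  | mono e w c hw hl h =>
    refine Eventually.of_forall fun x i => ?_
    have h1 : e true + e false ≠ 0 := by
      intro h2
      have h3 : (2 * r + 1) * ℓ ≤ (2 * r + 1) * w.length := Nat.mul_le_mul_left _ hl
      omega
    show c * (mo e (inc x) * _) = 0
    rw [mo_inc e x h1, zero_mul, mul_zero]
  | add _ _ h1 h2 =>
    filter_upwards [h1, h2] with y h1 h2 i
    rw [h1, h2, add_zero]
  | congr _ h1 h2 =>
    filter_upwards [tendsto_inc.eventually h1, h2] with y h1 h2 i
    rw [h1, h2]

theorem horEq_Λ (hK : ∀ j, Sm p (K j)) (κ : Lt r) :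
    HorEq p (brVF (LL K) (WΛ κ)) (fun x i => cΛ κ * KL K κ x i) := by
  obtain ⟨j, ε⟩ := κ
  have hj := j.2
  have h0 := Ld.base (p := p) hK ε
  have h1 := (h0.rep hK (!ε) (j : ℕ)).rep hK ε (2 * r - (j + 1))
  have hw : brVF (LL K) (WΛ (j, ε)) = adw (LL K) (List.replicate (2 * r - (j + 1)) ε)
      (adw (LL K) (List.replicate j (!ε)) (lieBr (LX (LL K) ε) (LX (LL K) (!ε)))) := by
    show brVF (LL K) (List.replicate (2 * r - (j + 1)) ε ++ (List.replicate j (!ε) ++ [ε, !ε])) = _
    rw [brVF_append _ _ _ (by simp), brVF_append _ _ _ (by simp)]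
    rfl
  rw [hw]
  -- the coefficients
  have hcval : ∀ κ : Lt r, κ ≠ (j, ε) → c0 ε κ * (((e0 ε κ (!ε)).descFactorial j : ℕ) : ℂ) *
      (((Function.update (e0 ε κ) (!ε) (e0 ε κ (!ε) - j) ε).descFactorial
        (2 * r - (j + 1)) : ℕ) : ℂ) = 0 := by
    rintro ⟨i, b⟩ hne
    have hi := i.2
    rw [Function.update_of_ne (by cases ε <;> simp)]
    by_cases hb : b = ε
    · subst hb
      have hij : (i : ℕ) ≠ j := by
        intro h
        apply hne
        rw [Fin.ext h]
      have e1 : e0 b (i, b) (!b) = i := by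
        simp only [e0, if_true]
        rw [dec_self, mu_not]; omega
      have e2 : e0 b (i, b) b = 2 * r - (i + 1) := by
        simp only [e0, if_true]
        have := dec_not (mu i b) (!b)
        rw [Bool.not_not] at this
        rw [this, mu_self]
      rw [e1, e2]
      rcases lt_or_gt_of_ne hij with h | h
      · rw [Nat.descFactorial_eq_zero_iff_lt.2 h]; simp
      · have : (2 * r - (i + 1)).descFactorial (2 * r - (j + 1)) = 0 := by
          rw [Nat.descFactorial_eq_zero_iff_lt]; omega
        rw [this]; simp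
    · have e2 : e0 ε (i, b) ε = i := by
        simp only [e0, if_neg hb]
        rw [dec_self]
        have := mu_not i (!ε)
        rw [Bool.not_not] at this
        rw [this]; omega
      rw [e2]
      have : (i : ℕ).descFactorial (2 * r - (j + 1)) = 0 := by
        rw [Nat.descFactorial_eq_zero_iff_lt]; omega
      rw [this]; simp
  have hcval' : c0 ε (j, ε) * (((e0 ε (j, ε) (!ε)).descFactorial j : ℕ) : ℂ) *
      (((Function.update (e0 ε (j, ε)) (!ε) (e0 ε (j, ε) (!ε) - j) ε).descFactorial
        (2 * r - (j + 1)) : ℕ) : ℂ) = cΛ (j, ε) := by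
    rw [Function.update_of_ne (by cases ε <;> simp)]
    have e1 : e0 ε (j, ε) (!ε) = j := by
      simp only [e0, if_true]
      rw [dec_self, mu_not]; omega
    have e2 : e0 ε (j, ε) ε = 2 * r - (j + 1) := by
      simp only [e0, if_true]
      have := dec_not (mu j ε) (!ε)
      rw [Bool.not_not] at this
      rw [this, mu_self]
    rw [e1, e2]
    simp only [cΛ, c0, if_true]
    ring
  obtain ⟨hc, V, hV, hU⟩ := h1
  have hk : 2 + (j : ℕ) + (2 * r - (j + 1)) = 2 * r + 1 := by omega
  rw [hk] at hc hV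
  generalize hef : (fun κ : Lt r => Function.update (Function.update (e0 ε κ) (!ε) (e0 ε κ (!ε) - j)) ε
    (Function.update (e0 ε κ) (!ε) (e0 ε κ (!ε) - j) ε - (2 * r - (j + 1)))) = ef at hc hU
  have hef0 : ef (j, ε) true + ef (j, ε) false = 0 := by
    rcases hc (j, ε) with h | h
    · exact absurd (hcval'.symm.trans h) (cΛ_ne (j, ε))
    · omega
  refine ⟨?_, ?_⟩
  · filter_upwards [hU, hV.hor] with y h1 h2 i
    rw [h1]
    simp [T, h2]
  · filter_upwards [tendsto_inc.eventually hU, hV.slice (by omega)] with x h1 h2 i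
    rw [h1]
    simp only
    rw [h2 i, add_zero, Finset.sum_eq_single (j, ε)]
    · rw [hcval']
      simp only [T, hX_left, pr_inc]
      rw [mo_inc_zero _ x hef0, one_mul]
    · intro κ _ hne
      rw [hcval κ hne, zero_mul]
    · intro h
      exact absurd (Finset.mem_univ _) h

end Pool.Agent.W737.Sub
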