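import Pool.Agent.W737.Sub.Upper
import Pool.Agent.W737.Sub.LiftCR

/-! Upper bounds and the comparison theorem for tuples of fields. -/

set_option autoImplicit false

open scoped ContDiff Topology BigOperators
open Finset Filter DAng

namespace Pool.Agent.W737.Sub

variable {d r : ℕ} {p : E d} {K : Fin r → CVF d}

/-! ### restriction to the slice -/

lemma pd_inc {F : CF (d + 2)} {x : E d} (hF : DifferentiableAt ℝ F (inc x)) (i : Fin d) :
    pd i (fun x => F (inc x)) x = pd (Fin.castAdd 2 i) F (inc x) := by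
  have h1 : HasFDerivAt (fun x : E d => F (inc x)) ((fderiv ℝ F (inc x)).comp incL) x := by
    have h2 : HasFDerivAt (inc : E d → E (d + 2)) incL x := by
      have : (inc : E d → E (d + 2)) = incL := by funext y; simp
      rw [this]; exact incL.hasFDerivAt
    exact hF.hasFDerivAt.comp x h2
  simp only [pd]
  rw [h1.fderiv]
  simp [inc_single]

lemma HorEq.act {U : CVF (d + 2)} {X : CVF d} (h : HorEq p U X) {F : CF (d + 2)} {f : CF d}
    (hF : Sm (inc p) F) (hf : ∀ᶠ x in 𝓝 p, F (inc x) = f x) :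
    ∀ᶠ x in 𝓝 p, act U F (inc x) = act X f x := by
  have h1 : ∀ᶠ x in 𝓝 p, ∀ i, pd i (fun x => F (inc x)) x = pd i f x :=
    eventually_all.2 fun i => pd_congr hf i
  filter_upwards [tendsto_inc.eventually h.1, h.2, h1, tendsto_inc.eventually hF.differentiableAt]
    with x h2 h3 h4 h5
  simp only [DAng.act]
  rw [sum_split, h2, h2]
  simp only [zero_mul, add_zero]
  refine Finset.sum_congr rfl fun i _ => ?_
  rw [h3, ← h4, pd_inc h5]

lemma HorEq.lieBr {U U' : CVF (d + 2)} {X X' : CVF d} (h : HorEq p U X) (h' : HorEq p U' X')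
    (hU : Sm (inc p) U) (hU' : Sm (inc p) U') : HorEq p (DAng.lieBr U U') (DAng.lieBr X X') := by
  refine ⟨?_, ?_⟩
  · have e1 : ∀ i : Fin 2, DAng.act U (fun y => U' y (Fin.natAdd d i)) =ᶠ[𝓝 (inc p)] DAng.act U (fun _ => 0) :=
      fun i => act_congr EventuallyEq.rfl (by filter_upwards [h'.1] with y hy; exact hy i)
    have e2 : ∀ i : Fin 2, DAng.act U' (fun y => U y (Fin.natAdd d i)) =ᶠ[𝓝 (inc p)] DAng.act U' (fun _ => 0) :=
      fun i => act_congr EventuallyEq.rfl (by filter_upwards [h.1] with y hy; exact hy i)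
    filter_upwards [eventually_all.2 e1, eventually_all.2 e2] with y h1 h2 i
    simp only [DAng.lieBr]
    rw [h1, h2, act_const, act_const, sub_zero]
  · have e1 : ∀ i : Fin d, ∀ᶠ x in 𝓝 p, DAng.act U (fun y => U' y (Fin.castAdd 2 i)) (inc x) =
        DAng.act X (fun y => X' y i) x := fun i =>
      HorEq.act h (hU'.comp_apply _) (by filter_upwards [h'.2] with x hx; exact hx i)
    have e2 : ∀ i : Fin d, ∀ᶠ x in 𝓝 p, DAng.act U' (fun y => U y (Fin.castAdd 2 i)) (inc x) =
        DAng.act X' (fun y => X y i) x := fun i =>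
      HorEq.act h' (hU.comp_apply _) (by filter_upwards [h.2] with x hx; exact hx i)
    filter_upwards [eventually_all.2 e1, eventually_all.2 e2] with x h1 h2 i
    simp only [DAng.lieBr]
    rw [h1, h2]

lemma HorEq.pair {U : CVF (d + 2)} {X : CVF d} (h : HorEq p U X) (η : E d → Fin d → ℝ) :
    pair (liftη η) U (inc p) = pair η X p := by
  rw [pair_liftη, pr_inc]
  simp only [DAng.pair]
  refine Finset.sum_congr rfl fun i _ => ?_
  rw [h.2.self_of_nhds i]

/-! ### spans of words -/

/-- germs of linear combinations of the brackets of length `N` -/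
inductive SB {m : ℕ} (q : E m) (L : CVF m) (N : ℕ) : CVF m → Prop
  | mono (W : List Bool) (c : ℂ) (hW : W ≠ []) (h : W.length = N) :
      SB q L N (fun y i => c * brVF L W y i)
  | add {U V : CVF m} : SB q L N U → SB q L N V → SB q L N (fun y i => U y i + V y i)
  | congr {U V : CVF m} : SB q L N U → V =ᶠ[𝓝 q] U → SB q L N V

section spans
variable {m : ℕ} {q : E m} {L : CVF m}

lemma SB.sm (hL : Sm q L) {N : ℕ} {U : CVF m} (h : SB q L N U) : Sm q U := by
  induction h with
  | mono W c hW h => exact Sm.of_apply fun i => (Sm.const c).mul ((hL.brVF W).comp_apply i)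
  | add _ _ h1 h2 => exact Sm.of_apply fun i => (h1.comp_apply i).add (h2.comp_apply i)
  | congr _ h1 h2 => exact Sm.congr h2 h1

lemma SB.smul {N : ℕ} {U : CVF m} (h : SB q L N U) (c : ℂ) : SB q L N (fun y i => c * U y i) := by
  induction h with
  | mono W c' hW h =>
    refine (SB.mono W (c * c') hW h).congr (Eventually.of_forall fun y => ?_)
    funext i; ring
  | add _ _ h1 h2 =>
    refine (SB.add h1 h2).congr (Eventually.of_forall fun y => ?_)
    funext i; ring
  | congr _ h1 h2 =>
    refine h2.congr ?_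
    filter_upwards [h1] with y hy
    funext i; rw [hy]

lemma SB.letter (hL : Sm q L) {N : ℕ} {U : CVF m} (h : SB q L N U) (a : Bool) :
    SB q L (N + 1) (lieBr (LX L a) U) := by
  induction h with
  | mono W c hW h =>
    refine ((SB.mono (q := q) (L := L) (a :: W) c (by simp) (by simp [h])).congr ?_)
    have h1 := lieBr_smul_right (X := LX L a) c (hL.brVF W)
    filter_upwards [h1] with y hy
    rw [hy]
    cases W with
    | nil => exact absurd rfl hW
    | cons b t => rfl
  | add h1 h2 ih1 ih2 => exact (SB.add ih1 ih2).congr (lieBr_add_right (h1.sm hL) (h2.sm hL))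
  | congr _ h1 ih => exact ih.congr (lieBr_congr EventuallyEq.rfl h1)

/-- Jacobi identity -/
lemma jacobi {X Y Z : CVF m} (hX : Sm q X) (hY : Sm q Y) (hZ : Sm q Z) :
    lieBr (lieBr X Y) Z =ᶠ[𝓝 q]
      fun y i => lieBr X (lieBr Y Z) y i + (-1 : ℂ) * lieBr Y (lieBr X Z) y i := by
  have dX := eventually_all.2 fun i => (hX.comp_apply i).differentiableAt
  have dY := eventually_all.2 fun i => (hY.comp_apply i).differentiableAt
  have dZ := eventually_all.2 fun i => (hZ.comp_apply i).differentiableAt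
  have sX := eventually_all.2 fun i => hX.comp_apply i
  have sY := eventually_all.2 fun i => hY.comp_apply i
  have sZ := eventually_all.2 fun i => hZ.comp_apply i
  have aYZ := eventually_all.2 fun i => (hY.act (hZ.comp_apply i)).differentiableAt
  have aZY := eventually_all.2 fun i => (hZ.act (hY.comp_apply i)).differentiableAt
  have aXZ := eventually_all.2 fun i => (hX.act (hZ.comp_apply i)).differentiableAt
  have aZX := eventually_all.2 fun i => (hZ.act (hX.comp_apply i)).differentiableAt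
  have aXY := eventually_all.2 fun i => (hX.act (hY.comp_apply i)).differentiableAt
  have aYX := eventually_all.2 fun i => (hY.act (hX.comp_apply i)).differentiableAt
  have sX' : ∀ᶠ x in 𝓝 q, ∀ i, ContDiffAt ℝ ∞ (fun y => X y i) x := eventually_all.2 fun i => hX.comp_apply i
  have sY' : ∀ᶠ x in 𝓝 q, ∀ i, ContDiffAt ℝ ∞ (fun y => Y y i) x := eventually_all.2 fun i => hY.comp_apply i
  have sZ' : ∀ᶠ x in 𝓝 q, ∀ i, ContDiffAt ℝ ∞ (fun y => Z y i) x := eventually_all.2 fun i => hZ.comp_apply i
  filter_upwards [dX, dY, dZ, aYZ, aZY, aXZ, aZX, aXY, aYX, sX', sY', sZ']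
    with x dX dY dZ aYZ aZY aXZ aZX aXY aYX sX sY sZ
  funext i
  have e1 : lieBr (lieBr X Y) Z x i = act (lieBr X Y) (fun y => Z y i) x -
      act Z (fun y => lieBr X Y y i) x := rfl
  have e2 : lieBr X (lieBr Y Z) x i = act X (fun y => lieBr Y Z y i) x -
      act (lieBr Y Z) (fun y => X y i) x := rfl
  have e3 : lieBr Y (lieBr X Z) x i = act Y (fun y => lieBr X Z y i) x -
      act (lieBr X Z) (fun y => Y y i) x := rfl
  have f1 : act Z (fun y => lieBr X Y y i) x = act Z (act X (fun y => Y y i)) x -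
      act Z (act Y (fun y => X y i)) x := act_sub (aXY i) (aYX i)
  have f2 : act X (fun y => lieBr Y Z y i) x = act X (act Y (fun y => Z y i)) x -
      act X (act Z (fun y => Y y i)) x := act_sub (aYZ i) (aZY i)
  have f3 : act Y (fun y => lieBr X Z y i) x = act Y (act X (fun y => Z y i)) x -
      act Y (act Z (fun y => X y i)) x := act_sub (aXZ i) (aZX i)
  rw [e1, e2, e3, f1, f2, f3, act_lieBr dX dY (sZ i), act_lieBr dY dZ (sX i),
    act_lieBr dX dZ (sY i)]
  ring

lemma SB.br (hL : Sm q L) {b : ℕ} : ∀ (W : List Bool), W ≠ [] → ∀ {V : CVF m}, SB q L b V →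
    SB q L (b + W.length) (lieBr (brVF L W) V)
  | [], h, _, _ => absurd rfl h
  | [a], _, V, hV => hV.letter hL a
  | a :: c :: W, _, V, hV => by
    have h1 := (SB.br hL (c :: W) (by simp) hV).letter hL a
    have h2 := SB.br hL (c :: W) (by simp) (hV.letter hL a)
    have e1 : b + (c :: W).length + 1 = b + (a :: c :: W).length := by simp; omega
    have e2 : b + 1 + (c :: W).length = b + (a :: c :: W).length := by simp; omega
    rw [e1] at h1
    rw [e2] at h2
    exact (SB.add h1 (h2.smul (-1))).congr (jacobi (hL.LX a) (hL.brVF (c :: W)) (hV.sm hL))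

/-- germs of linear combinations of the derivatives of length `N` of `F0` -/
inductive SO {m : ℕ} (q : E m) (L : CVF m) (F0 : CF m) (N : ℕ) : CF m → Prop
  | mono (W : List Bool) (c : ℂ) (h : W.length = N) : SO q L F0 N (fun y => c * op L W F0 y)
  | add {U V : CF m} : SO q L F0 N U → SO q L F0 N V → SO q L F0 N (fun y => U y + V y)
  | congr {U V : CF m} : SO q L F0 N U → V =ᶠ[𝓝 q] U → SO q L F0 N V

variable {F0 : CF m}

lemma SO.sm (hL : Sm q L) (hF : Sm q F0) {N : ℕ} {U : CF m} (h : SO q L F0 N U) : Sm q U := by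
  induction h with
  | mono W c h => exact (Sm.const c).mul (hL.op W hF)
  | add _ _ h1 h2 => exact h1.add h2
  | congr _ h1 h2 => exact Sm.congr h2 h1

lemma SO.smul {N : ℕ} {U : CF m} (h : SO q L F0 N U) (c : ℂ) : SO q L F0 N (fun y => c * U y) := by
  induction h with
  | mono W c' h =>
    refine (SO.mono W (c * c') h).congr (Eventually.of_forall fun y => ?_)
    show c * (c' * _) = _
    ring
  | add _ _ h1 h2 =>
    refine (SO.add h1 h2).congr (Eventually.of_forall fun y => ?_)
    show c * (_ + _) = _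
    ring
  | congr _ h1 h2 =>
    refine h2.congr ?_
    filter_upwards [h1] with y hy
    rw [hy]

lemma op_snoc (L : CVF m) (a : Bool) : ∀ (w : List Bool) (f : CF m),
    op L (w ++ [a]) f = act (LX L a) (op L w f)
  | [], _ => rfl
  | b :: w, f => op_snoc L a w (act (LX L b) f)

lemma SO.letter (hL : Sm q L) (hF : Sm q F0) {N : ℕ} {U : CF m} (h : SO q L F0 N U) (a : Bool) :
    SO q L F0 (N + 1) (act (LX L a) U) := by
  induction h with
  | mono W c h =>
    refine ((SO.mono (q := q) (L := L) (F0 := F0) (W ++ [a]) c (by simp [h])).congr ?_)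
    rw [op_snoc]
    exact act_fun_smul c (hL.op W hF)
  | add h1 h2 ih1 ih2 => exact (SO.add ih1 ih2).congr (act_fun_add (h1.sm hL hF) (h2.sm hL hF))
  | congr _ h1 ih => exact ih.congr (act_congr EventuallyEq.rfl h1)

lemma SO.br (hL : Sm q L) (hF : Sm q F0) : ∀ (W : List Bool), W ≠ [] → ∀ {N : ℕ} {V : CF m},
    SO q L F0 N V → SO q L F0 (N + W.length) (act (brVF L W) V)
  | [], h, _, _, _ => absurd rfl h
  | [a], _, _, V, hV => hV.letter hL hF a
  | a :: c :: W, _, N, V, hV => by
    have h1 := (SO.br hL hF (c :: W) (by simp) hV).letter hL hF a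
    have h2 := SO.br hL hF (c :: W) (by simp) (hV.letter hL hF a)
    have e1 : N + (c :: W).length + 1 = N + (a :: c :: W).length := by simp; omega
    have e2 : N + 1 + (c :: W).length = N + (a :: c :: W).length := by simp; omega
    rw [e1] at h1
    rw [e2] at h2
    refine (SO.add h1 (h2.smul (-1))).congr ?_
    have dX := eventually_all.2 fun i => ((hL.LX a).comp_apply i).differentiableAt
    have dY := eventually_all.2 fun i => ((hL.brVF (c :: W)).comp_apply i).differentiableAt
    have sV : ∀ᶠ x in 𝓝 q, ContDiffAt ℝ ∞ V x := hV.sm hL hF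
    filter_upwards [dX, dY, sV] with x h1 h2 h3
    show act (lieBr (LX L a) (brVF L (c :: W))) V x = _
    rw [act_lieBr h1 h2 h3]
    ring

end spans

/-! ### upper bounds -/

/-- normalised Lie word of a letter -/
noncomputable def Λf (K : Fin r → CVF d) (κ : Lt r) : CVF (d + 2) :=
  fun y i => (cΛ κ)⁻¹ * brVF (LL K) (WΛ κ) y i

lemma sm_Λf (hK : ∀ j, Sm p (K j)) (κ : Lt r) : Sm (inc p) (Λf K κ) :=
  Sm.of_apply fun i => (Sm.const _).mul (((sm_LL hK).brVF _).comp_apply i)

lemma horEq_Λf (hK : ∀ j, Sm p (K j)) (κ : Lt r) : HorEq p (Λf K κ) (KL K κ) := by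
  obtain ⟨h1, h2⟩ := horEq_Λ hK κ
  refine ⟨?_, ?_⟩
  · filter_upwards [h1] with y hy i
    simp only [Λf, hy, mul_zero]
  · filter_upwards [h2] with x hx i
    simp only [Λf, hx]
    rw [← mul_assoc, inv_mul_cancel₀ (cΛ_ne κ), one_mul]

/-- iterated brackets of the Lie words -/
noncomputable def brΛ (K : Fin r → CVF d) : List (Lt r) → CVF (d + 2)
  | [] => 0
  | [κ] => Λf K κ
  | κ :: κ' :: w => lieBr (Λf K κ) (brΛ K (κ' :: w))

lemma brΛ_props (hK : ∀ j, Sm p (K j)) : ∀ (w : List (Lt r)), w ≠ [] →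
    HorEq p (brΛ K w) (brK K w) ∧ Sm (inc p) (brΛ K w) ∧
      SB (inc p) (LL K) ((2 * r + 1) * w.length) (brΛ K w)
  | [], h => absurd rfl h
  | [κ], _ => by
    refine ⟨horEq_Λf hK κ, sm_Λf hK κ, SB.mono _ _ (WΛ_ne κ) ?_⟩
    rw [length_WΛ]; simp
  | κ :: κ' :: w, _ => by
    obtain ⟨h1, h2, h3⟩ := brΛ_props hK (κ' :: w) (by simp)
    refine ⟨(horEq_Λf hK κ).lieBr h1 (sm_Λf hK κ) h2, (sm_Λf hK κ).lieBr h2, ?_⟩
    have h4 := (SB.br (sm_LL hK) (WΛ κ) (WΛ_ne κ) h3).smul (cΛ κ)⁻¹
    have h5 : (2 * r + 1) * (κ' :: w).length + (WΛ κ).length = (2 * r + 1) * (κ :: κ' :: w).length := by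
      rw [length_WΛ]; simp only [List.length_cons]; ring
    rw [h5] at h4
    exact h4.congr (lieBr_smul_left _ ((sm_LL hK).brVF _))

/-- (iii): upper bound for the commutator type of `L'` -/
theorem upper_br (hK : ∀ j, Sm p (K j)) (η : E d → Fin d → ℝ) {w : List (Lt r)} (hw : w ≠ [])
    (h0 : ∀ W : List Bool, W ≠ [] → W.length = (2 * r + 1) * w.length →
      pair (liftη η) (brVF (LL K) W) (inc p) = 0) :
    pair η (brK K w) p = 0 := by
  obtain ⟨h1, _, h3⟩ := brΛ_props hK w hw
  rw [← h1.pair η]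
  have key : ∀ {N : ℕ} {U : CVF (d + 2)}, SB (inc p) (LL K) N U →
      (∀ W : List Bool, W ≠ [] → W.length = N → pair (liftη η) (brVF (LL K) W) (inc p) = 0) →
      pair (liftη η) U (inc p) = 0 := by
    intro N U h h0
    induction h with
    | mono W c hW h =>
      rw [pair_smul', h0 W hW h, mul_zero]
    | add _ _ h1 h2 => rw [pair_add, h1, h2, add_zero]
    | congr _ h1 h2 => rw [pair_congr_at _ h1.self_of_nhds]; exact h2
  exact key h3 h0

/-- the innermost word -/
def W0 (r : ℕ) : List Bool := List.replicate (2 * r) true ++ List.replicate (2 * r) false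

/-- leading terms of functions -/
def LdF (p : E d) (K : Fin r → CVF d) (η : E d → Fin d → ℝ) (k : ℕ) (c : Fin r × Fin r → ℂ)
    (e : Fin r × Fin r → Bool → ℕ) (U : CF (d + 2)) : Prop :=
  (∀ κ, c κ = 0 ∨ e κ true + e κ false + k = 4 * r) ∧
    ∃ V, FC p K (GG η K) 1 k V ∧
      U =ᶠ[𝓝 (inc p)] fun y => ∑ κ, c κ * (mo (e κ) y * lam η K κ.1 κ.2 (pr y)) + V y

lemma LdF.step (hK : ∀ j, Sm p (K j)) {η : E d → Fin d → ℝ} (hη : Sm p η) {k : ℕ}
    {c : Fin r × Fin r → ℂ} {e : Fin r × Fin r → Bool → ℕ}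
    {U : CF (d + 2)} (ε : Bool) (h : LdF p K η k c e U) :
    LdF p K η (k + 1) (fun κ => c κ * e κ ε) (fun κ => dec (e κ) ε) (act (LX (LL K) ε) U) := by
  obtain ⟨hc, V, hV, hU⟩ := h
  refine ⟨?_, ?_⟩
  · intro κ
    show c κ * (e κ ε : ℂ) = 0 ∨ dec (e κ) ε true + dec (e κ) ε false + (k + 1) = 4 * r
    rcases hc κ with h1 | h1
    · left; rw [h1, zero_mul]
    · by_cases h2 : e κ ε = 0
      · left; rw [h2]; simp
      · right
        cases ε
        · have h3 : dec (e κ) false true = e κ true := dec_not (e κ) false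
          have h4 := dec_self (e κ) false
          rw [h3, h4]; omega
        · have h3 : dec (e κ) true false = e κ false := dec_not (e κ) true
          have h4 := dec_self (e κ) true
          rw [h3, h4]; omega
  · refine ⟨fun y => ∑ κ : Fin r × Fin r, ∑ j, c κ * (mo (e κ + mu j ε) y *
      opK K [(j, ε)] (lam η K κ.1 κ.2) (pr y)) + act (LX (LL K) ε) V y,
      FC.add (FC.sum _ fun κ _ => ?_) (hV.step hK (sm_GG hK hη) ε), ?_⟩
    · rcases hc κ with h1 | h1
      · rw [h1]
        simpa using FC.zero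
      · refine FC.sum _ fun j _ => FC.mono _ _ _ _ ⟨κ, rfl⟩ (by simp) ?_
        have := mu_sum j ε
        simp only [List.length_cons, List.length_nil, Pi.add_apply]
        omega
    · have hs : ∀ κ : Fin r × Fin r, Sm (inc p) (fun y => mo (e κ) y * lam η K κ.1 κ.2 (pr y)) :=
        fun κ => (sm_mo _ _).mul (Sm.comp_pr (sm_lam hK hη κ.1 κ.2))
      have h1 : act (LX (LL K) ε) U =ᶠ[𝓝 (inc p)] _ := act_congr EventuallyEq.rfl hU
      have hd : ∀ᶠ y in 𝓝 (inc p), ∀ κ : Fin r × Fin r,
          DifferentiableAt ℝ (fun y => mo (e κ) y * lam η K κ.1 κ.2 (pr y)) y :=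
        eventually_all.2 fun κ => (hs κ).differentiableAt
      have hd2 : ∀ᶠ x in 𝓝 p, ∀ κ : Fin r × Fin r, DifferentiableAt ℝ (lam η K κ.1 κ.2) x :=
        eventually_all.2 fun κ => (sm_lam hK hη κ.1 κ.2).differentiableAt
      filter_upwards [h1, hd, tendsto_pr.eventually hd2,
        (hV.sm hK (sm_GG hK hη)).differentiableAt] with y h1 h2 h3 h4
      rw [h1]
      have h5 : ∀ κ ∈ (Finset.univ : Finset (Fin r × Fin r)), DifferentiableAt ℝ
          (fun y => c κ * (mo (e κ) y * lam η K κ.1 κ.2 (pr y))) y := fun κ _ => (h2 κ).const_mul _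
      rw [act_add (DifferentiableAt.fun_sum h5) h4, act_sum h5, ← add_assoc, ← Finset.sum_add_distrib]
      congr 1
      refine Finset.sum_congr rfl fun κ _ => ?_
      rw [act_const_mul _ _ (h2 κ), step_fun K ε (e κ) (h3 κ), mul_add, Finset.mul_sum]
      congr 1
      ring

lemma LdF.rep (hK : ∀ j, Sm p (K j)) {η : E d → Fin d → ℝ} (hη : Sm p η) {k : ℕ}
    {c : Fin r × Fin r → ℂ} {e : Fin r × Fin r → Bool → ℕ}
    (ε : Bool) : ∀ (s : ℕ) {k : ℕ} {c : Fin r × Fin r → ℂ} {e : Fin r × Fin r → Bool → ℕ}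
      {U : CF (d + 2)}, LdF p K η k c e U →
    LdF p K η (k + s) (fun κ => c κ * ((e κ ε).descFactorial s : ℕ))
      (fun κ => Function.update (e κ) ε (e κ ε - s)) (op (LL K) (List.replicate s ε) U)
  | 0, k, c, e, U, h => by
    have h1 : (fun κ => c κ * ((e κ ε).descFactorial 0 : ℕ)) = c := by
      funext κ; simp
    have h2 : (fun κ => Function.update (e κ) ε (e κ ε - 0)) = e := by
      funext κ; simp
    rw [h1, h2]; exact h
  | s + 1, k, c, e, U, h => by
    have h1 := (LdF.rep (k := k) (c := c) (e := e) hK hη ε s h).step hK hη ε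
    have h2 : (fun κ => c κ * ((e κ ε).descFactorial s : ℕ) *
        ((Function.update (e κ) ε (e κ ε - s) ε : ℕ) : ℂ)) =
        (fun κ => c κ * ((e κ ε).descFactorial (s + 1) : ℕ)) := by
      funext κ
      rw [Function.update_self, Nat.descFactorial_succ]
      push_cast
      ring
    have h3 : (fun κ => dec (Function.update (e κ) ε (e κ ε - s)) ε) =
        (fun κ => Function.update (e κ) ε (e κ ε - (s + 1))) := by
      funext κ
      rw [dec, Function.update_self, Function.update_idem]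
      congr 1
    rw [h2, h3, ← op_snoc] at h1
    have h4 : List.replicate s ε ++ [ε] = List.replicate (s + 1) ε := by
      rw [List.replicate_succ']
    rw [h4] at h1
    exact h1

lemma op_append' {m : ℕ} (L : CVF m) : ∀ (v w : List Bool) (f : CF m),
    op L (v ++ w) f = op L w (op L v f)
  | [], _, _ => rfl
  | a :: v, w, f => op_append' L v w (act (LX L a) f)

lemma FC.slice {G : Set (CF d)} {ℓ k : ℕ} {U : CF (d + 2)} (h : FC p K G ℓ k U)
    (hk : k < 4 * r + (2 * r + 1) * ℓ) : ∀ᶠ x in 𝓝 p, U (inc x) = 0 := by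
  induction h with
  | zero => exact Eventually.of_forall fun y => rfl
  | mono e w c g hg hl h =>
    refine Eventually.of_forall fun x => ?_
    have h1 : e true + e false ≠ 0 := by
      intro h2
      have h3 : (2 * r + 1) * ℓ ≤ (2 * r + 1) * w.length := Nat.mul_le_mul_left _ hl
      omega
    show c * (mo e (inc x) * _) = 0
    rw [mo_inc e x h1, zero_mul, mul_zero]
  | add _ _ h1 h2 =>
    filter_upwards [h1, h2] with y h1 h2
    show _ + _ = _
    rw [h1, h2, add_zero]
  | congr _ h1 h2 =>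
    filter_upwards [tendsto_inc.eventually h1, h2] with y h1 h2
    rw [h1, h2]

/-- the function `Σ_j λ(K_j, K_j)` appears on the slice -/
theorem slice_W0 (hK : ∀ j, Sm p (K j)) {η : E d → Fin d → ℝ} (hη : Sm p η)
    (hann : ∀ j, ∀ᶠ x in 𝓝 p, pair η (K j) x = 0) :
    ∀ᶠ x in 𝓝 p, op (LL K) (W0 r) (pair (liftη η) (lieBr (LL K) (cjVF (LL K)))) (inc x) =
      ((2 * r).factorial : ℂ) * ((2 * r).factorial : ℂ) * ∑ j, lam η K j j x := by
  have h0 : LdF p K η 0 (fun _ => 1) (fun κ => mu κ.2 false + mu κ.1 true)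
      (pair (liftη η) (lieBr (LL K) (cjVF (LL K)))) := by
    refine ⟨fun κ => Or.inr ?_, fun _ => 0, FC.zero, ?_⟩
    · have h2 := mu_sum κ.2 false
      have h3 := mu_sum κ.1 true
      simp only [Pi.add_apply]
      omega
    · filter_upwards [levi_lift hK η hann] with y hy
      rw [hy, add_zero, Fintype.sum_prod_type, Finset.sum_comm]
      simp only [one_mul]
  have h1 := LdF.rep (k := 0) (c := fun _ => 0) (e := fun _ _ => 0) hK hη false (2 * r)
    (LdF.rep (k := 0) (c := fun _ => 0) (e := fun _ _ => 0) hK hη true (2 * r) h0)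
  rw [← op_append'] at h1
  obtain ⟨hc, V, hV, hU⟩ := h1
  have hexp : ∀ κ : Fin r × Fin r, ∀ ε, (mu κ.2 false + mu κ.1 true) ε =
      if ε = true then (κ.2 : ℕ) + 1 + (2 * r - (κ.1 + 1)) else 2 * r - (κ.2 + 1) + (κ.1 + 1) := by
    intro κ ε
    cases ε <;> simp [mu]
  have hcoef : ∀ κ : Fin r × Fin r, (1 : ℂ) * ((((mu κ.2 false + mu κ.1 true) true).descFactorial (2 * r) : ℕ) : ℂ) *
      (((Function.update (mu κ.2 false + mu κ.1 true) true
        ((mu κ.2 false + mu κ.1 true) true - 2 * r) false).descFactorial (2 * r) : ℕ) : ℂ) =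
      if κ.1 = κ.2 then ((2 * r).factorial : ℂ) * ((2 * r).factorial : ℂ) else 0 := by
    intro κ
    have hj := κ.1.2
    have hj2 := κ.2.2
    rw [Function.update_of_ne (by simp), hexp, hexp]
    simp only [if_true, Bool.false_eq_true, if_false, one_mul]
    by_cases h : κ.1 = κ.2
    · rw [if_pos h, h]
      have e1 : (κ.2 : ℕ) + 1 + (2 * r - (κ.2 + 1)) = 2 * r := by omega
      have e2 : 2 * r - ((κ.2 : ℕ) + 1) + (κ.2 + 1) = 2 * r := by omega
      rw [e1, e2, Nat.descFactorial_self]
    · rw [if_neg h]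
      have hne : (κ.1 : ℕ) ≠ κ.2 := fun h' => h (Fin.ext h')
      rcases lt_or_gt_of_ne hne with h' | h'
      · have : (2 * r - ((κ.2 : ℕ) + 1) + (κ.1 + 1)).descFactorial (2 * r) = 0 := by
          rw [Nat.descFactorial_eq_zero_iff_lt]; omega
        rw [this]; simp
      · have : ((κ.2 : ℕ) + 1 + (2 * r - (κ.1 + 1))).descFactorial (2 * r) = 0 := by
          rw [Nat.descFactorial_eq_zero_iff_lt]; omega
        rw [this]; simp
  have hk : 0 + 2 * r + 2 * r = 4 * r := by omega
  rw [hk] at hc hV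
  filter_upwards [tendsto_inc.eventually hU, hV.slice (by omega)] with x h1 h2
  show op (LL K) (List.replicate (2 * r) true ++ List.replicate (2 * r) false) _ (inc x) = _
  rw [h1]
  show _ + V (inc x) = _
  rw [h2, add_zero, Fintype.sum_prod_type, Finset.mul_sum]
  refine Finset.sum_congr rfl fun j _ => ?_
  rw [Finset.sum_eq_single j]
  · have e1 := hcoef (j, j)
    rw [if_pos rfl] at e1
    have e2 := hc (j, j)
    simp only at e2
    rw [e1] at e2
    have hf : (((2 * r).factorial : ℂ)) ≠ 0 := by exact_mod_cast Nat.factorial_ne_zero _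
    have e3 := e2.resolve_left (mul_ne_zero hf hf)
    have e4 : ∀ ε, (Function.update
      (Function.update (mu j false + mu j true) true ((mu j false + mu j true) true - 2 * r)) false
      (Function.update (mu j false + mu j true) true ((mu j false + mu j true) true - 2 * r) false
        - 2 * r)) ε = 0 := by
      have t1 := hexp (j, j) true
      have t2 := hexp (j, j) false
      simp only [if_true, Bool.false_eq_true, if_false] at t1 t2
      have := j.2
      intro ε; cases ε
      · rw [Function.update_self, Function.update_of_ne (by simp), t2]; omega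
      · rw [Function.update_of_ne (by simp), Function.update_self, t1]; omega
    rw [e1, mo_inc_zero _ x (by rw [e4, e4]), pr_inc, one_mul]
  · intro i _ hne
    have e1 := hcoef (j, i)
    rw [if_neg (fun h => hne h.symm)] at e1
    rw [e1, zero_mul]
  · intro h; exact absurd (Finset.mem_univ _) h

/-- iterated derivatives along the Lie words -/
noncomputable def opΛ (K : Fin r → CVF d) : List (Lt r) → CF (d + 2) → CF (d + 2)
  | [], F => F
  | κ :: w, F => opΛ K w (act (Λf K κ) F)

lemma opΛ_slice (hK : ∀ j, Sm p (K j)) : ∀ (w : List (Lt r)) {F : CF (d + 2)} {f : CF d},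
    Sm (inc p) F → (∀ᶠ x in 𝓝 p, F (inc x) = f x) →
      ∀ᶠ x in 𝓝 p, opΛ K w F (inc x) = opK K w f x
  | [], _, _, _, h => h
  | κ :: w, _, _, hF, h => opΛ_slice hK w ((sm_Λf hK κ).act hF) ((horEq_Λf hK κ).act hF h)

lemma opΛ_SO (hK : ∀ j, Sm p (K j)) {F0 : CF (d + 2)} (hF : Sm (inc p) F0) :
    ∀ (w : List (Lt r)) {N : ℕ} {F : CF (d + 2)}, SO (inc p) (LL K) F0 N F →
      SO (inc p) (LL K) F0 (N + (2 * r + 1) * w.length) (opΛ K w F)
  | [], N, F, h => by
    exact h
  | κ :: w, N, F, h => by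
    have h1 : SO (inc p) (LL K) F0 (N + (2 * r + 1)) (act (Λf K κ) F) := by
      have h2 := (SO.br (sm_LL hK) hF (WΛ κ) (WΛ_ne κ) h).smul (cΛ κ)⁻¹
      rw [length_WΛ] at h2
      refine h2.congr (Eventually.of_forall fun y => ?_)
      exact act_smul_field _ _ _ _
    have h3 := opΛ_SO hK hF w h1
    have h4 : N + (2 * r + 1) + (2 * r + 1) * w.length = N + (2 * r + 1) * (κ :: w).length := by
      simp only [List.length_cons]; ring
    rw [h4] at h3
    exact h3

/-- (iv): upper bound for the Levi type of `L'` -/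
theorem upper_op (hK : ∀ j, Sm p (K j)) {η : E d → Fin d → ℝ} (hη : Sm p η)
    (hann : ∀ j, ∀ᶠ x in 𝓝 p, pair η (K j) x = 0) {w : List (Lt r)}
    (h0 : ∀ W : List Bool, W.length + 2 = (2 * r + 1) * (w.length + 2) →
      op (LL K) W (pair (liftη η) (lieBr (LL K) (cjVF (LL K)))) (inc p) = 0) :
    opK K w (fun x => ∑ j, lam η K j j x) p = 0 := by
  set F0 : CF (d + 2) := pair (liftη η) (lieBr (LL K) (cjVF (LL K))) with hF0
  have hF : Sm (inc p) F0 := (sm_liftη hη).pair ((sm_LL hK).lieBr (sm_LL hK).cjVF)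
  set F1 : CF (d + 2) := op (LL K) (W0 r) F0 with hF1
  have hF1s : Sm (inc p) F1 := (sm_LL hK).op _ hF
  have hSO1 : SO (inc p) (LL K) F0 (4 * r) F1 := by
    have := SO.mono (q := inc p) (L := LL K) (F0 := F0) (N := 4 * r) (W0 r) 1 (by
      simp only [W0, List.length_append, List.length_replicate]; omega)
    simpa using this
  have hSO := opΛ_SO hK hF w hSO1
  have key : ∀ {N : ℕ} {U : CF (d + 2)}, SO (inc p) (LL K) F0 N U →
      (∀ W : List Bool, W.length = N → op (LL K) W F0 (inc p) = 0) → U (inc p) = 0 := by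
    intro N U h h0
    induction h with
    | mono W c h =>
      show c * _ = 0
      rw [h0 W h, mul_zero]
    | add _ _ h1 h2 =>
      show _ + _ = _
      rw [h1, h2, add_zero]
    | congr _ h1 h2 => rw [h1.self_of_nhds]; exact h2
  have h1 := key hSO fun W hW => h0 W (by
    rw [hW]; ring)
  have h2 := (opΛ_slice hK w hF1s (slice_W0 hK hη hann)).self_of_nhds
  rw [h2] at h1
  have h3 : ∀ (w : List (Lt r)) {f : CF d} (c : ℂ), Sm p f →
      ∀ᶠ x in 𝓝 p, opK K w (fun x => c * f x) x = c * opK K w f x := by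
    intro w
    induction w with
    | nil => intro f c _; exact Eventually.of_forall fun x => rfl
    | cons κ w ih =>
      intro f c hf
      have e1 : act (KL K κ) (fun x => c * f x) =ᶠ[𝓝 p] fun x => c * act (KL K κ) f x :=
        act_fun_smul c hf
      have e2 : ∀ (w : List (Lt r)) {f g : CF d}, f =ᶠ[𝓝 p] g → opK K w f =ᶠ[𝓝 p] opK K w g := by
        intro w
        induction w with
        | nil => intro f g h; exact h
        | cons κ w ih => intro f g h; exact ih (act_congr EventuallyEq.rfl h)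
      have e3 := e2 w e1
      have e4 := ih c ((sm_KL hK κ).act hf)
      filter_upwards [e3, e4] with x h1 h2
      show opK K w (act (KL K κ) (fun x => c * f x)) x = c * opK K w (act (KL K κ) f) x
      rw [h1, h2]
  have h4 := (h3 w (f := fun x => ∑ j, lam η K j j x) ((((2 * r).factorial : ℕ) : ℂ) * (((2 * r).factorial : ℕ) : ℂ))
    (Sm.sum fun j _ => sm_lam hK hη j j)).self_of_nhds
  rw [h4] at h1
  have hf : ((((2 * r).factorial : ℕ) : ℂ)) ≠ 0 := by exact_mod_cast Nat.factorial_ne_zero _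
  exact (mul_eq_zero.1 h1).resolve_left (mul_ne_zero hf hf)

end Pool.Agent.W737.Sub
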